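import Mathlib

/-!
Riemannian geometry in one chart: connections given by a symmetric bilinear Christoffel map,
their curvature tensor.
-/

open Set
open scoped ContDiff

namespace Q186.SM

variable {E : Type*} [NormedAddCommGroup E] [NormedSpace ℝ E]

/-- `Γ` is the Christoffel map of the Levi-Civita connection of the metric `g` on the open
subset `U` of the vector space `E`: the smooth torsion-free connection
`∇_x y = D_x y + Γ(x, y)` with `D_x (g(y, z)) = g(∇_x y, z) + g(y, ∇_x z)`
(conditions written for constant vector fields `x, y, z`). -/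
structure IsLeviCivita (U : Set E) (g : E → E → E → ℝ) (Γ : E → E → E → E) : Prop where
  add : ∀ u ∈ U, ∀ x y z, Γ u x (y + z) = Γ u x y + Γ u x z
  smul : ∀ u ∈ U, ∀ (t : ℝ) (x y : E), Γ u x (t • y) = t • Γ u x y
  symm : ∀ u ∈ U, ∀ x y, Γ u x y = Γ u y x
  smooth : ∀ y z, ContDiffOn ℝ ∞ (fun u => Γ u y z) U
  metric : ∀ u ∈ U, ∀ x y z,
    fderiv ℝ (fun p => g p y z) u x = g u (Γ u x y) z + g u y (Γ u x z)

/-- The curvature tensor `R(x, y) z = ∇_x ∇_y z - ∇_y ∇_x z` (constant vector fields
`x, y, z`, so that `[x, y] = 0`) of the connection with Christoffel map `Γ`, at the point `u`. -/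
noncomputable def curvature (Γ : E → E → E → E) (u x y z : E) : E :=
  fderiv ℝ (fun p => Γ p y z) u x - fderiv ℝ (fun p => Γ p x z) u y
    + Γ u x (Γ u y z) - Γ u y (Γ u x z)

end Q186.SM
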