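import Mathlib
import Pool.Agent.Q186.SM.Conn

/-!
The Gauss equation for immersed submanifolds of a vector space with a symmetric bilinear form.
-/

open Set
open scoped ContDiff

namespace Q186.SM

variable {E V : Type*} [NormedAddCommGroup E] [NormedSpace ℝ E]
  [NormedAddCommGroup V] [NormedSpace ℝ V]

/-- second derivative -/
noncomputable def sec (F : E → V) (u x y : E) : V := fderiv ℝ (fun p => fderiv ℝ F p y) u x

/-- normal part of the second derivative -/
noncomputable def nu (F : E → V) (Γ : E → E → E → E) (u x y : E) : V :=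
  sec F u x y - fderiv ℝ F u (Γ u x y)

variable {U : Set E} {F : E → V}

theorem contDiffOn_dF (hU : IsOpen U) (hF : ContDiffOn ℝ ∞ F U) (y : E) :
    ContDiffOn ℝ ∞ (fun p => fderiv ℝ F p y) U :=
  ((hF.fderiv_of_isOpen hU (m := ∞) (by simp)).clm_apply contDiffOn_const)

theorem contDiffOn_sec (hU : IsOpen U) (hF : ContDiffOn ℝ ∞ F U) (x y : E) :
    ContDiffOn ℝ ∞ (fun p => sec F p x y) U :=
  contDiffOn_dF hU (contDiffOn_dF hU hF y) x

theorem hasFDerivAt_of_contDiffOn {W : Type*} [NormedAddCommGroup W] [NormedSpace ℝ W]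
    {f : E → W} (hU : IsOpen U) (hf : ContDiffOn ℝ ∞ f U) {u : E} (hu : u ∈ U) :
    HasFDerivAt f (fderiv ℝ f u) u :=
  ((hf.contDiffAt (hU.mem_nhds hu)).differentiableAt (by simp)).hasFDerivAt

theorem sec_symm (hU : IsOpen U) (hF : ContDiffOn ℝ ∞ F U) {u : E} (hu : u ∈ U) (x y : E) :
    sec F u x y = sec F u y x := by
  have hc : ContDiffAt ℝ ∞ F u := hF.contDiffAt (hU.mem_nhds hu)
  have hs : IsSymmSndFDerivAt ℝ F u := hc.isSymmSndFDerivAt (by simp only [minSmoothness_of_isRCLikeNormedField]; exact (WithTop.coe_le_coe.mpr le_top : ((2:ℕ∞) : WithTop ℕ∞) ≤ ((⊤ : ℕ∞) : WithTop ℕ∞)))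
  have hd : ∀ y : E, ∀ x : E, sec F u x y = fderiv ℝ (fderiv ℝ F) u x y := by
    intro y x
    have h1 : HasFDerivAt (fderiv ℝ F) (fderiv ℝ (fderiv ℝ F) u) u :=
      hasFDerivAt_of_contDiffOn hU (hF.fderiv_of_isOpen hU (m := ∞) (by simp)) hu
    have h2 := (h1.clm_apply (hasFDerivAt_const y u)).fderiv
    unfold sec
    rw [h2]
    simp
  rw [hd, hd]
  exact hs x y

variable (B : V →L[ℝ] V →L[ℝ] ℝ)

/-- The induced metric. -/
noncomputable def ind (F : E → V) (u y z : E) : ℝ := B (fderiv ℝ F u y) (fderiv ℝ F u z)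

theorem fderiv_ind (hU : IsOpen U) (hF : ContDiffOn ℝ ∞ F U) {u : E} (hu : u ∈ U) (x y z : E) :
    fderiv ℝ (fun p => ind B F p y z) u x
      = B (sec F u x y) (fderiv ℝ F u z) + B (fderiv ℝ F u y) (sec F u x z) := by
  have h1 := hasFDerivAt_of_contDiffOn hU (contDiffOn_dF hU hF y) hu
  have h2 := hasFDerivAt_of_contDiffOn hU (contDiffOn_dF hU hF z) hu
  have h3 := (B.hasFDerivAt_of_bilinear h1 h2).fderiv
  unfold ind
  rw [h3]
  simp [sec]
  ring

variable {B}

/-- The tangential part of the second derivative is given by the Levi-Civita connection. -/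
theorem nu_perp (hB : ∀ v w, B v w = B w v) (hU : IsOpen U) (hF : ContDiffOn ℝ ∞ F U)
    {Γ : E → E → E → E} (hΓ : IsLeviCivita U (ind B F) Γ) {u : E} (hu : u ∈ U)
    (x y z : E) : B (nu F Γ u x y) (fderiv ℝ F u z) = 0 := by
  have hs : ∀ x y z, B (nu F Γ u x y) (fderiv ℝ F u z) = B (nu F Γ u y x) (fderiv ℝ F u z) := by
    intro x y z
    unfold nu
    rw [sec_symm hU hF hu x y, hΓ.symm u hu x y]
  have ha : ∀ x y z, B (nu F Γ u x y) (fderiv ℝ F u z)
      + B (nu F Γ u x z) (fderiv ℝ F u y) = 0 := by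
    intro x y z
    have h := hΓ.metric u hu x y z
    rw [fderiv_ind B hU hF hu] at h
    unfold nu
    simp only [map_sub, sub_apply]
    simp only [ind] at h
    rw [hB (sec F u x z) (fderiv ℝ F u y), hB (fderiv ℝ F u (Γ u x z)) (fderiv ℝ F u y)]
    linarith
  have e1 := ha x y z
  have e2 := ha z x y
  have e3 := ha y z x
  have f1 := hs x y z
  have f2 := hs x z y
  have f3 := hs y z x
  linarith

theorem contDiffOn_nu_term (hU : IsOpen U) (hF : ContDiffOn ℝ ∞ F U)
    {Γ : E → E → E → E} {g : E → E → E → ℝ} (hΓ : IsLeviCivita U g Γ) (x y : E) :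
    ContDiffOn ℝ ∞ (fun p => fderiv ℝ F p (Γ p x y)) U :=
  (hF.fderiv_of_isOpen hU (m := ∞) (by simp)).clm_apply (hΓ.smooth x y)

theorem fderiv_nu_term (hU : IsOpen U) (hF : ContDiffOn ℝ ∞ F U)
    {Γ : E → E → E → E} {g : E → E → E → ℝ} (hΓ : IsLeviCivita U g Γ) {u : E}
    (hu : u ∈ U) (w x y : E) :
    fderiv ℝ (fun p => fderiv ℝ F p (Γ p x y)) u w
      = sec F u w (Γ u x y) + fderiv ℝ F u (fderiv ℝ (fun p => Γ p x y) u w) := by
  have h1 : HasFDerivAt (fderiv ℝ F) (fderiv ℝ (fderiv ℝ F) u) u :=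
    hasFDerivAt_of_contDiffOn hU (hF.fderiv_of_isOpen hU (m := ∞) (by simp)) hu
  have h2 := hasFDerivAt_of_contDiffOn hU (hΓ.smooth x y) hu
  have h3 := (h1.clm_apply h2).fderiv
  have h4 := (h1.clm_apply (hasFDerivAt_const (Γ u x y) u)).fderiv
  unfold sec
  rw [h3, h4]
  simp
  abel

/-- **The Gauss equation** in the flat space `(V, B)`. -/
theorem gauss (hB : ∀ v w, B v w = B w v) (hU : IsOpen U) (hF : ContDiffOn ℝ ∞ F U)
    {Γ : E → E → E → E} (hΓ : IsLeviCivita U (ind B F) Γ) {u : E} (hu : u ∈ U)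
    (x y z w : E) :
    B (fderiv ℝ F u (curvature Γ u x y z)) (fderiv ℝ F u w)
      = B (nu F Γ u y z) (nu F Γ u x w) - B (nu F Γ u x z) (nu F Γ u y w) := by
  have hsmooth : ∀ x y, ContDiffOn ℝ ∞ (fun p => nu F Γ p x y) U := fun x y =>
    (contDiffOn_sec hU hF x y).sub (contDiffOn_nu_term hU hF hΓ x y)
  -- derivative of the orthogonality relation
  have key : ∀ x y z w, B (fderiv ℝ (fun p => nu F Γ p y z) u x) (fderiv ℝ F u w)
      = - B (nu F Γ u y z) (nu F Γ u x w) := by
    intro x y z w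
    have h1 := hasFDerivAt_of_contDiffOn hU (hsmooth y z) hu
    have h2 := hasFDerivAt_of_contDiffOn hU (contDiffOn_dF hU hF w) hu
    have h3 := (B.hasFDerivAt_of_bilinear h1 h2).fderiv
    have h4 : (fun p => B (nu F Γ p y z) (fderiv ℝ F p w)) =ᶠ[nhds u] fun _ => 0 := by
      filter_upwards [hU.mem_nhds hu] with p hp
      exact nu_perp hB hU hF hΓ hp y z w
    have h5 := h4.fderiv_eq (𝕜 := ℝ)
    rw [h3] at h5
    have h6 := congrArg (fun L : E →L[ℝ] ℝ => L x) h5
    simp at h6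
    have h7 : B (nu F Γ u y z) (fderiv ℝ (fun p => fderiv ℝ F p w) u x)
        = B (nu F Γ u y z) (nu F Γ u x w) := by
      have : fderiv ℝ (fun p => fderiv ℝ F p w) u x
          = nu F Γ u x w + fderiv ℝ F u (Γ u x w) := by
        unfold nu sec
        abel
      rw [this, map_add, nu_perp hB hU hF hΓ hu]
      ring
    linarith
  have hD : ∀ x y z, fderiv ℝ (fun p => nu F Γ p y z) u x
      = fderiv ℝ (fun p => sec F p y z) u x - sec F u x (Γ u y z)
        - fderiv ℝ F u (fderiv ℝ (fun p => Γ p y z) u x) := by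
    intro x y z
    have h1 := hasFDerivAt_of_contDiffOn hU (contDiffOn_sec hU hF y z) hu
    have h2 := hasFDerivAt_of_contDiffOn hU (contDiffOn_nu_term hU hF hΓ y z) hu
    have h3 := (h1.sub h2).fderiv
    have h4 : (fun p => nu F Γ p y z)
        = (fun p => sec F p y z) - (fun p => fderiv ℝ F p (Γ p y z)) := by
      funext p
      rfl
    rw [h4, h3]
    simp only [sub_apply]
    rw [fderiv_nu_term hU hF hΓ hu]
    abel
  have hsym3 : fderiv ℝ (fun p => sec F p y z) u x = fderiv ℝ (fun p => sec F p x z) u y := by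
    exact sec_symm hU (contDiffOn_dF hU hF z) hu x y
  have hsec : ∀ a b, B (sec F u a b) (fderiv ℝ F u w)
      = B (fderiv ℝ F u (Γ u a b)) (fderiv ℝ F u w) := by
    intro a b
    have h := nu_perp hB hU hF hΓ hu a b w
    unfold nu at h
    rw [map_sub, sub_apply] at h
    linarith
  have k1 := key x y z w
  have k2 := key y x z w
  rw [hD] at k1 k2
  simp only [map_sub, sub_apply] at k1 k2
  rw [hsec] at k1 k2
  rw [hsym3] at k1
  unfold curvature
  simp only [map_sub, map_add, sub_apply, add_apply]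
  linarith

end Q186.SM
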