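import Mathlib
import Pool.Agent.Q186.SM.Gauss

/-! Tangential coordinates along an immersion into a Euclidean space. -/

open Set
open scoped ContDiff

namespace Q186.SM

variable {E V : Type*} [NormedAddCommGroup E] [InnerProductSpace ℝ E] [FiniteDimensional ℝ E]
  [NormedAddCommGroup V] [InnerProductSpace ℝ V]

/-- Gram operator of a linear map. -/
noncomputable def gram (L : E →L[ℝ] V) : E →L[ℝ] E :=
  ∑ i, (((innerSL ℝ (L (stdOrthonormalBasis ℝ E i))).comp L).smulRight
    (stdOrthonormalBasis ℝ E i))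

theorem gram_apply (L : E →L[ℝ] V) (y : E) :
    gram L y = ∑ i, inner ℝ (L (stdOrthonormalBasis ℝ E i)) (L y) • stdOrthonormalBasis ℝ E i := by
  simp [gram]

/-- transpose -/
noncomputable def trp (L : E →L[ℝ] V) (w : V) : E :=
  ∑ i, inner ℝ (L (stdOrthonormalBasis ℝ E i)) w • stdOrthonormalBasis ℝ E i

theorem trp_inner (L : E →L[ℝ] V) (w : V) (y : E) :
    inner ℝ (trp L w) y = inner ℝ w (L y) := by
  unfold trp
  have hy : L y = ∑ i, inner ℝ (stdOrthonormalBasis ℝ E i) y • L (stdOrthonormalBasis ℝ E i) := by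
    conv_lhs => rw [← (stdOrthonormalBasis ℝ E).sum_repr' y]
    simp
  rw [hy, sum_inner, inner_sum]
  refine Finset.sum_congr rfl fun i _ => ?_
  rw [inner_smul_left, inner_smul_right, real_inner_comm w]
  simp
  ring

theorem gram_inner (L : E →L[ℝ] V) (x y : E) :
    inner ℝ (gram L x) y = inner ℝ (L x) (L y) := by
  rw [gram_apply]
  exact trp_inner L (L x) y

/-- The tangential coordinate vector: `⟨L (pinv L w), L y⟩ = ⟨w, L y⟩`. -/
noncomputable def pinv (L : E →L[ℝ] V) (w : V) : E := (gram L).inverse (trp L w)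

theorem gram_injective {L : E →L[ℝ] V} (hL : Function.Injective L) :
    Function.Injective (gram L) := by
  rw [injective_iff_map_eq_zero]
  intro x hx
  have h := gram_inner L x x
  rw [hx, inner_zero_left] at h
  have h2 : L x = 0 := inner_self_eq_zero.mp h.symm
  exact hL (by rw [h2, map_zero])

/-- the Gram operator as an equivalence -/
noncomputable def gramEquiv {L : E →L[ℝ] V} (hL : Function.Injective L) : E ≃L[ℝ] E :=
  (LinearEquiv.ofInjectiveEndo (gram L : E →ₗ[ℝ] E) (gram_injective hL)).toContinuousLinearEquiv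

theorem gramEquiv_coe {L : E →L[ℝ] V} (hL : Function.Injective L) :
    ((gramEquiv hL : E ≃L[ℝ] E) : E →L[ℝ] E) = gram L := by
  ext x
  simp [gramEquiv]

theorem pinv_spec {L : E →L[ℝ] V} (hL : Function.Injective L) (w : V) (y : E) :
    inner ℝ (L (pinv L w)) (L y) = inner ℝ w (L y) := by
  rw [← gram_inner, ← trp_inner]
  congr 1
  unfold pinv
  rw [← gramEquiv_coe hL, ContinuousLinearMap.inverse_equiv]
  simp

theorem pinv_unique {L : E →L[ℝ] V} (hL : Function.Injective L) {w : V} {z : E}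
    (h : ∀ y, inner ℝ (L z) (L y) = inner ℝ w (L y)) : z = pinv L w := by
  apply hL
  rw [← sub_eq_zero, ← inner_self_eq_zero (𝕜 := ℝ)]
  have h2 : L z - L (pinv L w) = L (z - pinv L w) := by rw [map_sub]
  rw [h2]
  nth_rewrite 1 [← h2]
  rw [inner_sub_left, h, pinv_spec hL]
  ring

variable {U : Set E} {F : E → V}

theorem contDiffOn_gram (hU : IsOpen U) (hF : ContDiffOn ℝ ∞ F U) :
    ContDiffOn ℝ ∞ (fun u => gram (fderiv ℝ F u)) U := by
  rw [contDiffOn_clm_apply]
  intro y
  simp only [gram_apply]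
  refine ContDiffOn.sum fun i _ => ?_
  exact ((contDiffOn_dF hU hF _).inner ℝ (contDiffOn_dF hU hF y)).smul contDiffOn_const

theorem contDiffOn_trp (hU : IsOpen U) (hF : ContDiffOn ℝ ∞ F U) {w : E → V}
    (hw : ContDiffOn ℝ ∞ w U) : ContDiffOn ℝ ∞ (fun u => trp (fderiv ℝ F u) (w u)) U := by
  unfold trp
  refine ContDiffOn.sum fun i _ => ?_
  exact ((contDiffOn_dF hU hF _).inner ℝ hw).smul contDiffOn_const

theorem contDiffOn_pinv (hU : IsOpen U) (hF : ContDiffOn ℝ ∞ F U)
    (himm : ∀ u ∈ U, Function.Injective (fderiv ℝ F u)) {w : E → V}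
    (hw : ContDiffOn ℝ ∞ w U) : ContDiffOn ℝ ∞ (fun u => pinv (fderiv ℝ F u) (w u)) U := by
  have h1 : ContDiffOn ℝ ∞ (fun u => (gram (fderiv ℝ F u)).inverse) U := by
    intro u hu
    have h2 := (contDiffOn_gram hU hF) u hu
    have h3 : ContDiffAt ℝ ∞ ContinuousLinearMap.inverse (gram (fderiv ℝ F u)) := by
      have := contDiffAt_map_inverse (𝕜 := ℝ) (n := ∞) (gramEquiv (himm u hu))
      rwa [gramEquiv_coe] at this
    exact h3.comp_contDiffWithinAt u h2
  exact h1.clm_apply (contDiffOn_trp hU hF hw)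

/-- The Levi-Civita connection of an immersion. -/
noncomputable def Gam (F : E → V) (u x y : E) : E := pinv (fderiv ℝ F u) (sec F u x y)

theorem inner_sec_symm (hU : IsOpen U) (hF : ContDiffOn ℝ ∞ F U) {u : E} (hu : u ∈ U) (x y : E) :
    Gam F u x y = Gam F u y x := by
  unfold Gam
  rw [sec_symm hU hF hu]

theorem sec_add (hU : IsOpen U) (hF : ContDiffOn ℝ ∞ F U) {u : E} (hu : u ∈ U) (x y z : E) :
    sec F u x (y + z) = sec F u x y + sec F u x z := by
  rw [sec_symm hU hF hu, sec_symm hU hF hu x y, sec_symm hU hF hu x z]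
  unfold sec
  rw [map_add]

theorem sec_smul (hU : IsOpen U) (hF : ContDiffOn ℝ ∞ F U) {u : E} (hu : u ∈ U) (t : ℝ)
    (x y : E) : sec F u x (t • y) = t • sec F u x y := by
  rw [sec_symm hU hF hu, sec_symm hU hF hu x y]
  unfold sec
  rw [map_smul]

theorem Gam_lc (hU : IsOpen U) (hF : ContDiffOn ℝ ∞ F U)
    (himm : ∀ u ∈ U, Function.Injective (fderiv ℝ F u)) :
    IsLeviCivita U (ind (innerSL ℝ) F) (Gam F) := by
  constructor
  · intro u hu x y z
    symm
    apply pinv_unique (himm u hu)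
    intro w
    rw [map_add, inner_add_left, Gam, Gam, pinv_spec (himm u hu), pinv_spec (himm u hu),
      sec_add hU hF hu, inner_add_left]
  · intro u hu t x y
    symm
    apply pinv_unique (himm u hu)
    intro w
    rw [map_smul, inner_smul_left, Gam, pinv_spec (himm u hu), sec_smul hU hF hu,
      inner_smul_left]
  · exact fun u hu x y => inner_sec_symm hU hF hu x y
  · exact fun y z => contDiffOn_pinv hU hF himm (contDiffOn_sec hU hF y z)
  · intro u hu x y z
    rw [fderiv_ind (innerSL ℝ) hU hF hu]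
    simp only [ind]
    have h1 : innerSL ℝ (fderiv ℝ F u (Gam F u x y)) (fderiv ℝ F u z)
        = innerSL ℝ (sec F u x y) (fderiv ℝ F u z) := pinv_spec (himm u hu) _ _
    have h2 : innerSL ℝ (fderiv ℝ F u y) (fderiv ℝ F u (Gam F u x z))
        = innerSL ℝ (fderiv ℝ F u y) (sec F u x z) := by
      have := pinv_spec (himm u hu) (sec F u x z) y
      rw [real_inner_comm, real_inner_comm _ (sec F u x z)] at this
      exact this
    rw [h1, h2]

end Q186.SM
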