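import Mathlib
import Pool.Agent.Q186.SM.Pinv

/-! Conformal change of an induced metric. -/

open Set
open scoped ContDiff

namespace Q186.SM

variable {E V : Type*} [NormedAddCommGroup E] [NormedSpace ℝ E]
  [NormedAddCommGroup V] [InnerProductSpace ℝ V]

/-- induced metric -/
noncomputable def gi (F : E → V) (u x y : E) : ℝ := inner ℝ (fderiv ℝ F u x) (fderiv ℝ F u y)

theorem gi_eq (F : E → V) : gi F = ind (innerSL ℝ) F := rfl

theorem gi_symm (F : E → V) (u x y : E) : gi F u x y = gi F u y x := real_inner_comm _ _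

theorem gi_add_left (F : E → V) (u x y z : E) : gi F u (x + y) z = gi F u x z + gi F u y z := by
  simp [gi, inner_add_left]

theorem gi_sub_left (F : E → V) (u x y z : E) : gi F u (x - y) z = gi F u x z - gi F u y z := by
  simp [gi, inner_sub_left]

theorem gi_smul_left (F : E → V) (u : E) (t : ℝ) (x z : E) :
    gi F u (t • x) z = t * gi F u x z := by
  simp [gi, inner_smul_left]

theorem gi_add_right (F : E → V) (u x y z : E) : gi F u z (x + y) = gi F u z x + gi F u z y := by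
  simp [gi, inner_add_right]

theorem gi_sub_right (F : E → V) (u x y z : E) : gi F u z (x - y) = gi F u z x - gi F u z y := by
  simp [gi, inner_sub_right]

theorem gi_smul_right (F : E → V) (u : E) (t : ℝ) (x z : E) :
    gi F u z (t • x) = t * gi F u z x := by
  simp [gi, inner_smul_right]

/-- The Christoffel map of `e^{2ψ} g`, `S` the gradient of `ψ`. -/
noncomputable def cG (F : E → V) (Γ : E → E → E → E) (ψ : E → ℝ) (S : E → E) (u x y : E) : E :=
  Γ u x y + fderiv ℝ ψ u x • y + fderiv ℝ ψ u y • x - gi F u x y • S u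

variable {U : Set E} {F : E → V} {Γ : E → E → E → E} {ψ : E → ℝ} {S : E → E}

theorem contDiffOn_gi (hU : IsOpen U) (hF : ContDiffOn ℝ ∞ F U) (x y : E) :
    ContDiffOn ℝ ∞ (fun u => gi F u x y) U :=
  (contDiffOn_dF hU hF x).inner ℝ (contDiffOn_dF hU hF y)

theorem cG_lc (hU : IsOpen U) (hF : ContDiffOn ℝ ∞ F U) (hΓ : IsLeviCivita U (gi F) Γ)
    (hψ : ContDiffOn ℝ ∞ ψ U) (hS : ContDiffOn ℝ ∞ S U)
    (hgr : ∀ u ∈ U, ∀ y, gi F u (S u) y = fderiv ℝ ψ u y) :
    IsLeviCivita U (fun u x y => Real.exp (2 * ψ u) * gi F u x y) (cG F Γ ψ S) := by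
  constructor
  · intro u hu x y z
    simp only [cG, hΓ.add u hu, map_add, gi_add_right, smul_add, add_smul]
    abel
  · intro u hu t x y
    simp only [cG, hΓ.smul u hu, map_smul, gi_smul_right, smul_add, smul_sub, smul_eq_mul,
      mul_smul]
    rw [smul_comm t (fderiv ℝ ψ u x) y]
  · intro u hu x y
    simp only [cG]
    rw [hΓ.symm u hu, gi_symm]
    abel
  · intro y z
    have h1 := hΓ.smooth y z
    have h2 := contDiffOn_dF hU hψ y
    have h3 := contDiffOn_dF hU hψ z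
    have h4 := contDiffOn_gi hU hF y z
    exact ((h1.add (h2.smul contDiffOn_const)).add (h3.smul contDiffOn_const)).sub (h4.smul hS)
  · intro u hu x y z
    have h1 := hasFDerivAt_of_contDiffOn hU hψ hu
    have h2 := hasFDerivAt_of_contDiffOn hU (contDiffOn_gi hU hF y z) hu
    have h3 := ((h1.const_mul 2).exp.mul h2).fderiv
    have h4 : fderiv ℝ (fun p => Real.exp (2 * ψ p) * gi F p y z) u
        = Real.exp (2 * ψ u) • fderiv ℝ (fun u => gi F u y z) u
          + gi F u y z • Real.exp (2 * ψ u) • (2:ℝ) • fderiv ℝ ψ u := h3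
    have h5 := hΓ.metric u hu x y z
    rw [h4]
    simp only [add_apply, smul_apply, smul_eq_mul]
    rw [h5]
    simp only [cG, gi_add_left, gi_add_right, gi_sub_left, gi_sub_right, gi_smul_left,
      gi_smul_right]
    rw [gi_symm F u y (S u), hgr u hu, hgr u hu, gi_symm F u y x]
    ring

theorem fderiv_cG (hU : IsOpen U) (hF : ContDiffOn ℝ ∞ F U) (hΓ : IsLeviCivita U (gi F) Γ)
    (hψ : ContDiffOn ℝ ∞ ψ U) (hS : ContDiffOn ℝ ∞ S U) {u : E} (hu : u ∈ U) (w x y : E) :
    fderiv ℝ (fun p => cG F Γ ψ S p x y) u w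
      = fderiv ℝ (fun p => Γ p x y) u w + sec ψ u w x • y + sec ψ u w y • x
        - (fderiv ℝ (fun p => gi F p x y) u w • S u + gi F u x y • fderiv ℝ S u w) := by
  have h1 := hasFDerivAt_of_contDiffOn hU (hΓ.smooth x y) hu
  have h2 := hasFDerivAt_of_contDiffOn hU (contDiffOn_dF hU hψ x) hu
  have h3 := hasFDerivAt_of_contDiffOn hU (contDiffOn_dF hU hψ y) hu
  have h4 := hasFDerivAt_of_contDiffOn hU (contDiffOn_gi hU hF x y) hu
  have h5 := hasFDerivAt_of_contDiffOn hU hS hu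
  have h6 := (((h1.add (h2.smul_const y)).add (h3.smul_const x)).sub (h4.smul h5)).fderiv
  have h7 : fderiv ℝ (fun p => cG F Γ ψ S p x y) u = _ := h6
  rw [h7]
  simp [sec]
  abel

/-- derivative of `g(S, x) = dψ(x)` -/
theorem hess_eq (hU : IsOpen U) (hF : ContDiffOn ℝ ∞ F U) (hΓ : IsLeviCivita U (gi F) Γ)
    (hS : ContDiffOn ℝ ∞ S U)
    (hgr : ∀ u ∈ U, ∀ y, gi F u (S u) y = fderiv ℝ ψ u y) {u : E} (hu : u ∈ U) (x : E) :
    gi F u (fderiv ℝ S u x) x + gi F u (Γ u x (S u)) x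
      = sec ψ u x x - fderiv ℝ ψ u (Γ u x x) := by
  have h1 : HasFDerivAt (fderiv ℝ F) (fderiv ℝ (fderiv ℝ F) u) u :=
    hasFDerivAt_of_contDiffOn hU (hF.fderiv_of_isOpen hU (m := ∞) (by simp)) hu
  have h2 := hasFDerivAt_of_contDiffOn hU hS hu
  have h3 := h1.clm_apply h2
  have h4 := hasFDerivAt_of_contDiffOn hU (contDiffOn_dF hU hF x) hu
  have h5 := (h3.inner ℝ h4).fderiv
  have h6 : (fun p => gi F p (S p) x) =ᶠ[nhds u] fun p => fderiv ℝ ψ p x := by
    filter_upwards [hU.mem_nhds hu] with p hp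
    exact hgr p hp x
  have h7 := h6.fderiv_eq (𝕜 := ℝ)
  have h8 : fderiv ℝ (fun p => gi F p (S p) x) u = _ := h5
  rw [h8] at h7
  have h9 := congrArg (fun L : _ →L[ℝ] ℝ => L x) h7
  have h10 := (h1.clm_apply (hasFDerivAt_const (S u) u)).fderiv
  have h11 : sec F u x (S u) = fderiv ℝ (fderiv ℝ F) u x (S u) := by
    unfold sec
    rw [h10]
    simp
  have hB : ∀ v w : V, innerSL ℝ v w = innerSL ℝ w v := fun v w => real_inner_comm _ _
  have hp1 := nu_perp hB hU hF hΓ hu x (S u) x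
  have hp2 := nu_perp hB hU hF hΓ hu x x (S u)
  change inner ℝ (sec F u x (S u) - fderiv ℝ F u (Γ u x (S u))) (fderiv ℝ F u x) = 0 at hp1
  change inner ℝ (sec F u x x - fderiv ℝ F u (Γ u x x)) (fderiv ℝ F u (S u)) = 0 at hp2
  rw [inner_sub_left] at hp1 hp2
  have h12 : fderiv ℝ (fun p => fderiv ℝ ψ p x) u x = sec ψ u x x := rfl
  have h13 : fderiv ℝ (fun p => fderiv ℝ F p x) u x = sec F u x x := rfl
  have h14 := hgr u hu (Γ u x x)
  simp [fderivInnerCLM_apply, h12, h13, ← h11, inner_add_left] at h9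
  rw [← h14]
  simp only [gi]
  rw [real_inner_comm (fderiv ℝ F u (S u)) (sec F u x x),
    real_inner_comm (fderiv ℝ F u (S u)) (fderiv ℝ F u (Γ u x x))] at hp2
  linarith

/-- **Conformal change of curvature** for orthogonal vectors. -/
theorem curv_cG (hU : IsOpen U) (hF : ContDiffOn ℝ ∞ F U) (hΓ : IsLeviCivita U (gi F) Γ)
    (hψ : ContDiffOn ℝ ∞ ψ U) (hS : ContDiffOn ℝ ∞ S U)
    (hgr : ∀ u ∈ U, ∀ y, gi F u (S u) y = fderiv ℝ ψ u y) {u : E} (hu : u ∈ U) {x y : E}
    (hxy : gi F u x y = 0) :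
    gi F u (curvature (cG F Γ ψ S) u x y y) x
      = gi F u (curvature Γ u x y y) x
        - (sec ψ u x x - fderiv ℝ ψ u (Γ u x x)) * gi F u y y
        - (sec ψ u y y - fderiv ℝ ψ u (Γ u y y)) * gi F u x x
        + fderiv ℝ ψ u x ^ 2 * gi F u y y + fderiv ℝ ψ u y ^ 2 * gi F u x x
        - fderiv ℝ ψ u (S u) * gi F u x x * gi F u y y := by
  have hyx : gi F u y x = 0 := by rw [gi_symm, hxy]
  have hh := hess_eq hU hF hΓ hS hgr hu x
  have m1 := hΓ.metric u hu x y y
  have m2 := hΓ.metric u hu y x y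
  have Γadd : ∀ a b c, Γ u a (b + c) = Γ u a b + Γ u a c := hΓ.add u hu
  have Γsmul : ∀ (t : ℝ) a b, Γ u a (t • b) = t • Γ u a b := hΓ.smul u hu
  have Γsub : ∀ a b c, Γ u a (b - c) = Γ u a b - Γ u a c := by
    intro a b c
    have : b - c = b + (-1 : ℝ) • c := by simp [sub_eq_add_neg]
    rw [this, Γadd, Γsmul]
    simp [sub_eq_add_neg]
  have s1 : Γ u y x = Γ u x y := hΓ.symm u hu y x
  unfold curvature
  rw [fderiv_cG hU hF hΓ hψ hS hu, fderiv_cG hU hF hΓ hψ hS hu, m1, m2]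
  simp only [cG, Γadd, Γsub, Γsmul, map_add, map_sub, map_smul, gi_add_left, gi_add_right,
    gi_sub_left, gi_sub_right, gi_smul_left, gi_smul_right, smul_eq_mul, hgr u hu, hxy, hyx, s1]
  rw [gi_symm F u x (S u), gi_symm F u y (S u), hgr u hu, hgr u hu,
    gi_symm F u x (Γ u y y), gi_symm F u y (Γ u x y)]
  linear_combination (- gi F u y y) * hh

end Q186.SM
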