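import Mathlib
import Pool.Agent.Q186.SM.Conn

/-!
The complex two-plane Grassmannian `G_2(ℂ^{m+2}) = SU(m+2)/S(U(2)×U(m))` (`ε = 1`) and its
noncompact dual `SU(2,m)/S(U(2)×U(m))` (`ε = -1`), realised as the space of self-adjoint
projections onto (positive) complex 2-planes, and their real hypersurfaces.
-/

open Set Matrix
open scoped ContDiff

attribute [local instance] Matrix.linftyOpNormedRing Matrix.linftyOpNormedAlgebra

namespace Q186.SM

/-- Complex square matrices of size `2 + m`. -/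
abbrev Mat (m : ℕ) := Matrix (Fin 2 ⊕ Fin m) (Fin 2 ⊕ Fin m) ℂ

/-- The Gram matrix `diag(1, 1, ε, ..., ε)` of the Hermitian form
`h(x, y) = x̄₁ y₁ + x̄₂ y₂ + ε (x̄₃ y₃ + ...)` on `ℂ^{2+m}`. -/
def form (ε : ℝ) (m : ℕ) : Mat m := Matrix.fromBlocks 1 0 0 ((ε : ℂ) • 1)

/-- The adjoint of `X` with respect to the form `h`. -/
def adj (ε : ℝ) {m : ℕ} (X : Mat m) : Mat m := form ε m * Xᴴ * form ε m

/-- The space of complex 2-planes of `ℂ^{2+m}` on which `h` is positive definite, a plane being
given by the `h`-orthogonal projection `P` onto it. For `ε = 1` this is `G_2(ℂ^{m+2})`, for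
`ε = -1` it is `SU(2,m)/S(U(2)×U(m))`. -/
def Gr (ε : ℝ) (m : ℕ) : Set (Mat m) :=
  {P | P * P = P ∧ adj ε P = P ∧ P.rank = 2 ∧
    ∀ x, P *ᵥ x ≠ 0 → 0 < (star (P *ᵥ x) ⬝ᵥ (form ε m *ᵥ (P *ᵥ x))).re}

/-- The tangent space of `Gr ε m` at `P`. -/
def tangent (ε : ℝ) {m : ℕ} (P : Mat m) : Set (Mat m) := {X | adj ε X = X ∧ P * X + X * P = X}

/-- The invariant Riemannian metric (with scaling constant `c > 0`): `ε c Re tr (X Y)`. -/
def gm (ε c : ℝ) {m : ℕ} (X Y : Mat m) : ℝ := ε * c * (Matrix.trace (X * Y)).re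

/-- The projection of a matrix to the tangent space directions at `P`
(the component of `W` that exchanges the image and the kernel of `P`). The Levi-Civita covariant
derivative of `Gr ε m` is the tangential part of the derivative in the space of matrices. -/
def tang {m : ℕ} (P W : Mat m) : Mat m := P * W * (1 - P) + (1 - P) * W * P

/-- The complex structure: multiplication by `i` on `Hom(im P, ker P)`. -/
def cpx {m : ℕ} (P X : Mat m) : Mat m := Complex.I • (X * P - P * X)

/-- The unit elements of the quaternionic Kähler structure at `P` are the endomorphisms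
`X ↦ b X - X b` with `b ∈ su(im P)`, `b² = -P`. -/
def QUnit (ε : ℝ) {m : ℕ} (P b : Mat m) : Prop :=
  P * b = b ∧ b * P = b ∧ adj ε b = -b ∧ Matrix.trace b = 0 ∧ b * b = -P

/-- The almost complex structure defined by `b`. -/
def qc {m : ℕ} (b X : Mat m) : Mat m := b * X - X * b

/-- A local orthonormal frame `J₁, J₂, J₃` (`J₁ J₂ = J₃`) of the quaternionic structure at `P`. -/
def QFrame (ε : ℝ) {m : ℕ} (P : Mat m) (b : Fin 3 → Mat m) : Prop :=
  (∀ i, QUnit ε P (b i)) ∧ b 0 * b 1 = b 2 ∧ b 1 * b 0 = - b 2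

/-- The parameter space `ℝ^{4m-1}` of pieces of real hypersurfaces. -/
def Dom (m : ℕ) : Type := EuclideanSpace ℝ (Fin (4 * m - 1))

noncomputable instance (m : ℕ) : NormedAddCommGroup (Dom m) :=
  inferInstanceAs (NormedAddCommGroup (EuclideanSpace ℝ (Fin (4 * m - 1))))

noncomputable instance (m : ℕ) : NormedSpace ℝ (Dom m) :=
  inferInstanceAs (NormedSpace ℝ (EuclideanSpace ℝ (Fin (4 * m - 1))))

/-- The derivative at `u` of the matrix valued function `F` in the direction `x`. -/
noncomputable def dF {m : ℕ} (F : Dom m → Mat m) (u x : Dom m) : Mat m := fderiv ℝ F u x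

/-- `F` is a smooth immersion of the connected open set `U` into `Gr ε m`
(the induced metric is positive definite). -/
structure IsImmersion (ε c : ℝ) {m : ℕ} (U : Set (Dom m)) (F : Dom m → Mat m) : Prop where
  isOpen : IsOpen U
  isConnected : IsConnected U
  smooth : ContDiffOn ℝ ∞ F U
  mem : ∀ u ∈ U, F u ∈ Gr ε m
  pos : ∀ u ∈ U, ∀ x, x ≠ 0 → 0 < gm ε c (dF F u x) (dF F u x)

/-- `N` is a smooth unit normal field of the immersion `F`, which has codimension one. -/
structure IsUnitNormal (ε c : ℝ) {m : ℕ} (U : Set (Dom m)) (F N : Dom m → Mat m) : Prop where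
  smooth : ContDiffOn ℝ ∞ N U
  tan : ∀ u ∈ U, N u ∈ tangent ε (F u)
  unit : ∀ u ∈ U, gm ε c (N u) (N u) = 1
  normal : ∀ u ∈ U, ∀ x, gm ε c (dF F u x) (N u) = 0
  codim : ∀ u ∈ U, ∀ X ∈ tangent ε (F u), ∃ x, ∃ t : ℝ, X = dF F u x + t • N u

/-- A (piece of a) real hypersurface of `Gr ε m`, with metric scaling `c`: a smooth immersion `F`
of a connected open subset `U` of `ℝ^{4m-1}`, a smooth unit normal field `N`, the
Levi-Civita connection `Γ` of the induced metric and the shape operator `A` (`∇̄_x N = -A x`). -/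
structure RealHypersurface (ε c : ℝ) (m : ℕ) where
  U : Set (Dom m)
  F : Dom m → Mat m
  N : Dom m → Mat m
  Γ : Dom m → Dom m → Dom m → Dom m
  A : Dom m → Dom m → Dom m
  imm : IsImmersion ε c U F
  nor : IsUnitNormal ε c U F N
  leviCivita : IsLeviCivita U (fun u x y => gm ε c (dF F u x) (dF F u y)) Γ
  shape : ∀ u ∈ U, ∀ x, tang (F u) (dF N u x) = - dF F u (A u x)

end Q186.SM
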