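import Mathlib
import Pool.Agent.Q186.SM.GrDef

/-! Matrix algebra for the projection model of the Grassmannian and its dual. -/

open Set Matrix
open scoped ContDiff

attribute [local instance] Matrix.linftyOpNormedRing Matrix.linftyOpNormedAlgebra

namespace Q186.SM

variable {m : ℕ} {ε : ℝ}

theorem form_mul_form (hε : ε = 1 ∨ ε = -1) : form ε m * form ε m = 1 := by
  have h : ε * ε = 1 := by
    rcases hε with rfl | rfl <;> simp
  simp [form, Matrix.fromBlocks_multiply, smul_smul, h]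

theorem form_conjTranspose : (form ε m)ᴴ = form ε m := by
  simp [form, Matrix.fromBlocks_conjTranspose, Matrix.conjTranspose_smul]

theorem adj_mul (hε : ε = 1 ∨ ε = -1) (X Y : Mat m) : adj ε (X * Y) = adj ε Y * adj ε X := by
  unfold adj
  rw [Matrix.conjTranspose_mul]
  calc form ε m * (Yᴴ * Xᴴ) * form ε m
      = form ε m * Yᴴ * 1 * Xᴴ * form ε m := by simp [Matrix.mul_assoc]
    _ = _ := by rw [← form_mul_form (m := m) hε]; simp [Matrix.mul_assoc]

theorem adj_adj (hε : ε = 1 ∨ ε = -1) (X : Mat m) : adj ε (adj ε X) = X := by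
  unfold adj
  simp only [Matrix.conjTranspose_mul, form_conjTranspose, Matrix.conjTranspose_conjTranspose]
  calc form ε m * (form ε m * (X * form ε m)) * form ε m
      = (form ε m * form ε m) * X * (form ε m * form ε m) := by simp [Matrix.mul_assoc]
    _ = X := by rw [form_mul_form hε]; simp

theorem adj_add (X Y : Mat m) : adj ε (X + Y) = adj ε X + adj ε Y := by
  simp [adj, Matrix.mul_add, Matrix.add_mul]

theorem adj_neg (X : Mat m) : adj ε (-X) = - adj ε X := by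
  simp [adj]

theorem adj_sub (X Y : Mat m) : adj ε (X - Y) = adj ε X - adj ε Y := by
  simp [adj, Matrix.mul_sub, Matrix.sub_mul]

theorem adj_one (hε : ε = 1 ∨ ε = -1) : adj ε (1 : Mat m) = 1 := by
  simp [adj, form_mul_form hε]

theorem adj_smul (a : ℂ) (X : Mat m) : adj ε (a • X) = (star a) • adj ε X := by
  simp [adj, Matrix.conjTranspose_smul]

theorem adj_real_smul (a : ℝ) (X : Mat m) : adj ε (a • X) = a • adj ε X := by
  simp [adj, Matrix.conjTranspose_smul]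

/-- the Hermitian form -/
noncomputable def hh (ε : ℝ) {m : ℕ} (x y : Fin 2 ⊕ Fin m → ℂ) : ℂ := star x ⬝ᵥ (form ε m *ᵥ y)

/-- the rank one map `b ↦ h(f, b) a` -/
noncomputable def rk (ε : ℝ) {m : ℕ} (a f : Fin 2 ⊕ Fin m → ℂ) : Mat m :=
  Matrix.vecMulVec a (star f ᵥ* form ε m)

theorem hh_eq (x y : Fin 2 ⊕ Fin m → ℂ) : hh ε x y = (star x ᵥ* form ε m) ⬝ᵥ y := by
  unfold hh
  rw [Matrix.dotProduct_mulVec]

theorem rk_mulVec (a f b : Fin 2 ⊕ Fin m → ℂ) : rk ε a f *ᵥ b = hh ε f b • a := by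
  unfold rk
  rw [Matrix.vecMulVec_mulVec, hh_eq]
  ext i
  simp [mul_comm]

theorem mul_rk (X : Mat m) (a f : Fin 2 ⊕ Fin m → ℂ) : X * rk ε a f = rk ε (X *ᵥ a) f := by
  unfold rk
  rw [Matrix.mul_vecMulVec]

theorem adj_rk (hε : ε = 1 ∨ ε = -1) (a f : Fin 2 ⊕ Fin m → ℂ) :
    adj ε (rk ε a f) = rk ε f a := by
  unfold rk adj
  have h1 : (vecMulVec a (star f ᵥ* form ε m))ᴴ = vecMulVec (form ε m *ᵥ f) (star a) := by
    ext i j
    simp only [Matrix.conjTranspose_apply, Matrix.vecMulVec_apply, Pi.star_apply, star_mul']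
    have : star ((star f ᵥ* form ε m) i) = (form ε m *ᵥ f) i := by
      have h := Matrix.star_vecMul (form ε m) (star f)
      rw [form_conjTranspose, star_star] at h
      exact congrFun h i
    rw [this, mul_comm]
  rw [h1, Matrix.mul_vecMulVec, Matrix.mulVec_mulVec, form_mul_form hε, Matrix.one_mulVec,
    Matrix.vecMulVec_mul]

theorem rk_mul (hε : ε = 1 ∨ ε = -1) (X : Mat m) (a f : Fin 2 ⊕ Fin m → ℂ) :
    rk ε a f * X = rk ε a (adj ε X *ᵥ f) := by
  have h : adj ε (adj ε (rk ε a f * X)) = rk ε a (adj ε X *ᵥ f) := by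
    rw [adj_mul hε, adj_rk hε, mul_rk, adj_rk hε]
  rw [adj_adj hε] at h
  exact h

theorem trace_rk (a f : Fin 2 ⊕ Fin m → ℂ) : (rk ε a f).trace = hh ε f a := by
  unfold rk
  rw [Matrix.trace_vecMulVec, hh_eq, dotProduct_comm]

theorem rk_add_left (a b f : Fin 2 ⊕ Fin m → ℂ) : rk ε (a + b) f = rk ε a f + rk ε b f := by
  simp [rk, Matrix.add_vecMulVec]

theorem rk_add_right (a f g : Fin 2 ⊕ Fin m → ℂ) : rk ε a (f + g) = rk ε a f + rk ε a g := by
  simp [rk, Matrix.add_vecMul, Matrix.vecMulVec_add]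

theorem rk_smul_left (z : ℂ) (a f : Fin 2 ⊕ Fin m → ℂ) : rk ε (z • a) f = z • rk ε a f := by
  simp [rk, Matrix.smul_vecMulVec]

theorem rk_smul_right (z : ℂ) (a f : Fin 2 ⊕ Fin m → ℂ) :
    rk ε a (z • f) = star z • rk ε a f := by
  simp [rk, Matrix.smul_vecMul, Matrix.vecMulVec_smul]

theorem hh_add_left (a b f : Fin 2 ⊕ Fin m → ℂ) : hh ε (a + b) f = hh ε a f + hh ε b f := by
  simp [hh, add_dotProduct]

theorem hh_add_right (a b f : Fin 2 ⊕ Fin m → ℂ) : hh ε f (a + b) = hh ε f a + hh ε f b := by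
  simp [hh, Matrix.mulVec_add, dotProduct_add]

theorem hh_smul_right (z : ℂ) (a f : Fin 2 ⊕ Fin m → ℂ) : hh ε f (z • a) = z * hh ε f a := by
  simp [hh, Matrix.mulVec_smul]

theorem hh_smul_left (z : ℂ) (a f : Fin 2 ⊕ Fin m → ℂ) :
    hh ε (z • f) a = star z * hh ε f a := by
  simp [hh]

theorem hh_neg_left (a f : Fin 2 ⊕ Fin m → ℂ) : hh ε (-a) f = - hh ε a f := by
  simp [hh]

theorem hh_neg_right (a f : Fin 2 ⊕ Fin m → ℂ) : hh ε a (-f) = - hh ε a f := by
  simp [hh, Matrix.mulVec_neg]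

theorem hh_zero_right (a : Fin 2 ⊕ Fin m → ℂ) : hh ε a 0 = 0 := by
  simp [hh]

theorem hh_zero_left (a : Fin 2 ⊕ Fin m → ℂ) : hh ε 0 a = 0 := by
  simp [hh]

theorem trace_adj (hε : ε = 1 ∨ ε = -1) (X : Mat m) : (adj ε X).trace = star X.trace := by
  unfold adj
  rw [Matrix.trace_mul_comm, ← Matrix.mul_assoc, form_mul_form hε, Matrix.one_mul,
    Matrix.trace_conjTranspose]

theorem hh_star (hε : ε = 1 ∨ ε = -1) (a b : Fin 2 ⊕ Fin m → ℂ) :
    star (hh ε a b) = hh ε b a := by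
  rw [← trace_rk, ← trace_rk, ← trace_adj hε, adj_rk hε]

theorem hh_mulVec_left (hε : ε = 1 ∨ ε = -1) (X : Mat m) (a b : Fin 2 ⊕ Fin m → ℂ) :
    hh ε (X *ᵥ a) b = hh ε a (adj ε X *ᵥ b) := by
  rw [← trace_rk (ε := ε) b, ← trace_rk (ε := ε) _ a]
  rw [← mul_rk, Matrix.trace_mul_comm, rk_mul hε, adj_adj hε]

end Q186.SM
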