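import Mathlib
import Pool.Agent.Q186.SM.GrAlg

/-! Definiteness and dimension counts on the Grassmannian model. -/

open Set Matrix Module
open scoped ContDiff

attribute [local instance] Matrix.linftyOpNormedRing Matrix.linftyOpNormedAlgebra

namespace Q186.SM

variable {m : ℕ} {ε : ℝ}

theorem rk_zero_left (f : Fin 2 ⊕ Fin m → ℂ) : rk ε 0 f = 0 := by
  have h := rk_smul_left (ε := ε) 0 (0 : Fin 2 ⊕ Fin m → ℂ) f
  simpa using h

theorem rk_zero_right (f : Fin 2 ⊕ Fin m → ℂ) : rk ε f 0 = 0 := by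
  have h := rk_smul_right (ε := ε) 0 f (0 : Fin 2 ⊕ Fin m → ℂ)
  simpa using h

theorem hh_self (x : Fin 2 ⊕ Fin m → ℂ) :
    hh ε x x = (((∑ i, ‖x (Sum.inl i)‖ ^ 2) + ε * ∑ j, ‖x (Sum.inr j)‖ ^ 2 : ℝ) : ℂ) := by
  have key : ∀ z : ℂ, star z * z = ((‖z‖ ^ 2 : ℝ) : ℂ) := by
    intro z
    rw [Complex.star_def, Complex.conj_mul']
    push_cast
    rfl
  unfold hh form
  simp only [dotProduct, Matrix.mulVec, Fintype.sum_sum_type, Matrix.fromBlocks_apply₁₁,
    Matrix.fromBlocks_apply₁₂, Matrix.fromBlocks_apply₂₁, Matrix.fromBlocks_apply₂₂,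
    Matrix.zero_apply, zero_mul, Finset.sum_const_zero, add_zero, zero_add, Pi.star_apply,
    Matrix.smul_apply, Matrix.one_apply, smul_eq_mul, mul_ite, mul_one, mul_zero, ite_mul,
    one_mul, Finset.sum_ite_eq, Finset.mem_univ, if_true]
  push_cast
  rw [Finset.mul_sum]
  congr 1
  · refine Finset.sum_congr rfl fun i _ => ?_
    rw [key]
    push_cast
    rfl
  · refine Finset.sum_congr rfl fun i _ => ?_
    have := key (x (Sum.inr i))
    push_cast at this
    rw [← this]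
    ring

theorem hh_self_re (x : Fin 2 ⊕ Fin m → ℂ) :
    (hh ε x x).re = (∑ i, ‖x (Sum.inl i)‖ ^ 2) + ε * ∑ j, ‖x (Sum.inr j)‖ ^ 2 := by
  rw [hh_self, Complex.ofReal_re]

theorem hh_self_im (x : Fin 2 ⊕ Fin m → ℂ) : (hh ε x x).im = 0 := by
  rw [hh_self, Complex.ofReal_im]

theorem im_pos {P : Mat m} (hP : P ∈ Gr ε m) {a : Fin 2 ⊕ Fin m → ℂ} (ha : P *ᵥ a = a)
    (hne : a ≠ 0) : 0 < (hh ε a a).re := by
  have h := hP.2.2.2 a (by rw [ha]; exact hne)
  rw [ha] at h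
  exact h

theorem ker_pos (hε : ε = 1 ∨ ε = -1) {P : Mat m} (hP : P ∈ Gr ε m) {e : Fin 2 ⊕ Fin m → ℂ}
    (he : P *ᵥ e = 0) (hne : e ≠ 0) : 0 < ε * (hh ε e e).re := by
  rcases hε with rfl | rfl
  · rw [hh_self_re, one_mul, one_mul]
    obtain ⟨i, hi⟩ := Function.ne_iff.mp hne
    have h1 : 0 < ‖e i‖ ^ 2 := by positivity
    rcases i with i | j
    · have := Finset.single_le_sum (f := fun i => ‖e (Sum.inl i)‖ ^ 2)
        (fun i _ => by positivity) (Finset.mem_univ i)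
      have h2 : 0 ≤ ∑ j, ‖e (Sum.inr j)‖ ^ 2 := Finset.sum_nonneg fun j _ => by positivity
      linarith
    · have := Finset.single_le_sum (f := fun i => ‖e (Sum.inr i)‖ ^ 2)
        (fun i _ => by positivity) (Finset.mem_univ j)
      have h2 : 0 ≤ ∑ j, ‖e (Sum.inl j)‖ ^ 2 := Finset.sum_nonneg fun j _ => by positivity
      linarith
  · by_contra hcon
    have hcon' : 0 ≤ (hh (-1) e e).re := by linarith
    -- the linear map to the positive coordinates
    set S := LinearMap.range (Matrix.mulVecLin P) with hS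
    have hfr : finrank ℂ S = 2 := hP.2.2.1
    let L : (S × ℂ) →ₗ[ℂ] (Fin 2 → ℂ) :=
      (LinearMap.funLeft ℂ ℂ (Sum.inl : Fin 2 → Fin 2 ⊕ Fin m)) ∘ₗ
        (S.subtype.coprod (LinearMap.toSpanSingleton ℂ _ e))
    have hlt : finrank ℂ (Fin 2 → ℂ) < finrank ℂ (S × ℂ) := by
      rw [Module.finrank_prod, hfr]
      simp
    obtain ⟨⟨a, z⟩, hker, hne2⟩ := (Submodule.ne_bot_iff _).mp
      (LinearMap.ker_ne_bot_of_finrank_lt (f := L) hlt)
    have hL : ∀ i : Fin 2, ((a : Fin 2 ⊕ Fin m → ℂ) + z • e) (Sum.inl i) = 0 := by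
      intro i
      have := congrFun (LinearMap.mem_ker.mp hker) i
      simpa [L, LinearMap.funLeft] using this
    set w : Fin 2 ⊕ Fin m → ℂ := (a : Fin 2 ⊕ Fin m → ℂ) + z • e with hw
    have hPa : P *ᵥ (a : Fin 2 ⊕ Fin m → ℂ) = a := by
      obtain ⟨b, hb⟩ := a.2
      rw [← hb, Matrix.mulVecLin_apply, Matrix.mulVec_mulVec, hP.1]
    have hae : hh (-1) (a : Fin 2 ⊕ Fin m → ℂ) e = 0 := by
      rw [← hPa, hh_mulVec_left (Or.inr rfl), hP.2.1, he, hh_zero_right]
    have hea : hh (-1) e (a : Fin 2 ⊕ Fin m → ℂ) = 0 := by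
      rw [← hh_star (Or.inr rfl), hae]
      simp
    have hww : (hh (-1) w w).re = (hh (-1) (a : Fin 2 ⊕ Fin m → ℂ) a).re
        + ‖z‖ ^ 2 * (hh (-1) e e).re := by
      rw [hw]
      simp only [hh_add_left, hh_add_right, hh_smul_left, hh_smul_right, hae, hea, mul_zero,
        add_zero, zero_add]
      rw [Complex.add_re, ← mul_assoc]
      congr 1
      have : star z * z = ((‖z‖ ^ 2 : ℝ) : ℂ) := by
        rw [Complex.star_def, Complex.conj_mul']
        push_cast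
        rfl
      rw [mul_comm z (star z), this, Complex.re_ofReal_mul]
    have hww2 := hh_self_re (ε := -1) w
    have h0 : ∑ i : Fin 2, ‖w (Sum.inl i)‖ ^ 2 = 0 := by
      refine Finset.sum_eq_zero fun i _ => ?_
      rw [hL i]
      simp
    rw [h0, zero_add] at hww2
    have hs : 0 ≤ ∑ j, ‖w (Sum.inr j)‖ ^ 2 := Finset.sum_nonneg fun j _ => by positivity
    have hz : 0 ≤ ‖z‖ ^ 2 * (hh (-1) e e).re := mul_nonneg (by positivity) hcon'
    have ha0 : (a : Fin 2 ⊕ Fin m → ℂ) = 0 := by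
      by_contra hane
      have := im_pos hP hPa hane
      linarith
    have hs0 : ∑ j, ‖w (Sum.inr j)‖ ^ 2 = 0 := by
      rw [ha0, hh_zero_left] at hww
      simp at hww
      nlinarith
    have hw0 : w = 0 := by
      funext i
      rcases i with i | j
      · exact hL i
      · have := (Finset.sum_eq_zero_iff_of_nonneg (fun j _ => by positivity)).mp hs0 j
          (Finset.mem_univ j)
        simpa using this
    rw [hw, ha0, zero_add] at hw0
    have hz0 : z = 0 := by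
      rcases smul_eq_zero.mp hw0 with h | h
      · exact h
      · exact absurd h hne
    apply hne2
    ext1
    · exact Subtype.ext ha0
    · exact hz0

/-- the combination of rank one tangent vectors -/
noncomputable def Phi (ε : ℝ) {m : ℕ} (u e : Fin 2 ⊕ Fin m → ℂ) :
    ((Fin 2 ⊕ Fin m → ℂ) × (Fin 2 ⊕ Fin m → ℂ)) →ₗ[ℝ] Mat m where
  toFun p := rk ε p.1 u + rk ε u p.1 + rk ε p.2 e + rk ε e p.2
  map_add' p q := by
    simp only [Prod.fst_add, Prod.snd_add, rk_add_left, rk_add_right]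
    abel
  map_smul' r p := by
    simp only [Prod.smul_fst, Prod.smul_snd, RingHom.id_apply, smul_add]
    have h : ∀ x : Fin 2 ⊕ Fin m → ℂ, r • x = (r : ℂ) • x := fun x => by
      ext i
      simp
    have h' : ∀ x : Mat m, r • x = (r : ℂ) • x := fun x => by
      ext i j
      simp
    rw [h, h, h', h', h', h', rk_smul_left, rk_smul_left, rk_smul_right, rk_smul_right]
    simp

theorem Phi_apply (u e a a' : Fin 2 ⊕ Fin m → ℂ) :
    Phi ε u e (a, a') = rk ε a u + rk ε u a + rk ε a' e + rk ε e a' := rfl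

/-- real part of the trace against `W` -/
noncomputable def reTr {m : ℕ} (W : Mat m) : Mat m →ₗ[ℝ] ℝ where
  toFun X := (Matrix.trace (X * W)).re
  map_add' X Y := by simp [Matrix.add_mul]
  map_smul' r X := by simp

theorem exists_pair {P : Mat m} (hP : P ∈ Gr ε m) (W : Fin 3 → Mat m)
    (u e : Fin 2 ⊕ Fin m → ℂ) (D : Mat m →ₗ[ℝ] Mat m) :
    ∃ a a' : Fin 2 ⊕ Fin m → ℂ, P *ᵥ a = a ∧ P *ᵥ a' = a' ∧ (a ≠ 0 ∨ a' ≠ 0) ∧
      (∀ i, (Matrix.trace (Phi ε u e (a, a') * W i)).re = 0) ∧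
      (∀ i, (Matrix.trace (D (Phi ε u e (a, a')) * W i)).re = 0) := by
  set S := LinearMap.range (Matrix.mulVecLin P) with hS
  have hfr : finrank ℂ S = 2 := hP.2.2.1
  have hfr2 : finrank ℝ S = 4 := by
    rw [finrank_real_of_complex, hfr]
  let ι : (S × S) →ₗ[ℝ] ((Fin 2 ⊕ Fin m → ℂ) × (Fin 2 ⊕ Fin m → ℂ)) :=
    (S.subtype.restrictScalars ℝ).prodMap (S.subtype.restrictScalars ℝ)
  let L : (S × S) →ₗ[ℝ] ((Fin 3 → ℝ) × (Fin 3 → ℝ)) :=
    ((LinearMap.pi fun i => reTr (W i)).prod ((LinearMap.pi fun i => reTr (W i)) ∘ₗ D)) ∘ₗ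
      (Phi ε u e) ∘ₗ ι
  have hlt : finrank ℝ ((Fin 3 → ℝ) × (Fin 3 → ℝ)) < finrank ℝ (S × S) := by
    rw [Module.finrank_prod, Module.finrank_prod, hfr2]
    simp
  obtain ⟨⟨a, a'⟩, hker, hne⟩ := (Submodule.ne_bot_iff _).mp
    (LinearMap.ker_ne_bot_of_finrank_lt (f := L) hlt)
  have hfix : ∀ a : S, P *ᵥ (a : Fin 2 ⊕ Fin m → ℂ) = a := by
    intro a
    obtain ⟨b, hb⟩ := a.2
    rw [← hb, Matrix.mulVecLin_apply, Matrix.mulVec_mulVec, hP.1]
  have h := LinearMap.mem_ker.mp hker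
  refine ⟨a, a', hfix a, hfix a', ?_, ?_, ?_⟩
  · by_contra hcon
    push Not at hcon
    apply hne
    ext1
    · exact Subtype.ext hcon.1
    · exact Subtype.ext hcon.2
  · intro i
    exact congrFun (congrArg Prod.fst h) i
  · intro i
    exact congrFun (congrArg Prod.snd h) i

end Q186.SM
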