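import Mathlib

/-! Ring identities for tangent vectors to a space of idempotents. -/

namespace Q186.SM

variable {V : Type*} [Ring V] {P X Y Z W Q N : V}

/-- The part of `W` that exchanges image and kernel of `P`. -/
def tng (P W : V) : V := P * W * (1 - P) + (1 - P) * W * P

theorem tan_PXP (hP : P * P = P) (hX : P * X + X * P = X) : P * X * P = 0 := by
  have h := congrArg (fun M => P * M) hX
  simp only [mul_add, ← mul_assoc, hP] at h
  have h2 : P * X + P * X * P = P * X + 0 := by rw [h]; simp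
  exact add_left_cancel h2

theorem tan_anti (hX : P * X + X * P = X) : (1 - P - P) * X = - (X * (1 - P - P)) := by
  have h : X * P = X - P * X := by
    rw [eq_sub_iff_add_eq, add_comm]; exact hX
  simp only [sub_mul, mul_sub, one_mul, mul_one, h]
  abel

theorem S_sq (hP : P * P = P) : (1 - P - P) * (1 - P - P) = 1 := by
  simp only [sub_mul, mul_sub, one_mul, mul_one, hP]
  abel

theorem prod_comm (hX : P * X + X * P = X) (hY : P * Y + Y * P = Y) :
    (1 - P - P) * (X * Y) = (X * Y) * (1 - P - P) := by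
  rw [← mul_assoc, tan_anti hX, neg_mul, mul_assoc, tan_anti hY,
    mul_neg, neg_neg, mul_assoc]

theorem P_prod_comm (hX : P * X + X * P = X) (hY : P * Y + Y * P = Y) :
    P * (X * Y) = (X * Y) * P := by
  have h1 : P * X = X - X * P := by
    rw [eq_sub_iff_add_eq]; exact hX
  have h2 : P * Y = Y - Y * P := by
    rw [eq_sub_iff_add_eq]; exact hY
  rw [← mul_assoc, h1, sub_mul, mul_assoc X P Y, h2, mul_sub, mul_assoc]
  abel

variable (τ : V →+ ℝ)

theorem trace_SQN (hτ : ∀ a b, τ (a * b) = τ (b * a))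
    (hQ : (1 - P - P) * Q = Q * (1 - P - P))
    (hN : P * N + N * P = N) : τ ((1 - P - P) * Q * N) = 0 := by
  have h : τ ((1 - P - P) * Q * N) = - τ ((1 - P - P) * Q * N) := by
    conv_lhs => rw [hQ, mul_assoc, tan_anti hN, mul_neg, map_neg,
      ← mul_assoc, hτ, ← mul_assoc]
  linarith

theorem trace_tng (hτ : ∀ a b, τ (a * b) = τ (b * a)) (hP : P * P = P)
    (hX : P * X + X * P = X) (W : V) : τ (X * tng P W) = τ (X * W) := by
  have h1 : τ (X * (P * W * P)) = 0 := by
    have : τ (X * (P * W * P)) = τ (P * X * P * W) := by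
      rw [← mul_assoc, hτ]
      simp only [mul_assoc]
    rw [this, tan_PXP hP hX]
    simp
  have h2 : (1 - P) * X * (1 - P) = 0 := by
    simp only [sub_mul, mul_sub, one_mul, mul_one, tan_PXP hP hX]
    rw [sub_zero, sub_sub, hX, sub_self]
  have h3 : τ (X * ((1 - P) * W * (1 - P))) = 0 := by
    have : τ (X * ((1 - P) * W * (1 - P))) = τ ((1 - P) * X * (1 - P) * W) := by
      rw [← mul_assoc, hτ]
      simp only [mul_assoc]
    rw [this, h2]
    simp
  have h4 : W = tng P W + P * W * P + (1 - P) * W * (1 - P) := by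
    unfold tng
    simp only [sub_mul, mul_sub, one_mul, mul_one]
    abel
  conv_rhs => rw [h4]
  rw [mul_add, mul_add, map_add, map_add, h1, h3]
  simp

theorem tr4 (hτ : ∀ a b, τ (a * b) = τ (b * a)) (A B C D : V) :
    τ (A * B * C * D) = τ (D * A * B * C) := by
  rw [hτ]
  simp only [mul_assoc]

theorem trace_identity (hτ : ∀ a b, τ (a * b) = τ (b * a)) (X Y Z W : V) :
    τ ((Y * Z + Z * Y) * (X * W + W * X)) - τ ((X * Z + Z * X) * (Y * W + W * Y))
      = τ ((X * Y - Y * X) * (Z * W - W * Z)) := by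
  simp only [mul_add, add_mul, mul_sub, sub_mul, map_add, map_sub, ← mul_assoc]
  have e2 := tr4 τ hτ Y Z W X
  have e3 := tr4 τ hτ Z Y X W
  have e3' := tr4 τ hτ W Z Y X
  have e4 := tr4 τ hτ Z Y W X
  have e5 := tr4 τ hτ Z X Y W
  have e5' := tr4 τ hτ W Z X Y
  have e5'' := tr4 τ hτ Y W Z X
  have e6 := tr4 τ hτ Z X W Y
  have e7 := tr4 τ hτ Y X Z W
  have e7' := tr4 τ hτ W Y X Z
  have e7'' := tr4 τ hτ Z W Y X
  have e8 := tr4 τ hτ Y X W Z
  have e8' := tr4 τ hτ Z Y X W
  linear_combination e2 + e3 + e3' + e4 - e5 - e5' - e5'' - e6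
    + e7 + e7' + e7'' - e8 - e8' - e3'

end Q186.SM
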