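import Mathlib
import Pool.Agent.Q186.SM.Gauss
import Pool.Agent.Q186.SM.Ring

/-! Hypersurfaces of a space of self-adjoint idempotents in a normed algebra:
Gauss equation. -/

open Set
open scoped ContDiff

namespace Q186.SM

variable {E V : Type*} [NormedAddCommGroup E] [NormedSpace ℝ E] [NormedRing V] [NormedAlgebra ℝ V]

/-- The data and hypotheses of a hypersurface of a space of idempotents. -/
structure ProjHyp (τ : V →L[ℝ] ℝ) (σ : V →L[ℝ] V) (U : Set E) (F N : E → V)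
    (Γ : E → E → E → E) (A : E → E → E) : Prop where
  tr : ∀ a b, τ (a * b) = τ (b * a)
  σmul : ∀ a b, σ (a * b) = σ b * σ a
  σone : σ 1 = 1
  isOpen : IsOpen U
  hF : ContDiffOn ℝ ∞ F U
  hN : ContDiffOn ℝ ∞ N U
  idem : ∀ u ∈ U, F u * F u = F u
  self : ∀ u ∈ U, σ (F u) = F u
  imm : ∀ u ∈ U, ∀ x, x ≠ 0 → 0 < τ (fderiv ℝ F u x * fderiv ℝ F u x)
  N_tan : ∀ u ∈ U, σ (N u) = N u ∧ F u * N u + N u * F u = N u
  N_unit : ∀ u ∈ U, τ (N u * N u) = 1
  N_normal : ∀ u ∈ U, ∀ x, τ (fderiv ℝ F u x * N u) = 0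
  codim : ∀ u ∈ U, ∀ X, σ X = X → F u * X + X * F u = X →
    ∃ x, ∃ t : ℝ, X = fderiv ℝ F u x + t • N u
  lc : IsLeviCivita U (fun u x y => τ (fderiv ℝ F u x * fderiv ℝ F u y)) Γ
  shape : ∀ u ∈ U, ∀ x, tng (F u) (fderiv ℝ N u x) = - fderiv ℝ F u (A u x)

namespace ProjHyp

variable {τ : V →L[ℝ] ℝ} {σ : V →L[ℝ] V} {U : Set E} {F N : E → V}
  {Γ : E → E → E → E} {A : E → E → E}

/-- first derivative of `F F = F` -/
theorem dF_tan (H : ProjHyp τ σ U F N Γ A) {u : E} (hu : u ∈ U) (x : E) :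
    F u * fderiv ℝ F u x + fderiv ℝ F u x * F u = fderiv ℝ F u x := by
  have h1 := hasFDerivAt_of_contDiffOn H.isOpen H.hF hu
  have h3 := ((ContinuousLinearMap.mul ℝ V).hasFDerivAt_of_bilinear h1 h1).fderiv
  have h4 : (fun p => ContinuousLinearMap.mul ℝ V (F p) (F p)) =ᶠ[nhds u] F := by
    filter_upwards [H.isOpen.mem_nhds hu] with p hp
    simp only [ContinuousLinearMap.mul_apply']
    exact H.idem p hp
  have h5 := h4.fderiv_eq (𝕜 := ℝ)
  rw [h3] at h5
  have h6 := congrArg (fun L : _ →L[ℝ] V => L x) h5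
  simpa using h6

theorem sec_eq (H : ProjHyp τ σ U F N Γ A) {u : E} (hu : u ∈ U) (x y : E) :
    F u * sec F u x y + fderiv ℝ F u x * fderiv ℝ F u y
      + (fderiv ℝ F u y * fderiv ℝ F u x + sec F u x y * F u) = sec F u x y := by
  have h1 := hasFDerivAt_of_contDiffOn H.isOpen H.hF hu
  have h2 := hasFDerivAt_of_contDiffOn H.isOpen (contDiffOn_dF H.isOpen H.hF y) hu
  have h3 := (((ContinuousLinearMap.mul ℝ V).hasFDerivAt_of_bilinear h1 h2).add
    ((ContinuousLinearMap.mul ℝ V).hasFDerivAt_of_bilinear h2 h1)).fderiv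
  have h4 : ((fun p => ContinuousLinearMap.mul ℝ V (F p) (fderiv ℝ F p y))
      + (fun p => ContinuousLinearMap.mul ℝ V (fderiv ℝ F p y) (F p)))
      =ᶠ[nhds u] fun p => fderiv ℝ F p y := by
    filter_upwards [H.isOpen.mem_nhds hu] with p hp
    simp only [ContinuousLinearMap.mul_apply', Pi.add_apply]
    exact H.dF_tan hp y
  have h5 := h4.fderiv_eq (𝕜 := ℝ)
  rw [h3] at h5
  have h6 := congrArg (fun L : _ →L[ℝ] V => L x) h5
  have h7 : fderiv ℝ (fun p => fderiv ℝ F p y) u x = sec F u x y := rfl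
  simp [h7] at h6
  exact h6

theorem σ_dF (H : ProjHyp τ σ U F N Γ A) {u : E} (hu : u ∈ U) (x : E) :
    σ (fderiv ℝ F u x) = fderiv ℝ F u x := by
  have h1 := hasFDerivAt_of_contDiffOn H.isOpen H.hF hu
  have h3 := (σ.hasFDerivAt.comp u h1).fderiv
  have h4 : σ ∘ F =ᶠ[nhds u] F := by
    filter_upwards [H.isOpen.mem_nhds hu] with p hp
    exact H.self p hp
  have h5 := h4.fderiv_eq (𝕜 := ℝ)
  rw [h3] at h5
  have h6 := congrArg (fun L : _ →L[ℝ] V => L x) h5
  simpa using h6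

theorem σ_sec (H : ProjHyp τ σ U F N Γ A) {u : E} (hu : u ∈ U) (x y : E) :
    σ (sec F u x y) = sec F u x y := by
  have h1 := hasFDerivAt_of_contDiffOn H.isOpen (contDiffOn_dF H.isOpen H.hF y) hu
  have h3 := (σ.hasFDerivAt.comp u h1).fderiv
  have h4 : σ ∘ (fun p => fderiv ℝ F p y) =ᶠ[nhds u] fun p => fderiv ℝ F p y := by
    filter_upwards [H.isOpen.mem_nhds hu] with p hp
    exact H.σ_dF hp y
  have h5 := h4.fderiv_eq (𝕜 := ℝ)
  rw [h3] at h5
  have h6 := congrArg (fun L : _ →L[ℝ] V => L x) h5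
  have h7 : fderiv ℝ (fun p => fderiv ℝ F p y) u x = sec F u x y := rfl
  simpa [h7] using h6

/-- The metric form. -/
noncomputable def B (τ : V →L[ℝ] ℝ) : V →L[ℝ] V →L[ℝ] ℝ :=
  (ContinuousLinearMap.compL ℝ V V ℝ τ).comp (ContinuousLinearMap.mul ℝ V)

theorem B_apply (X Y : V) : B τ X Y = τ (X * Y) := by
  simp [B]

/-- second fundamental form as `⟨D² F, N⟩ = g(A x, y)` -/
theorem sec_N (H : ProjHyp τ σ U F N Γ A) {u : E} (hu : u ∈ U) (x y : E) :
    τ (sec F u x y * N u) = τ (fderiv ℝ F u (A u x) * fderiv ℝ F u y) := by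
  have h1 := hasFDerivAt_of_contDiffOn H.isOpen (contDiffOn_dF H.isOpen H.hF y) hu
  have h2 := hasFDerivAt_of_contDiffOn H.isOpen H.hN hu
  have h3 := ((B τ).hasFDerivAt_of_bilinear h1 h2).fderiv
  have h4 : (fun p => B τ (fderiv ℝ F p y) (N p)) =ᶠ[nhds u] fun _ => 0 := by
    filter_upwards [H.isOpen.mem_nhds hu] with p hp
    rw [B_apply]
    exact H.N_normal p hp y
  have h5 := h4.fderiv_eq (𝕜 := ℝ)
  rw [h3] at h5
  have h6 := congrArg (fun L : _ →L[ℝ] ℝ => L x) h5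
  have h7 : fderiv ℝ (fun p => fderiv ℝ F p y) u x = sec F u x y := rfl
  simp [B_apply, h7] at h6
  have h8 : τ (fderiv ℝ F u y * fderiv ℝ N u x)
      = - τ (fderiv ℝ F u (A u x) * fderiv ℝ F u y) := by
    have h9 := trace_tng (τ : V →+ ℝ) H.tr (H.idem u hu) (H.dF_tan hu y) (fderiv ℝ N u x)
    simp only [AddMonoidHom.coe_coe] at h9
    rw [← h9, H.shape u hu x, mul_neg, map_neg, H.tr]
  linarith

theorem isLC (H : ProjHyp τ σ U F N Γ A) : IsLeviCivita U (ind (B τ) F) Γ := by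
  have h : ind (B τ) F = fun u x y => τ (fderiv ℝ F u x * fderiv ℝ F u y) := by
    funext u x y
    simp [ind, B_apply]
  rw [h]
  exact H.lc

theorem A_symm (H : ProjHyp τ σ U F N Γ A) {u : E} (hu : u ∈ U) (x y : E) :
    τ (fderiv ℝ F u (A u x) * fderiv ℝ F u y) = τ (fderiv ℝ F u (A u y) * fderiv ℝ F u x) := by
  rw [← H.sec_N hu, ← H.sec_N hu, sec_symm H.isOpen H.hF hu]

/-- The normal part of the second derivative. -/
theorem nu_eq (H : ProjHyp τ σ U F N Γ A) {u : E} (hu : u ∈ U) (x y : E) :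
    nu F Γ u x y
      = (1 - F u - F u) * (fderiv ℝ F u x * fderiv ℝ F u y + fderiv ℝ F u y * fderiv ℝ F u x)
        + τ (fderiv ℝ F u (A u x) * fderiv ℝ F u y) • N u := by
  have hsym : ∀ v w, B τ v w = B τ w v := fun v w => by
    rw [B_apply, B_apply, H.tr]
  obtain ⟨P, hPdef⟩ : ∃ P, P = F u := ⟨_, rfl⟩
  obtain ⟨X, hX⟩ : ∃ X, X = fderiv ℝ F u x := ⟨_, rfl⟩
  obtain ⟨Y, hY⟩ : ∃ Y, Y = fderiv ℝ F u y := ⟨_, rfl⟩
  obtain ⟨G, hG⟩ : ∃ G, G = fderiv ℝ F u (Γ u x y) := ⟨_, rfl⟩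
  obtain ⟨S, hS⟩ : ∃ S, S = sec F u x y := ⟨_, rfl⟩
  have hP : P * P = P := by rw [hPdef]; exact H.idem u hu
  have hXt : P * X + X * P = X := by rw [hPdef, hX]; exact H.dF_tan hu x
  have hYt : P * Y + Y * P = Y := by rw [hPdef, hY]; exact H.dF_tan hu y
  have hGt : P * G + G * P = G := by rw [hPdef, hG]; exact H.dF_tan hu _
  have hsec : P * S + X * Y + (Y * X + S * P) = S := by
    rw [hPdef, hX, hY, hS]; exact H.sec_eq hu x y
  have hσP : σ P = P := by rw [hPdef]; exact H.self u hu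
  have hσX : σ X = X := by rw [hX]; exact H.σ_dF hu x
  have hσY : σ Y = Y := by rw [hY]; exact H.σ_dF hu y
  have hσG : σ G = G := by rw [hG]; exact H.σ_dF hu _
  have hσS : σ S = S := by rw [hS]; exact H.σ_sec hu x y
  obtain ⟨Q, hQ⟩ : ∃ Q, Q = X * Y + Y * X := ⟨_, rfl⟩
  have hQP : P * Q = Q * P := by
    rw [hQ, mul_add, add_mul, P_prod_comm hXt hYt, P_prod_comm hYt hXt]
  have hQc : (1 - P - P) * Q = Q * (1 - P - P) := by
    simp only [sub_mul, mul_sub, one_mul, mul_one, hQP]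
  have hσQ : σ Q = Q := by
    rw [hQ, map_add, H.σmul, H.σmul, hσX, hσY]
    abel
  obtain ⟨R, hR⟩ : ∃ R, R = S - G - (1 - P - P) * Q := ⟨_, rfl⟩
  have hσR : σ R = R := by
    rw [hR]
    simp only [map_sub, H.σmul, hσS, hσG, hσQ, hσP, H.σone]
    rw [hQc]
  have hRt : P * R + R * P = R := by
    have h1 : P * R + R * P = (P * S + S * P) - (P * G + G * P)
        - (P * ((1 - P - P) * Q) + (1 - P - P) * Q * P) := by
      rw [hR]
      simp only [mul_sub, sub_mul]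
      abel
    have h2 : P * ((1 - P - P) * Q) + (1 - P - P) * Q * P = - (P * Q + P * Q) := by
      have e1 : P * ((1 - P - P) * Q) = - (P * Q) := by
        rw [← mul_assoc]
        simp only [mul_sub, mul_one, hP]
        rw [sub_self, zero_sub, neg_mul]
      have e2 : (1 - P - P) * Q * P = - (P * Q) := by
        rw [mul_assoc, ← hQP, ← mul_assoc]
        simp only [sub_mul, one_mul, hP]
        rw [sub_self, zero_sub]
      rw [e1, e2]
      abel
    have h3 : P * S + S * P = S - Q := by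
      rw [eq_sub_iff_add_eq, hQ]
      nth_rewrite 3 [← hsec]
      abel
    rw [h1, h2, h3, hGt, hR]
    simp only [sub_mul, one_mul]
    abel
  obtain ⟨x', t, hx'⟩ := H.codim u hu R hσR (by rw [← hPdef]; exact hRt)
  have hNt := (H.N_tan u hu).2
  rw [← hPdef] at hNt
  -- orthogonality to the tangent space
  have horth : ∀ z, τ (R * fderiv ℝ F u z) = 0 := by
    intro z
    have h1 := nu_perp hsym H.isOpen H.hF H.isLC hu x y z
    rw [B_apply, nu, ← hS, ← hG] at h1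
    have h2 := trace_SQN (τ : V →+ ℝ) H.tr hQc
      (by rw [hPdef]; exact H.dF_tan hu z : P * fderiv ℝ F u z + fderiv ℝ F u z * P
        = fderiv ℝ F u z)
    simp only [AddMonoidHom.coe_coe] at h2
    rw [hR, sub_mul, map_sub, h1, h2, sub_zero]
  have hx0 : x' = 0 := by
    by_contra hne
    have h1 := H.imm u hu x' hne
    have h2 := horth x'
    rw [hx', add_mul, map_add, smul_mul_assoc, map_smul, H.tr (N u), H.N_normal u hu] at h2
    simp at h2
    linarith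
  have hR2 : R = t • N u := by rw [hx', hx0]; simp
  have ht : t = τ (fderiv ℝ F u (A u x) * fderiv ℝ F u y) := by
    have h1 : τ (R * N u) = t := by
      rw [hR2, smul_mul_assoc, map_smul, H.N_unit u hu]
      simp
    rw [← h1, ← H.sec_N hu, hR, sub_mul, sub_mul, map_sub, map_sub]
    have h2 := trace_SQN (τ : V →+ ℝ) H.tr hQc hNt
    simp only [AddMonoidHom.coe_coe] at h2
    rw [h2, hG, H.N_normal u hu, hS]
    ring
  rw [← ht, nu, ← hS, ← hG, ← hX, ← hY, ← hPdef, ← hQ, ← hR2, hR]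
  abel

/-- **Gauss equation** -/
theorem gauss (H : ProjHyp τ σ U F N Γ A) {u : E} (hu : u ∈ U) (x y z w : E) :
    τ (fderiv ℝ F u (curvature Γ u x y z) * fderiv ℝ F u w)
      = τ ((fderiv ℝ F u x * fderiv ℝ F u y - fderiv ℝ F u y * fderiv ℝ F u x)
          * (fderiv ℝ F u z * fderiv ℝ F u w - fderiv ℝ F u w * fderiv ℝ F u z))
        + τ (fderiv ℝ F u (A u y) * fderiv ℝ F u z) * τ (fderiv ℝ F u (A u x) * fderiv ℝ F u w)
        - τ (fderiv ℝ F u (A u x) * fderiv ℝ F u z)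
          * τ (fderiv ℝ F u (A u y) * fderiv ℝ F u w) := by
  have hsym : ∀ v w, B τ v w = B τ w v := fun v w => by
    rw [B_apply, B_apply, H.tr]
  have h0 := Q186.SM.gauss hsym H.isOpen H.hF H.isLC hu x y z w
  simp only [B_apply] at h0
  rw [h0]
  have hprod : ∀ a b a' b', τ (nu F Γ u a b * nu F Γ u a' b')
      = τ ((fderiv ℝ F u a * fderiv ℝ F u b + fderiv ℝ F u b * fderiv ℝ F u a)
          * (fderiv ℝ F u a' * fderiv ℝ F u b' + fderiv ℝ F u b' * fderiv ℝ F u a'))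
        + τ (fderiv ℝ F u (A u a) * fderiv ℝ F u b)
          * τ (fderiv ℝ F u (A u a') * fderiv ℝ F u b') := by
    intro a b a' b'
    rw [H.nu_eq hu, H.nu_eq hu]
    have hc : ∀ a b, (1 - F u - F u)
        * (fderiv ℝ F u a * fderiv ℝ F u b + fderiv ℝ F u b * fderiv ℝ F u a)
        = (fderiv ℝ F u a * fderiv ℝ F u b + fderiv ℝ F u b * fderiv ℝ F u a)
          * (1 - F u - F u) := by
      intro a b
      rw [mul_add, add_mul, prod_comm (H.dF_tan hu a) (H.dF_tan hu b),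
        prod_comm (H.dF_tan hu b) (H.dF_tan hu a)]
    have hz : ∀ a b, τ ((1 - F u - F u)
        * (fderiv ℝ F u a * fderiv ℝ F u b + fderiv ℝ F u b * fderiv ℝ F u a) * N u) = 0 := by
      intro a b
      have h2 := trace_SQN (τ : V →+ ℝ) H.tr (hc a b) (H.N_tan u hu).2
      simpa only [AddMonoidHom.coe_coe] using h2
    obtain ⟨q, hq⟩ : ∃ q, q = fderiv ℝ F u a * fderiv ℝ F u b
      + fderiv ℝ F u b * fderiv ℝ F u a := ⟨_, rfl⟩
    obtain ⟨q', hq'⟩ : ∃ q', q' = fderiv ℝ F u a' * fderiv ℝ F u b'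
      + fderiv ℝ F u b' * fderiv ℝ F u a' := ⟨_, rfl⟩
    have hc1 := hc a b
    have hz1 := hz a b
    have hz2 := hz a' b'
    rw [← hq] at hc1 hz1 ⊢
    rw [← hq'] at hz2 ⊢
    have h5 : (1 - F u - F u) * q * ((1 - F u - F u) * q') = q * q' := by
      rw [hc1, mul_assoc, ← mul_assoc (1 - F u - F u) (1 - F u - F u), S_sq (H.idem u hu),
        one_mul]
    rw [mul_add, add_mul, add_mul, h5, map_add, map_add, map_add]
    rw [mul_smul_comm, map_smul, hz1, smul_mul_assoc, map_smul, H.tr (N u), hz2,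
      smul_mul_smul_comm, map_smul, H.N_unit u hu]
    simp
  rw [hprod, hprod]
  have hid := trace_identity (τ : V →+ ℝ) H.tr (fderiv ℝ F u x) (fderiv ℝ F u y)
    (fderiv ℝ F u z) (fderiv ℝ F u w)
  simp only [AddMonoidHom.coe_coe] at hid
  linarith

end ProjHyp

end Q186.SM
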