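import Mathlib
import Pool.Agent.Q186.SM.Proj
import Pool.Agent.Q186.SM.GrLin

/-! The Gauss equation of a real hypersurface of the Grassmannian or its dual. -/

open Set Matrix Module
open scoped ContDiff

attribute [local instance] Matrix.linftyOpNormedRing Matrix.linftyOpNormedAlgebra

namespace Q186.SM

variable {m : ℕ} {ε c : ℝ}

theorem gm_comm (X Y : Mat m) : gm ε c X Y = gm ε c Y X := by
  unfold gm
  rw [Matrix.trace_mul_comm]

/-- the functional `ε c Re tr` -/
noncomputable def tauLin (ε c : ℝ) (m : ℕ) : Mat m →ₗ[ℝ] ℝ := (ε * c) • reTr (1 : Mat m)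

theorem tauLin_apply (X : Mat m) : tauLin ε c m X = ε * c * (Matrix.trace X).re := by
  simp [tauLin, reTr]

/-- the adjoint -/
def adjLin (ε : ℝ) (m : ℕ) : Mat m →ₗ[ℝ] Mat m where
  toFun := adj ε
  map_add' := adj_add
  map_smul' := fun r X => adj_real_smul r X

theorem projHyp_exists (hε : ε = 1 ∨ ε = -1) (M : RealHypersurface ε c m) :
    ∃ (τ : Mat m →L[ℝ] ℝ) (σ : Mat m →L[ℝ] Mat m), (∀ X, τ X = ε * c * (Matrix.trace X).re) ∧
      (∀ X, σ X = adj ε X) ∧
      ProjHyp (V := Mat m) τ σ M.U M.F M.N M.Γ M.A := by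
  refine ⟨LinearMap.toContinuousLinearMap (tauLin ε c m),
    LinearMap.toContinuousLinearMap (adjLin ε m), fun X => ?_, fun X => ?_, ?_⟩
  · simp [tauLin_apply]
  · simp [adjLin]
  · have hτ : ∀ X : Mat m, (LinearMap.toContinuousLinearMap (tauLin ε c m)) X
        = ε * c * (Matrix.trace X).re := fun X => by simp [tauLin_apply]
    have hσ : ∀ X : Mat m, (LinearMap.toContinuousLinearMap (adjLin ε m)) X = adj ε X :=
      fun X => by simp [adjLin]
    have htr : ∀ a b : Mat m, ε * c * (Matrix.trace (a * b)).re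
        = ε * c * (Matrix.trace (b * a)).re := fun a b => by rw [Matrix.trace_mul_comm]
    constructor
    · exact fun a b => (hτ (a * b)).trans ((htr a b).trans (hτ (b * a)).symm)
    · intro a b
      have h : adj ε (a * b) = (LinearMap.toContinuousLinearMap (adjLin ε m)) b
          * (LinearMap.toContinuousLinearMap (adjLin ε m)) a := by
        rw [hσ, hσ, adj_mul hε]
      exact (hσ (a * b)).trans h
    · exact (hσ 1).trans (adj_one hε)
    · exact M.imm.isOpen
    · exact M.imm.smooth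
    · exact M.nor.smooth
    · exact fun u hu => (M.imm.mem u hu).1
    · exact fun u hu => (hσ (M.F u)).trans (M.imm.mem u hu).2.1
    · exact fun u hu x hx => lt_of_lt_of_eq (M.imm.pos u hu x hx) (hτ _).symm
    · exact fun u hu => ⟨(hσ _).trans (M.nor.tan u hu).1, (M.nor.tan u hu).2⟩
    · exact fun u hu => (hτ _).trans (M.nor.unit u hu)
    · exact fun u hu x => (hτ _).trans (M.nor.normal u hu x)
    · exact fun u hu X h1 h2 => M.nor.codim u hu X ⟨(hσ X).symm.trans h1, h2⟩
    · have h := M.leviCivita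
      have he : (fun u x y => gm ε c (dF M.F u x) (dF M.F u y))
          = (fun u x y => (LinearMap.toContinuousLinearMap (tauLin ε c m))
          (fderiv ℝ M.F u x * fderiv ℝ M.F u y)) := by
        funext u x y
        exact (hτ _).symm
      rw [he] at h
      exact h
    · exact M.shape

theorem hyp_dF_mem (hε : ε = 1 ∨ ε = -1) (M : RealHypersurface ε c m)
    {u : Dom m} (hu : u ∈ M.U)
    (x : Dom m) : dF M.F u x ∈ tangent ε (M.F u) := by
  obtain ⟨τ, σ, hτ, hσ, H⟩ := projHyp_exists hε M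
  exact ⟨(hσ _).symm.trans (H.σ_dF hu x), H.dF_tan hu x⟩

theorem hyp_A_symm (hε : ε = 1 ∨ ε = -1) (M : RealHypersurface ε c m)
    {u : Dom m} (hu : u ∈ M.U)
    (x y : Dom m) :
    gm ε c (dF M.F u (M.A u x)) (dF M.F u y)
      = gm ε c (dF M.F u (M.A u y)) (dF M.F u x) := by
  obtain ⟨τ, σ, hτ, hσ, H⟩ := projHyp_exists hε M
  exact (hτ _).symm.trans ((H.A_symm hu x y).trans (hτ _))

/-- **Gauss equation** of a real hypersurface. -/
theorem hyp_gauss (hε : ε = 1 ∨ ε = -1) (M : RealHypersurface ε c m)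
    {u : Dom m} (hu : u ∈ M.U)
    (x y z w : Dom m) :
    gm ε c (dF M.F u (curvature M.Γ u x y z)) (dF M.F u w)
      = gm ε c (dF M.F u x * dF M.F u y - dF M.F u y * dF M.F u x)
          (dF M.F u z * dF M.F u w - dF M.F u w * dF M.F u z)
        + gm ε c (dF M.F u (M.A u y)) (dF M.F u z)
          * gm ε c (dF M.F u (M.A u x)) (dF M.F u w)
        - gm ε c (dF M.F u (M.A u x)) (dF M.F u z)
          * gm ε c (dF M.F u (M.A u y)) (dF M.F u w) := by
  obtain ⟨τ, σ, hτ, hσ, H⟩ := projHyp_exists hε M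
  exact (hτ _).symm.trans ((H.gauss hu x y z w).trans
    (congrArg₂ (· - ·) (congrArg₂ (· + ·) (hτ _) (congrArg₂ (· * ·) (hτ _) (hτ _)))
      (congrArg₂ (· * ·) (hτ _) (hτ _))))

end Q186.SM
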