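import Mathlib
import Pool.Agent.Q186.SM.GrLin

/-! The algebraic obstruction for `m ≥ 3`. -/

open Set Matrix Module

namespace Q186.SM

variable {m : ℕ} {ε : ℝ}

theorem tan_ker {P N : Mat m} (hN : P * N + N * P = N) {x : Fin 2 ⊕ Fin m → ℂ}
    (hx : P *ᵥ x = 0) : P *ᵥ (N *ᵥ x) = N *ᵥ x := by
  have h := congrArg (fun M => M *ᵥ x) hN
  simp only [Matrix.add_mulVec, ← Matrix.mulVec_mulVec, hx, Matrix.mulVec_zero, add_zero] at h
  exact h

theorem tan_im {P N : Mat m} (hN : P * N + N * P = N) {x : Fin 2 ⊕ Fin m → ℂ}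
    (hx : P *ᵥ x = x) : P *ᵥ (N *ᵥ x) = 0 := by
  have h := congrArg (fun M => M *ᵥ x) hN
  simp only [Matrix.add_mulVec, ← Matrix.mulVec_mulVec, hx] at h
  have h2 : P *ᵥ (N *ᵥ x) + N *ᵥ x = 0 + N *ᵥ x := by rw [h, zero_add]
  exact add_right_cancel h2

theorem hh_im_ker (hε : ε = 1 ∨ ε = -1) {P : Mat m} (hP : adj ε P = P)
    {a e : Fin 2 ⊕ Fin m → ℂ} (ha : P *ᵥ a = a) (he : P *ᵥ e = 0) : hh ε a e = 0 := by
  rw [← ha, hh_mulVec_left hε, hP, he, hh_zero_right]

theorem hh_ker_im (hε : ε = 1 ∨ ε = -1) {P : Mat m} (hP : adj ε P = P)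
    {a e : Fin 2 ⊕ Fin m → ℂ} (ha : P *ᵥ a = a) (he : P *ᵥ e = 0) : hh ε e a = 0 := by
  rw [← hh_star hε, hh_im_ker hε hP ha he, star_zero]

theorem rk_tangent (hε : ε = 1 ∨ ε = -1) {P : Mat m} (hP : adj ε P = P)
    {a e : Fin 2 ⊕ Fin m → ℂ} (ha : P *ᵥ a = a) (he : P *ᵥ e = 0) :
    rk ε a e + rk ε e a ∈ tangent ε P := by
  constructor
  · rw [adj_add, adj_rk hε, adj_rk hε, add_comm]
  · rw [Matrix.mul_add, Matrix.add_mul, mul_rk, mul_rk, rk_mul hε, rk_mul hε, hP, ha, he,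
      rk_zero_left, rk_zero_right]
    abel

theorem Phi_tangent (hε : ε = 1 ∨ ε = -1) {P : Mat m} (hP : adj ε P = P)
    {a a' u e : Fin 2 ⊕ Fin m → ℂ} (ha : P *ᵥ a = a) (ha' : P *ᵥ a' = a')
    (hu : P *ᵥ u = 0) (he : P *ᵥ e = 0) : Phi ε u e (a, a') ∈ tangent ε P := by
  have h1 := rk_tangent hε hP ha hu
  have h2 := rk_tangent hε hP ha' he
  rw [Phi_apply]
  constructor
  · rw [add_assoc, adj_add, h1.1, h2.1]
  · rw [add_assoc (rk ε a u + rk ε u a), Matrix.mul_add, Matrix.add_mul]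
    calc _ = (P * (rk ε a u + rk ε u a) + (rk ε a u + rk ε u a) * P)
          + (P * (rk ε a' e + rk ε e a') + (rk ε a' e + rk ε e a') * P) := by abel
      _ = _ := by rw [h1.2, h2.2]

theorem comm_tangent (hε : ε = 1 ∨ ε = -1) {P Y C : Mat m}
    (hY : Y ∈ tangent ε P) (hC : adj ε C = - C) (hCP : P * C = C * P) :
    Y * C - C * Y ∈ tangent ε P := by
  constructor
  · rw [adj_sub, adj_mul hε, adj_mul hε, hC, hY.1]
    simp only [Matrix.neg_mul, Matrix.mul_neg]
    abel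
  · have h := hY.2
    have h1 : P * (Y * C) + Y * C * P = Y * C := by
      rw [← Matrix.mul_assoc, Matrix.mul_assoc Y C P, ← hCP, ← Matrix.mul_assoc Y P C,
        ← Matrix.add_mul, h]
    have h2 : P * (C * Y) + C * Y * P = C * Y := by
      rw [← Matrix.mul_assoc, hCP, Matrix.mul_assoc, Matrix.mul_assoc C Y P, ← Matrix.mul_add, h]
    rw [Matrix.mul_sub, Matrix.sub_mul]
    calc _ = (P * (Y * C) + Y * C * P) - (P * (C * Y) + C * Y * P) := by abel
      _ = _ := by rw [h1, h2]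

theorem trace_Phi_sq (hε : ε = 1 ∨ ε = -1) {P : Mat m} (hP : adj ε P = P)
    {a a' u e : Fin 2 ⊕ Fin m → ℂ} (ha : P *ᵥ a = a) (ha' : P *ᵥ a' = a')
    (hu : P *ᵥ u = 0) (he : P *ᵥ e = 0) (hue : hh ε u e = 0) :
    Matrix.trace (Phi ε u e (a, a') * Phi ε u e (a, a'))
      = 2 * (hh ε a a * hh ε u u + hh ε a' a' * hh ε e e) := by
  have heu : hh ε e u = 0 := by rw [← hh_star hε, hue, star_zero]
  have z1 := hh_im_ker hε hP ha hu
  have z2 := hh_im_ker hε hP ha he
  have z3 := hh_im_ker hε hP ha' hu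
  have z4 := hh_im_ker hε hP ha' he
  have y1 := hh_ker_im hε hP ha hu
  have y2 := hh_ker_im hε hP ha he
  have y3 := hh_ker_im hε hP ha' hu
  have y4 := hh_ker_im hε hP ha' he
  have hPu : Phi ε u e (a, a') *ᵥ u = hh ε u u • a := by
    rw [Phi_apply]
    simp only [Matrix.add_mulVec, rk_mulVec, z1, z3, heu, zero_smul, add_zero]
  have hPe : Phi ε u e (a, a') *ᵥ e = hh ε e e • a' := by
    rw [Phi_apply]
    simp only [Matrix.add_mulVec, rk_mulVec, z2, z4, hue, zero_smul, add_zero, zero_add]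
  have hPa : Phi ε u e (a, a') *ᵥ a = hh ε a a • u + hh ε a' a • e := by
    rw [Phi_apply]
    simp only [Matrix.add_mulVec, rk_mulVec, y1, y2, zero_smul, add_zero, zero_add]
  have hPa' : Phi ε u e (a, a') *ᵥ a' = hh ε a a' • u + hh ε a' a' • e := by
    rw [Phi_apply]
    simp only [Matrix.add_mulVec, rk_mulVec, y3, y4, zero_smul, add_zero, zero_add]
  obtain ⟨T, hT⟩ : ∃ T, T = Phi ε u e (a, a') := ⟨_, rfl⟩
  have expand : T * T
      = rk ε (T *ᵥ a) u + rk ε (T *ᵥ u) a + rk ε (T *ᵥ a') e + rk ε (T *ᵥ e) a' := by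
    have h0 : T = rk ε a u + rk ε u a + rk ε a' e + rk ε e a' := by rw [hT, Phi_apply]
    have h1 : T * T = T * (rk ε a u + rk ε u a + rk ε a' e + rk ε e a') := by rw [← h0]
    rw [h1]
    simp only [Matrix.mul_add, mul_rk]
  rw [← hT, expand, hT, hPu, hPe, hPa, hPa']
  simp only [Matrix.trace_add, trace_rk, hh_add_right, hh_smul_right, hue, heu]
  ring

/-- The algebraic obstruction: if `m ≥ 3`, the curvature operator `[ξ, Z]` is not annihilated on
the orthogonal complement of any three vectors. -/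
theorem three (hm : 3 ≤ m) (hε : ε = 1 ∨ ε = -1) {P N b : Mat m} (hP : P ∈ Gr ε m)
    (hN : N ∈ tangent ε P) (hN0 : N ≠ 0) (hPb : P * b = b) (hbP : b * P = b)
    (hbadj : adj ε b = -b) (hbb : b * b = -P) (W : Fin 3 → Mat m) :
    ∃ X ∈ tangent ε P, ∃ Y ∈ tangent ε P, ∃ Z ∈ tangent ε P,
      (∀ i, (Matrix.trace (X * W i)).re = 0) ∧ (∀ i, (Matrix.trace (Y * W i)).re = 0) ∧
      (Matrix.trace (Z * N)).re = 0 ∧
      (Matrix.trace ((X * Y - Y * X) * (-(b * N - N * b) * Z - Z * -(b * N - N * b)))).re ≠ 0 := by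
  have hPP := hP.1
  have hPa := hP.2.1
  have hNt := hN.2
  have hNa := hN.1
  -- a kernel vector killed by `N`
  obtain ⟨e, hPe, hNe, he0⟩ : ∃ e, P *ᵥ e = 0 ∧ N *ᵥ e = 0 ∧ e ≠ 0 := by
    have hr : finrank ℂ (LinearMap.range (Matrix.mulVecLin P)) = 2 := hP.2.2.1
    have hk : finrank ℂ (LinearMap.ker (Matrix.mulVecLin P)) = m := by
      have := LinearMap.finrank_range_add_finrank_ker (Matrix.mulVecLin P)
      rw [hr] at this
      simp at this
      omega
    let L : LinearMap.ker (Matrix.mulVecLin P) →ₗ[ℂ] LinearMap.range (Matrix.mulVecLin P) :=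
      ((Matrix.mulVecLin N).comp (LinearMap.ker (Matrix.mulVecLin P)).subtype).codRestrict _
        (fun x => by
          have hx : P *ᵥ (x : Fin 2 ⊕ Fin m → ℂ) = 0 := by
            have := x.2
            rwa [LinearMap.mem_ker, Matrix.mulVecLin_apply] at this
          exact ⟨N *ᵥ (x : Fin 2 ⊕ Fin m → ℂ), tan_ker hNt hx⟩)
    have hlt : finrank ℂ (LinearMap.range (Matrix.mulVecLin P))
        < finrank ℂ (LinearMap.ker (Matrix.mulVecLin P)) := by
      rw [hr, hk]; omega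
    obtain ⟨x, hx, hx0⟩ := (Submodule.ne_bot_iff _).mp
      (LinearMap.ker_ne_bot_of_finrank_lt (f := L) hlt)
    refine ⟨x, ?_, ?_, fun h => hx0 (Subtype.ext h)⟩
    · have := x.2
      rwa [LinearMap.mem_ker, Matrix.mulVecLin_apply] at this
    · have := congrArg Subtype.val (LinearMap.mem_ker.mp hx)
      exact this
  -- an image vector
  obtain ⟨v, hPv, hu0⟩ : ∃ v, P *ᵥ v = v ∧ N *ᵥ (b *ᵥ v) ≠ 0 := by
    by_contra hcon
    push Not at hcon
    have hNP : N * P = 0 := by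
      apply Matrix.ext_of_mulVec_single
      intro j
      rw [Matrix.zero_mulVec, ← Matrix.mulVec_mulVec]
      set a := P *ᵥ Pi.single j (1:ℂ) with ha
      have hPa' : P *ᵥ a = a := by rw [ha, Matrix.mulVec_mulVec, hPP]
      have h1 := hcon (b *ᵥ a) (by rw [Matrix.mulVec_mulVec, hPb])
      have h2 : b *ᵥ (b *ᵥ a) = -a := by
        rw [Matrix.mulVec_mulVec, hbb, Matrix.neg_mulVec, hPa']
      rw [h2, Matrix.mulVec_neg] at h1
      exact neg_eq_zero.mp h1
    apply hN0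
    have h2 : P * N = N := by
      have := hNt
      rwa [hNP, add_zero] at this
    have h3 : N * P = N := by
      have := congrArg (adj ε) h2
      rwa [adj_mul hε, hNa, hPa] at this
    rw [← h3, hNP]
  obtain ⟨u, hu⟩ : ∃ u, u = N *ᵥ (b *ᵥ v) := ⟨_, rfl⟩
  rw [← hu] at hu0
  have hPbv : P *ᵥ (b *ᵥ v) = b *ᵥ v := by rw [Matrix.mulVec_mulVec, hPb]
  have hPu : P *ᵥ u = 0 := by rw [hu]; exact tan_im hNt hPbv
  have hue : hh ε u e = 0 := by
    rw [hu, hh_mulVec_left hε, hNa, hNe, hh_zero_right]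
  -- ξ
  obtain ⟨ξ, hξ⟩ : ∃ ξ, ξ = -(b * N - N * b) := ⟨_, rfl⟩
  have hξa : adj ε ξ = ξ := by
    rw [hξ, adj_neg, adj_sub, adj_mul hε, adj_mul hε, hNa, hbadj]
    simp only [Matrix.mul_neg, Matrix.neg_mul]
    abel
  have hbker : ∀ x, P *ᵥ x = 0 → b *ᵥ x = 0 := by
    intro x hx
    rw [← hbP, ← Matrix.mulVec_mulVec, hx, Matrix.mulVec_zero]
  have hξv : ξ *ᵥ v = u := by
    rw [hξ, Matrix.neg_mulVec, Matrix.sub_mulVec, ← Matrix.mulVec_mulVec, ← Matrix.mulVec_mulVec,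
      hbker _ (tan_im hNt hPv), ← hu]
    simp
  have hξe : ξ *ᵥ e = 0 := by
    rw [hξ, Matrix.neg_mulVec, Matrix.sub_mulVec, ← Matrix.mulVec_mulVec, ← Matrix.mulVec_mulVec,
      hNe, hbker _ hPe]
    simp
  obtain ⟨Z, hZ⟩ : ∃ Z, Z = rk ε v e + rk ε e v := ⟨_, rfl⟩
  have hZt : Z ∈ tangent ε P := by rw [hZ]; exact rk_tangent hε hPa hPv hPe
  have hC : ξ * Z - Z * ξ = rk ε u e - rk ε e u := by
    rw [hZ, Matrix.mul_add, Matrix.add_mul, mul_rk, mul_rk, rk_mul hε, rk_mul hε, hξa, hξv, hξe,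
      rk_zero_left, rk_zero_right]
    abel
  obtain ⟨C, hCdef⟩ : ∃ C, C = rk ε u e - rk ε e u := ⟨_, rfl⟩
  have hCadj : adj ε C = - C := by
    rw [hCdef, adj_sub, adj_rk hε, adj_rk hε]
    abel
  have hCP : P * C = C * P := by
    rw [hCdef, Matrix.mul_sub, Matrix.sub_mul, mul_rk, mul_rk, rk_mul hε, rk_mul hε, hPa, hPu,
      hPe, rk_zero_left, rk_zero_left, rk_zero_right, rk_zero_right]
  obtain ⟨a, a', ha, ha', hne, hW1, hW2⟩ := exists_pair (ε := ε) hP W u e
    (LinearMap.mulRight ℝ C - LinearMap.mulLeft ℝ C)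
  obtain ⟨Y, hY⟩ : ∃ Y, Y = Phi ε u e (a, a') := ⟨_, rfl⟩
  rw [← hY] at hW1 hW2
  have hYt : Y ∈ tangent ε P := by rw [hY]; exact Phi_tangent hε hPa ha ha' hPu hPe
  have hD : (LinearMap.mulRight ℝ C - LinearMap.mulLeft ℝ C) Y = Y * C - C * Y := by
    simp
  rw [hD] at hW2
  refine ⟨Y * C - C * Y, comm_tangent hε hYt hCadj hCP, Y, hYt, Z, hZt, hW2, hW1, ?_, ?_⟩
  · rw [hZ, Matrix.add_mul, rk_mul hε, rk_mul hε, hNa, hNe, rk_zero_right, zero_add, trace_rk,
      hh_mulVec_left hε, hNa, hNe, hh_zero_right]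
    rfl
  · rw [← hξ, hC, ← hCdef]
    obtain ⟨X, hX⟩ : ∃ X, X = Y * C - C * Y := ⟨_, rfl⟩
    rw [← hX]
    have htr : Matrix.trace ((X * Y - Y * X) * C) = Matrix.trace (X * X) := by
      rw [Matrix.sub_mul, Matrix.trace_sub]
      have h1 : Matrix.trace (Y * X * C) = Matrix.trace (X * (C * Y)) := by
        rw [Matrix.mul_assoc, Matrix.trace_mul_comm, Matrix.mul_assoc]
      rw [h1, Matrix.mul_assoc, ← Matrix.trace_sub, ← Matrix.mul_sub, ← hX]
    have hheu : hh ε e u = 0 := by rw [← hh_star hε, hue, star_zero]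
    have hYu : Y *ᵥ u = hh ε u u • a := by
      rw [hY, Phi_apply]
      simp only [Matrix.add_mulVec, rk_mulVec, hh_im_ker hε hPa ha hPu, hh_im_ker hε hPa ha' hPu,
        hheu, zero_smul, add_zero]
    have hYe : Y *ᵥ e = hh ε e e • a' := by
      rw [hY, Phi_apply]
      simp only [Matrix.add_mulVec, rk_mulVec, hh_im_ker hε hPa ha hPe, hh_im_ker hε hPa ha' hPe,
        hue, zero_smul, add_zero, zero_add]
    have hXPhi : X = Phi ε u e (-(hh ε e e • a'), hh ε u u • a) := by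
      have hneg : ∀ x y : Fin 2 ⊕ Fin m → ℂ, rk ε (-x) y = - rk ε x y := by
        intro x y
        have := rk_smul_left (ε := ε) (-1) x y
        simpa using this
      have hneg' : ∀ x y : Fin 2 ⊕ Fin m → ℂ, rk ε x (-y) = - rk ε x y := by
        intro x y
        have := rk_smul_right (ε := ε) (-1) x y
        simpa using this
      rw [hX, hCdef, Matrix.mul_sub, Matrix.sub_mul, mul_rk, mul_rk, rk_mul hε, rk_mul hε, hYt.1,
        hYu, hYe, Phi_apply, hneg, hneg']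
      abel
    have hPa1 : P *ᵥ (-(hh ε e e • a')) = -(hh ε e e • a') := by
      rw [Matrix.mulVec_neg, Matrix.mulVec_smul, ha']
    have hPa2 : P *ᵥ (hh ε u u • a) = hh ε u u • a := by
      rw [Matrix.mulVec_smul, ha]
    have h2 := trace_Phi_sq hε hPa hPa1 hPa2 hPu hPe hue
    rw [htr, hXPhi, h2]
    have ru := hh_self_re (ε := ε) u
    have re := hh_self_re (ε := ε) e
    have qu : hh ε u u = (((hh ε u u).re : ℝ) : ℂ) := by
      apply Complex.ext
      · simp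
      · simp [hh_self_im]
    have qe : hh ε e e = (((hh ε e e).re : ℝ) : ℂ) := by
      apply Complex.ext
      · simp
      · simp [hh_self_im]
    have qa : hh ε a a = (((hh ε a a).re : ℝ) : ℂ) := by
      apply Complex.ext
      · simp
      · simp [hh_self_im]
    have qa' : hh ε a' a' = (((hh ε a' a').re : ℝ) : ℂ) := by
      apply Complex.ext
      · simp
      · simp [hh_self_im]
    obtain ⟨su, hsu⟩ : ∃ s : ℝ, s = (hh ε u u).re := ⟨_, rfl⟩
    obtain ⟨se, hse⟩ : ∃ s : ℝ, s = (hh ε e e).re := ⟨_, rfl⟩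
    obtain ⟨sa, hsa⟩ : ∃ s : ℝ, s = (hh ε a a).re := ⟨_, rfl⟩
    obtain ⟨sa', hsa'⟩ : ∃ s : ℝ, s = (hh ε a' a').re := ⟨_, rfl⟩
    have pu : 0 < ε * su := by rw [hsu]; exact ker_pos hε hP hPu hu0
    have pe : 0 < ε * se := by rw [hse]; exact ker_pos hε hP hPe he0
    have pa : 0 ≤ sa := by
      by_cases h : a = 0
      · rw [hsa, h, hh_zero_left]; simp
      · rw [hsa]; exact (im_pos hP ha h).le
    have pa' : 0 ≤ sa' := by
      by_cases h : a' = 0
      · rw [hsa', h, hh_zero_left]; simp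
      · rw [hsa']; exact (im_pos hP ha' h).le
    have psum : 0 < sa ∨ 0 < sa' := by
      rcases hne with h | h
      · left; rw [hsa]; exact im_pos hP ha h
      · right; rw [hsa']; exact im_pos hP ha' h
    rw [← hsu] at qu
    rw [← hse] at qe
    rw [← hsa] at qa
    rw [← hsa'] at qa'
    have hfin : (2 * (hh ε (-(hh ε e e • a')) (-(hh ε e e • a')) * hh ε u u
        + hh ε (hh ε u u • a) (hh ε u u • a) * hh ε e e) : ℂ)
        = ((2 * (se ^ 2 * sa' * su + su ^ 2 * sa * se) : ℝ) : ℂ) := by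
      simp only [hh_neg_left, hh_neg_right, hh_smul_left, hh_smul_right, qu, qe, qa, qa',
        Complex.star_def, Complex.conj_ofReal]
      push_cast
      ring
    rw [hfin, Complex.ofReal_re]
    intro hcon
    have h5 : ε * (2 * (se ^ 2 * sa' * su + su ^ 2 * sa * se)) = 0 := by rw [hcon, mul_zero]
    have h6 : ε * (2 * (se ^ 2 * sa' * su + su ^ 2 * sa * se))
        = 2 * (se ^ 2 * sa' * (ε * su) + su ^ 2 * sa * (ε * se)) := by ring
    rw [h6] at h5
    have se0 : se ≠ 0 := by rintro rfl; simp at pe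
    have su0 : su ≠ 0 := by rintro rfl; simp at pu
    have t1 : 0 ≤ se ^ 2 * sa' * (ε * su) := by positivity
    have t2 : 0 ≤ su ^ 2 * sa * (ε * se) := by positivity
    rcases psum with h | h
    · have : 0 < su ^ 2 * sa * (ε * se) := by positivity
      linarith
    · have : 0 < se ^ 2 * sa' * (ε * su) := by positivity
      linarith

end Q186.SM
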