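import Mathlib
import Pool.Agent.Q186.SM.GrHyp
import Pool.Agent.Q186.SM.Three

/-! Nonexistence of hypersurfaces with a nullity condition, `m ≥ 3`. -/

open Set Matrix Module
open scoped ContDiff

namespace Q186.SM

variable {m : ℕ} {ε c : ℝ}

theorem gm_add_left (X Y Z : Mat m) : gm ε c (X + Y) Z = gm ε c X Z + gm ε c Y Z := by
  unfold gm
  rw [Matrix.add_mul, Matrix.trace_add, Complex.add_re]
  ring

theorem gm_smul_left (X Y : Mat m) (t : ℝ) : gm ε c (t • X) Y = t * gm ε c X Y := by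
  unfold gm
  have : (t • X) * Y = t • (X * Y) := by simp
  rw [this, Matrix.trace_smul]
  simp
  ring

theorem gm_zero_left (X : Mat m) : gm ε c 0 X = 0 := by simp [gm]

/-- A tangent vector of the ambient space orthogonal to `N` is tangent to the hypersurface. -/
theorem exists_rep (M : RealHypersurface ε c m)
    {u : Dom m} (hu : u ∈ M.U) {X : Mat m}
    (hX : X ∈ tangent ε (M.F u)) (hXN : gm ε c X (M.N u) = 0) :
    ∃ x, dF M.F u x = X := by
  obtain ⟨x, t, h⟩ := M.nor.codim u hu X hX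
  have h1 : gm ε c X (M.N u) = t := by
    rw [h, gm_add_left, M.nor.normal u hu, gm_smul_left, M.nor.unit u hu]
    ring
  refine ⟨x, ?_⟩
  rw [hXN] at h1
  rw [h, ← h1]
  simp

/-- `b X - X b` is tangent and orthogonal to `X`. -/
theorem qc_tangent (hε : ε = 1 ∨ ε = -1) {P N b : Mat m}
    (hN : N ∈ tangent ε P) (hPb : P * b = b) (hbP : b * P = b) (hb : adj ε b = -b) :
    b * N - N * b ∈ tangent ε P ∧ gm ε c (b * N - N * b) N = 0 := by
  have hN2 := hN.2
  refine ⟨⟨?_, ?_⟩, ?_⟩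
  · rw [adj_sub, adj_mul hε, adj_mul hε, hb, hN.1]
    simp only [Matrix.mul_neg, Matrix.neg_mul]
    abel
  · have h1 : b * N * P = 0 := by
      have h := congrArg (fun M => b * M) hN2
      simp only [Matrix.mul_add, ← Matrix.mul_assoc, hbP] at h
      have h3 : b * N + b * N * P = b * N + 0 := by rw [h, add_zero]
      exact add_left_cancel h3
    have h2 : P * N * b = 0 := by
      have h := congrArg (fun M => M * b) hN2
      simp only [Matrix.add_mul] at h
      rw [Matrix.mul_assoc N P b, hPb] at h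
      have h3 : P * N * b + N * b = 0 + N * b := by rw [h, zero_add]
      exact add_right_cancel h3
    rw [Matrix.mul_sub, Matrix.sub_mul, ← Matrix.mul_assoc, hPb, ← Matrix.mul_assoc, h2, h1,
      Matrix.mul_assoc N b P, hbP]
    abel
  · unfold gm
    rw [Matrix.sub_mul, Matrix.trace_sub, Matrix.mul_assoc N b N, Matrix.trace_mul_comm N,
      sub_self]
    simp

/-- **Core nonexistence statement.** -/
theorem core (hm : 3 ≤ m) (hε : ε = 1 ∨ ε = -1) (hc : 0 < c) (M : RealHypersurface ε c m)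
    {u : Dom m} (hu : u ∈ M.U) {b V : Mat m}
    (hPb : M.F u * b = b) (hbP : b * M.F u = b) (hbadj : adj ε b = -b) (hbb : b * b = -M.F u)
    (ξ : Dom m)
    (hξ : dF M.F u ξ = -(b * M.N u - M.N u * b))
    (h : ∀ x y, gm ε c (dF M.F u x) V = 0 → gm ε c (dF M.F u y) V = 0 →
      dF M.F u (curvature M.Γ u x y ξ) = 0) : False := by
  have hk : ε * c ≠ 0 := by
    rcases hε with rfl | rfl
    · simp only [one_mul]; exact hc.ne'
    · simp only [neg_mul, one_mul, ne_eq, neg_eq_zero]; exact hc.ne'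
  have hgm : ∀ X Y : Mat m, (Matrix.trace (X * Y)).re = 0 → gm ε c X Y = 0 := by
    intro X Y h
    rw [gm, h, mul_zero]
  have hN0 : M.N u ≠ 0 := by
    intro h0
    have := M.nor.unit u hu
    rw [h0, gm_zero_left] at this
    exact zero_ne_one this
  obtain ⟨X, hX, Y, hY, Z, hZ, hXW, hYW, hZN, hne⟩ := three hm hε (M.imm.mem u hu)
    (M.nor.tan u hu) hN0 hPb hbP hbadj hbb ![M.N u, V, dF M.F u (M.A u ξ)]
  obtain ⟨x, hx⟩ := exists_rep M hu hX (hgm _ _ (hXW 0))
  obtain ⟨y, hy⟩ := exists_rep M hu hY (hgm _ _ (hYW 0))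
  obtain ⟨z, hz⟩ := exists_rep M hu hZ (hgm _ _ hZN)
  have h1 := h x y (by rw [hx]; exact hgm _ _ (hXW 1)) (by rw [hy]; exact hgm _ _ (hYW 1))
  have h2 := hyp_gauss hε M hu x y ξ z
  rw [h1, gm_zero_left] at h2
  have hAx : gm ε c (dF M.F u (M.A u x)) (dF M.F u ξ) = 0 := by
    rw [hyp_A_symm hε M hu, gm_comm, hx]
    exact hgm _ _ (hXW 2)
  have hAy : gm ε c (dF M.F u (M.A u y)) (dF M.F u ξ) = 0 := by
    rw [hyp_A_symm hε M hu, gm_comm, hy]
    exact hgm _ _ (hYW 2)
  rw [hAx, hAy, hx, hy, hz, hξ] at h2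
  simp only [zero_mul, add_zero, sub_zero] at h2
  unfold gm at h2
  rcases mul_eq_zero.mp h2.symm with h3 | h3
  · exact hk h3
  · exact hne h3

/-- Existence of the structure vector `-J N`. -/
theorem exists_xi (hε : ε = 1 ∨ ε = -1) (M : RealHypersurface ε c m)
    {u : Dom m} (hu : u ∈ M.U) {b : Mat m}
    (hPb : M.F u * b = b) (hbP : b * M.F u = b) (hbadj : adj ε b = -b) :
    ∃ ξ, dF M.F u ξ = -(b * M.N u - M.N u * b) := by
  obtain ⟨h1, h2⟩ := qc_tangent (c := c) hε (M.nor.tan u hu) hPb hbP hbadj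
  obtain ⟨x, hx⟩ := exists_rep M hu h1 h2
  exact ⟨-x, by rw [dF, map_neg]; exact congrArg Neg.neg hx⟩

/-- The complex structure is `X ↦ b X - X b` with `b = -i P`. -/
theorem cpx_eq (P X : Mat m) : cpx P X = (-(Complex.I • P)) * X - X * (-(Complex.I • P)) := by
  unfold cpx
  simp only [Matrix.neg_mul, Matrix.mul_neg, Matrix.smul_mul, Matrix.mul_smul, smul_sub]
  abel

theorem iP_facts {P : Mat m} (hP : P ∈ Gr ε m) :
    P * (-(Complex.I • P)) = -(Complex.I • P) ∧ (-(Complex.I • P)) * P = -(Complex.I • P) ∧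
      adj ε (-(Complex.I • P)) = -(-(Complex.I • P)) ∧
      (-(Complex.I • P)) * (-(Complex.I • P)) = -P := by
  refine ⟨?_, ?_, ?_, ?_⟩
  · rw [Matrix.mul_neg, Matrix.mul_smul, hP.1]
  · rw [Matrix.neg_mul, Matrix.smul_mul, hP.1]
  · rw [adj_neg, adj_smul, hP.2.1]
    simp
  · rw [Matrix.neg_mul, Matrix.mul_neg, neg_neg, Matrix.smul_mul, Matrix.mul_smul, smul_smul,
      hP.1, Complex.I_mul_I]
    simp

end Q186.SM
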