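import Mathlib
import Pool.Agent.Q186.SM.Conf

/-! The local estimate for the conformal factor `ψ = -(9/8)|F|²`. -/

open Set
open scoped ContDiff

namespace Q186.SM

section algebra

variable {V : Type*} [NormedAddCommGroup V] [InnerProductSpace ℝ V]

theorem four_norms (P A B C : V) :
    ‖P + (2:ℝ) • A + (2:ℝ) • B + (2:ℝ) • C‖ ^ 2 + ‖P + (2:ℝ) • A - (2:ℝ) • B - (2:ℝ) • C‖ ^ 2
      + ‖P - (2:ℝ) • A + (2:ℝ) • B - (2:ℝ) • C‖ ^ 2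
      + ‖P - (2:ℝ) • A - (2:ℝ) • B + (2:ℝ) • C‖ ^ 2
      = 4 * ‖P‖ ^ 2 + 16 * (‖A‖ ^ 2 + ‖B‖ ^ 2 + ‖C‖ ^ 2) := by
  simp only [← real_inner_self_eq_norm_sq, inner_add_left, inner_add_right, inner_sub_left,
    inner_sub_right, inner_smul_left, inner_smul_right, real_inner_comm P A,
    real_inner_comm P B, real_inner_comm P C, real_inner_comm A B, real_inner_comm A C,
    real_inner_comm B C]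
  simp
  ring

theorem est {a0 a1 a2 A B C w : V} {c L r τ : ℝ} (hc2 : c ^ 2 < 9 / 5) (hL : 0 < L)
    (h0 : ‖a0‖ ^ 2 ≤ c ^ 2 * L ^ 2) (h1 : ‖a1‖ ^ 2 ≤ c ^ 2 * L ^ 2)
    (h2 : ‖a2‖ ^ 2 ≤ c ^ 2 * L ^ 2)
    (g1 : ‖a0 + a1 + a2 + (2:ℝ) • A + (2:ℝ) • B + (2:ℝ) • C‖ ^ 2 ≤ 9 * c ^ 2 * L ^ 2)
    (g2 : ‖a0 + a1 + a2 + (2:ℝ) • A - (2:ℝ) • B - (2:ℝ) • C‖ ^ 2 ≤ 9 * c ^ 2 * L ^ 2)
    (g3 : ‖a0 + a1 + a2 - (2:ℝ) • A + (2:ℝ) • B - (2:ℝ) • C‖ ^ 2 ≤ 9 * c ^ 2 * L ^ 2)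
    (g4 : ‖a0 + a1 + a2 - (2:ℝ) • A - (2:ℝ) • B + (2:ℝ) • C‖ ^ 2 ≤ 9 * c ^ 2 * L ^ 2)
    (hw : ‖w‖ ^ 2 = r - τ) (hτ : τ ≤ 4 / 5 * (1 - r)) :
    0 < (inner ℝ a0 a1 - ‖A‖ ^ 2) + (inner ℝ a0 a2 - ‖B‖ ^ 2) + (inner ℝ a1 a2 - ‖C‖ ^ 2)
      + 9 / 4 * L * (6 * L + 2 * inner ℝ w (a0 + a1 + a2)) - 3 * (81 / 16) * τ * L ^ 2 := by
  have e1 := four_norms (a0 + a1 + a2) A B C
  have e2 : ‖a0 + a1 + a2‖ ^ 2 = ‖a0‖ ^ 2 + ‖a1‖ ^ 2 + ‖a2‖ ^ 2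
      + 2 * (inner ℝ a0 a1 + inner ℝ a0 a2 + inner ℝ a1 a2) := by
    simp only [← real_inner_self_eq_norm_sq, inner_add_left, inner_add_right,
      real_inner_comm a0 a1, real_inner_comm a0 a2, real_inner_comm a1 a2]
    ring
  have e3 : - (‖w‖ * ‖a0 + a1 + a2‖) ≤ inner ℝ w (a0 + a1 + a2) :=
    neg_le_of_abs_le (abs_real_inner_le_norm _ _)
  set m := ‖a0 + a1 + a2‖ with hm
  set ρ := ‖w‖ with hρ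
  have e4 : 0 ≤ (m - 3 * L * ρ) ^ 2 := sq_nonneg _
  have e5 : 9 / 4 * L * (2 * inner ℝ w (a0 + a1 + a2)) ≥ 9 / 4 * L * (2 * (-(ρ * m))) := by
    have : 0 ≤ 9 / 4 * L := by positivity
    exact mul_le_mul_of_nonneg_left (by linarith) this
  have e6 : 0 < L ^ 2 := by positivity
  have e7 : L ^ 2 * ρ ^ 2 = L ^ 2 * (r - τ) := by rw [hw]
  have e8 : L ^ 2 * τ ≤ L ^ 2 * (4 / 5 * (1 - r)) := mul_le_mul_of_nonneg_left hτ e6.le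
  have e9 : c ^ 2 * L ^ 2 < 9 / 5 * L ^ 2 := mul_lt_mul_of_pos_right hc2 e6
  nlinarith [e1, e2, e4, e5, e7, e8, e9]

end algebra

end Q186.SM
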