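import Mathlib
import Pool.Agent.Q186.SM.LocalR

/-! The conformal factor `ψ = -(9/8)|F|²` of an immersion: local formulas. -/

open Set
open scoped ContDiff

namespace Q186.SM

variable {E V : Type*} [NormedAddCommGroup E] [InnerProductSpace ℝ E] [FiniteDimensional ℝ E]
  [NormedAddCommGroup V] [InnerProductSpace ℝ V]

/-- tangential coordinate vector of the position vector -/
noncomputable def tg (F : E → V) (u : E) : E := pinv (fderiv ℝ F u) (F u)

/-- conformal exponent -/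
noncomputable def psi (F : E → V) (u : E) : ℝ := -(9/8) * inner ℝ (F u) (F u)

/-- gradient of the conformal exponent -/
noncomputable def gradPsi (F : E → V) (u : E) : E := (-(9/4) : ℝ) • tg F u

/-- squared length of the tangential part of the position vector -/
noncomputable def tau (F : E → V) (u : E) : ℝ := inner ℝ (F u) (fderiv ℝ F u (tg F u))

/-- normal part of the position vector -/
noncomputable def wn (F : E → V) (u : E) : V := F u - fderiv ℝ F u (tg F u)

variable {U : Set E} {F : E → V}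

theorem contDiffOn_tg (hU : IsOpen U) (hF : ContDiffOn ℝ ∞ F U)
    (himm : ∀ u ∈ U, Function.Injective (fderiv ℝ F u)) : ContDiffOn ℝ ∞ (tg F) U :=
  contDiffOn_pinv hU hF himm hF

theorem contDiffOn_psi (hF : ContDiffOn ℝ ∞ F U) : ContDiffOn ℝ ∞ (psi F) U :=
  contDiffOn_const.mul (hF.inner ℝ hF)

theorem contDiffOn_gradPsi (hU : IsOpen U) (hF : ContDiffOn ℝ ∞ F U)
    (himm : ∀ u ∈ U, Function.Injective (fderiv ℝ F u)) : ContDiffOn ℝ ∞ (gradPsi F) U :=
  contDiffOn_const.smul (contDiffOn_tg hU hF himm)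

theorem contDiffOn_dtg (hU : IsOpen U) (hF : ContDiffOn ℝ ∞ F U)
    (himm : ∀ u ∈ U, Function.Injective (fderiv ℝ F u)) :
    ContDiffOn ℝ ∞ (fun u => fderiv ℝ F u (tg F u)) U :=
  (hF.fderiv_of_isOpen hU (m := ∞) (by simp)).clm_apply (contDiffOn_tg hU hF himm)

theorem contDiffOn_tau (hU : IsOpen U) (hF : ContDiffOn ℝ ∞ F U)
    (himm : ∀ u ∈ U, Function.Injective (fderiv ℝ F u)) : ContDiffOn ℝ ∞ (tau F) U :=
  hF.inner ℝ (contDiffOn_dtg hU hF himm)

theorem contDiffOn_wn (hU : IsOpen U) (hF : ContDiffOn ℝ ∞ F U)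
    (himm : ∀ u ∈ U, Function.Injective (fderiv ℝ F u)) : ContDiffOn ℝ ∞ (wn F) U :=
  hF.sub (contDiffOn_dtg hU hF himm)

theorem tg_spec (himm : ∀ u ∈ U, Function.Injective (fderiv ℝ F u)) {u : E} (hu : u ∈ U) (y : E) :
    gi F u (tg F u) y = inner ℝ (F u) (fderiv ℝ F u y) := pinv_spec (himm u hu) (F u) y

theorem wn_perp (himm : ∀ u ∈ U, Function.Injective (fderiv ℝ F u)) {u : E} (hu : u ∈ U) (y : E) :
    inner ℝ (wn F u) (fderiv ℝ F u y) = 0 := by
  unfold wn
  rw [inner_sub_left]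
  have := tg_spec himm hu y
  unfold gi at this
  rw [this]
  ring

theorem tau_eq (himm : ∀ u ∈ U, Function.Injective (fderiv ℝ F u)) {u : E} (hu : u ∈ U) :
    tau F u = ‖fderiv ℝ F u (tg F u)‖ ^ 2 := by
  rw [← real_inner_self_eq_norm_sq]
  exact (tg_spec himm hu (tg F u)).symm

theorem wn_norm (himm : ∀ u ∈ U, Function.Injective (fderiv ℝ F u)) {u : E} (hu : u ∈ U) :
    ‖wn F u‖ ^ 2 = ‖F u‖ ^ 2 - tau F u := by
  have h1 : wn F u = F u - fderiv ℝ F u (tg F u) := rfl
  have h2 := tau_eq himm hu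
  have h3 : tau F u = inner ℝ (F u) (fderiv ℝ F u (tg F u)) := rfl
  rw [h1, norm_sub_sq_real, ← h2, ← h3]
  ring

theorem fderiv_normsq (hU : IsOpen U) (hF : ContDiffOn ℝ ∞ F U) {u : E} (hu : u ∈ U) (y : E) :
    fderiv ℝ (fun p => (inner ℝ (F p) (F p) : ℝ)) u y = 2 * inner ℝ (F u) (fderiv ℝ F u y) := by
  have h1 := hasFDerivAt_of_contDiffOn hU hF hu
  have h2 := (h1.inner ℝ h1).fderiv
  rw [h2]
  simp [fderivInnerCLM_apply]
  rw [real_inner_comm]
  ring

theorem fderiv_psi (hU : IsOpen U) (hF : ContDiffOn ℝ ∞ F U) {u : E} (hu : u ∈ U) (y : E) :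
    fderiv ℝ (psi F) u y = -(9/4) * inner ℝ (F u) (fderiv ℝ F u y) := by
  have h1 := hasFDerivAt_of_contDiffOn hU (hF.inner ℝ hF) hu
  have h2 := (h1.const_mul (-(9/8))).fderiv
  have h3 : fderiv ℝ (psi F) u = _ := h2
  rw [h3]
  simp only [smul_apply, smul_eq_mul]
  have h4 := fderiv_normsq hU hF hu y
  rw [h4]
  ring

theorem psi_grad (hU : IsOpen U) (hF : ContDiffOn ℝ ∞ F U)
    (himm : ∀ u ∈ U, Function.Injective (fderiv ℝ F u)) (u : E) (hu : u ∈ U) (y : E) :
    gi F u (gradPsi F u) y = fderiv ℝ (psi F) u y := by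
  rw [fderiv_psi hU hF hu, gradPsi, gi_smul_left, tg_spec himm hu]

theorem psi_theta (hU : IsOpen U) (hF : ContDiffOn ℝ ∞ F U) {u : E} (hu : u ∈ U) :
    fderiv ℝ (psi F) u (gradPsi F u) = 81 / 16 * tau F u := by
  rw [fderiv_psi hU hF hu, gradPsi, map_smul, inner_smul_right]
  unfold tau
  ring

theorem sec_psi (hU : IsOpen U) (hF : ContDiffOn ℝ ∞ F U) {u : E} (hu : u ∈ U) (x y : E) :
    sec (psi F) u x y = -(9/4) * (gi F u x y + inner ℝ (F u) (sec F u x y)) := by
  have h1 : (fun p => fderiv ℝ (psi F) p y) =ᶠ[nhds u]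
      fun p => -(9/4) * (inner ℝ (F p) (fderiv ℝ F p y) : ℝ) := by
    filter_upwards [hU.mem_nhds hu] with p hp
    exact fderiv_psi hU hF hp y
  unfold sec
  rw [h1.fderiv_eq]
  have h2 := hasFDerivAt_of_contDiffOn hU hF hu
  have h3 := hasFDerivAt_of_contDiffOn hU (contDiffOn_dF hU hF y) hu
  have h4 := ((h2.inner ℝ h3).const_mul (-(9/4))).fderiv
  rw [h4]
  simp only [smul_apply, smul_eq_mul, ContinuousLinearMap.comp_apply, ContinuousLinearMap.prod_apply,
    fderivInnerCLM_apply]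
  unfold gi
  ring

theorem nu_perp' (hU : IsOpen U) (hF : ContDiffOn ℝ ∞ F U)
    (himm : ∀ u ∈ U, Function.Injective (fderiv ℝ F u)) {u : E} (hu : u ∈ U) (x y z : E) :
    inner ℝ (nu F (Gam F) u x y) (fderiv ℝ F u z) = 0 := by
  have hB : ∀ v w : V, innerSL ℝ v w = innerSL ℝ w v := fun v w => real_inner_comm _ _
  exact nu_perp hB hU hF (Gam_lc hU hF himm) hu x y z

theorem hess_psi (hU : IsOpen U) (hF : ContDiffOn ℝ ∞ F U)
    (himm : ∀ u ∈ U, Function.Injective (fderiv ℝ F u)) {u : E} (hu : u ∈ U) (x : E) :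
    sec (psi F) u x x - fderiv ℝ (psi F) u (Gam F u x x)
      = -(9/4) * (gi F u x x + inner ℝ (wn F u) (nu F (Gam F) u x x)) := by
  rw [sec_psi hU hF hu, fderiv_psi hU hF hu]
  have h1 := nu_perp' hU hF himm hu x x (tg F u)
  have h2 : inner ℝ (wn F u) (nu F (Gam F) u x x)
      = inner ℝ (F u) (nu F (Gam F) u x x) := by
    have : wn F u = F u - fderiv ℝ F u (tg F u) := rfl
    have h3 : inner ℝ (fderiv ℝ F u (tg F u)) (nu F (Gam F) u x x) = (0:ℝ) := by
      rw [real_inner_comm]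
      exact h1
    rw [this, inner_sub_left, h3]
    ring
  rw [h2]
  unfold nu
  rw [inner_sub_right]
  ring

theorem gauss' (hU : IsOpen U) (hF : ContDiffOn ℝ ∞ F U)
    (himm : ∀ u ∈ U, Function.Injective (fderiv ℝ F u)) {u : E} (hu : u ∈ U) (x y : E) :
    gi F u (curvature (Gam F) u x y y) x
      = inner ℝ (nu F (Gam F) u y y) (nu F (Gam F) u x x)
        - ‖nu F (Gam F) u x y‖ ^ 2 := by
  have hB : ∀ v w : V, innerSL ℝ v w = innerSL ℝ w v := fun v w => real_inner_comm _ _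
  have h := gauss hB hU hF (Gam_lc hU hF himm) hu x y y x
  have h1 : nu F (Gam F) u y x = nu F (Gam F) u x y := by
    unfold nu
    rw [sec_symm hU hF hu, (Gam_lc hU hF himm).symm u hu]
  rw [h1] at h
  rw [← real_inner_self_eq_norm_sq]
  exact h

/-- the conformal connection -/
noncomputable def cGam (F : E → V) : E → E → E → E := cG F (Gam F) (psi F) (gradPsi F)

theorem cGam_lc (hU : IsOpen U) (hF : ContDiffOn ℝ ∞ F U)
    (himm : ∀ u ∈ U, Function.Injective (fderiv ℝ F u)) :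
    IsLeviCivita U (fun u x y => Real.exp (2 * psi F u) * gi F u x y) (cGam F) :=
  cG_lc hU hF (Gam_lc hU hF himm) (contDiffOn_psi hF) (contDiffOn_gradPsi hU hF himm)
    (psi_grad hU hF himm)

/-- curvature of the conformal metric on orthogonal vectors of equal length -/
theorem curv_conf (hU : IsOpen U) (hF : ContDiffOn ℝ ∞ F U)
    (himm : ∀ u ∈ U, Function.Injective (fderiv ℝ F u)) {u : E} (hu : u ∈ U) {x y : E} {L : ℝ}
    (hxy : gi F u x y = 0) (hx : gi F u x x = L) (hy : gi F u y y = L) :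
    gi F u (curvature (cGam F) u x y y) x
      = inner ℝ (nu F (Gam F) u x x) (nu F (Gam F) u y y) - ‖nu F (Gam F) u x y‖ ^ 2
        + 9 / 4 * L * (2 * L + inner ℝ (wn F u) (nu F (Gam F) u x x)
          + inner ℝ (wn F u) (nu F (Gam F) u y y))
        + fderiv ℝ (psi F) u x ^ 2 * L + fderiv ℝ (psi F) u y ^ 2 * L
        - 81 / 16 * tau F u * L ^ 2 := by
  have h := curv_cG hU hF (Gam_lc hU hF himm) (contDiffOn_psi hF)
    (contDiffOn_gradPsi hU hF himm) (psi_grad hU hF himm) hu hxy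
  have h1 : gi F u (curvature (cGam F) u x y y) x = _ := h
  have h2 : inner ℝ (nu F (Gam F) u y y) (nu F (Gam F) u x x)
      = (inner ℝ (nu F (Gam F) u x x) (nu F (Gam F) u y y) : ℝ) := real_inner_comm _ _
  rw [h1, gauss' hU hF himm hu, hess_psi hU hF himm hu, hess_psi hU hF himm hu,
    psi_theta hU hF hu, hx, hy, h2]
  ring

end Q186.SM
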