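import Mathlib
import Pool.Agent.Q186.SM.LocalW

/-! Condition (R) for the conformal metric at a point, and the derivative of `tau`. -/

open Set
open scoped ContDiff

namespace Q186.SM

variable {E V : Type*} [NormedAddCommGroup E] [InnerProductSpace ℝ E] [FiniteDimensional ℝ E]
  [NormedAddCommGroup V] [InnerProductSpace ℝ V]

variable {U : Set E} {F : E → V}

theorem fderiv_dtg (hU : IsOpen U) (hF : ContDiffOn ℝ ∞ F U)
    (himm : ∀ u ∈ U, Function.Injective (fderiv ℝ F u)) {u : E} (hu : u ∈ U) (x : E) :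
    fderiv ℝ (fun p => fderiv ℝ F p (tg F p)) u x
      = sec F u x (tg F u) + fderiv ℝ F u (fderiv ℝ (tg F) u x) := by
  have h1 : HasFDerivAt (fderiv ℝ F) (fderiv ℝ (fderiv ℝ F) u) u :=
    hasFDerivAt_of_contDiffOn hU (hF.fderiv_of_isOpen hU (m := ∞) (by simp)) hu
  have h2 := hasFDerivAt_of_contDiffOn hU (contDiffOn_tg hU hF himm) hu
  have h3 := (h1.clm_apply h2).fderiv
  have h4 := (h1.clm_apply (hasFDerivAt_const (tg F u) u)).fderiv
  unfold sec
  rw [h3, h4]
  simp
  abel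

theorem dtau (hU : IsOpen U) (hF : ContDiffOn ℝ ∞ F U)
    (himm : ∀ u ∈ U, Function.Injective (fderiv ℝ F u)) {u : E} (hu : u ∈ U) (x : E) :
    fderiv ℝ (tau F) u x = 2 * inner ℝ (F u) (fderiv ℝ F u x)
      + 2 * inner ℝ (wn F u) (nu F (Gam F) u x (tg F u)) := by
  have h0 : tau F =ᶠ[nhds u]
      ((fun p => (inner ℝ (F p) (F p) : ℝ)) - fun p => (inner ℝ (wn F p) (wn F p) : ℝ)) := by
    filter_upwards [hU.mem_nhds hu] with p hp
    have := wn_norm himm hp
    rw [← real_inner_self_eq_norm_sq, ← real_inner_self_eq_norm_sq] at this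
    simp only [Pi.sub_apply]
    linarith
  have hw := contDiffOn_wn hU hF himm
  have hFF := hasFDerivAt_of_contDiffOn hU (hF.inner ℝ hF) hu
  have hww := hasFDerivAt_of_contDiffOn hU (hw.inner ℝ hw) hu
  have h1 := (hFF.sub hww).fderiv
  have h2 := fderiv_normsq hU hF hu x
  have h3 := fderiv_normsq hU hw hu x
  rw [h0.fderiv_eq, h1]
  simp only [sub_apply]
  rw [h2, h3]
  have h4 : fderiv ℝ (wn F) u x = fderiv ℝ F u x
      - (sec F u x (tg F u) + fderiv ℝ F u (fderiv ℝ (tg F) u x)) := by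
    rw [← fderiv_dtg hU hF himm hu]
    have h5 := hasFDerivAt_of_contDiffOn hU hF hu
    have h6 := hasFDerivAt_of_contDiffOn hU (contDiffOn_dtg hU hF himm) hu
    have h7 : fderiv ℝ (wn F) u = _ := (h5.sub h6).fderiv
    rw [h7]
    rfl
  rw [h4, inner_sub_right, inner_add_right, wn_perp himm hu, wn_perp himm hu]
  have h8 : inner ℝ (wn F u) (nu F (Gam F) u x (tg F u))
      = (inner ℝ (wn F u) (sec F u x (tg F u)) : ℝ) := by
    unfold nu
    rw [inner_sub_right, wn_perp himm hu]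
    ring
  rw [h8]
  ring

/-- At a critical point of `tau - (4/5)(1 - |F|²)` the tangential part of the position vector
vanishes. -/
theorem tau_crit (hU : IsOpen U) (hF : ContDiffOn ℝ ∞ F U)
    (himm : ∀ u ∈ U, Function.Injective (fderiv ℝ F u)) {u : E} (hu : u ∈ U) {c : ℝ}
    (hc : c < 9 / 5) (hc0 : 0 ≤ c) (hr : ‖F u‖ ≤ 1)
    (hA : ∀ v, ‖nu F (Gam F) u v v‖ ≤ c * gi F u v v)
    (hcrit : fderiv ℝ (fun p => tau F p - 4 / 5 * (1 - (inner ℝ (F p) (F p) : ℝ))) u = 0) :
    tau F u = 0 := by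
  have hτ := hasFDerivAt_of_contDiffOn hU (contDiffOn_tau hU hF himm) hu
  have hFF := hasFDerivAt_of_contDiffOn hU (hF.inner ℝ hF) hu
  have h1 := (hτ.sub ((hFF.const_sub 1).const_mul (4 / 5))).fderiv
  have h2 : fderiv ℝ (fun p => tau F p - 4 / 5 * (1 - (inner ℝ (F p) (F p) : ℝ))) u = _ := h1
  rw [h2] at hcrit
  have h3 := congrArg (fun L : E →L[ℝ] ℝ => L (tg F u)) hcrit
  simp only [sub_apply, smul_apply, neg_apply, smul_eq_mul, zero_apply] at h3
  have h4 := fderiv_normsq hU hF hu (tg F u)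
  rw [dtau hU hF himm hu, h4] at h3
  have h5 : inner ℝ (F u) (fderiv ℝ F u (tg F u)) = tau F u := rfl
  rw [h5] at h3
  have h6 : tau F u = gi F u (tg F u) (tg F u) := (tg_spec himm hu (tg F u)).symm
  have h7 := hA (tg F u)
  rw [← h6] at h7
  have h8 : |(inner ℝ (wn F u) (nu F (Gam F) u (tg F u) (tg F u)) : ℝ)|
      ≤ ‖wn F u‖ * ‖nu F (Gam F) u (tg F u) (tg F u)‖ := abs_real_inner_le_norm _ _
  have h9 := neg_le_of_abs_le h8
  have hτ0 : 0 ≤ tau F u := by
    rw [tau_eq himm hu]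
    positivity
  have h10 := wn_norm himm hu
  have h11 : ‖wn F u‖ ≤ 1 := by
    have : ‖F u‖ ^ 2 ≤ 1 := by nlinarith [norm_nonneg (F u)]
    nlinarith [norm_nonneg (wn F u)]
  have h12 : ‖wn F u‖ * ‖nu F (Gam F) u (tg F u) (tg F u)‖ ≤ 1 * (c * tau F u) :=
    mul_le_mul h11 h7 (norm_nonneg _) zero_le_one
  nlinarith

theorem nu_add (hU : IsOpen U) (hF : ContDiffOn ℝ ∞ F U)
    (himm : ∀ u ∈ U, Function.Injective (fderiv ℝ F u)) {u : E} (hu : u ∈ U) (x y z : E) :
    nu F (Gam F) u x (y + z) = nu F (Gam F) u x y + nu F (Gam F) u x z := by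
  unfold nu
  rw [sec_add hU hF hu, (Gam_lc hU hF himm).add u hu, map_add]
  abel

theorem nu_smul (hU : IsOpen U) (hF : ContDiffOn ℝ ∞ F U)
    (himm : ∀ u ∈ U, Function.Injective (fderiv ℝ F u)) {u : E} (hu : u ∈ U) (t : ℝ) (x y : E) :
    nu F (Gam F) u x (t • y) = t • nu F (Gam F) u x y := by
  unfold nu
  rw [sec_smul hU hF hu, (Gam_lc hU hF himm).smul u hu, map_smul, smul_sub]

theorem nu_symm (hU : IsOpen U) (hF : ContDiffOn ℝ ∞ F U)
    (himm : ∀ u ∈ U, Function.Injective (fderiv ℝ F u)) {u : E} (hu : u ∈ U) (x y : E) :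
    nu F (Gam F) u x y = nu F (Gam F) u y x := by
  unfold nu
  rw [sec_symm hU hF hu, (Gam_lc hU hF himm).symm u hu]

theorem nu_three (hU : IsOpen U) (hF : ContDiffOn ℝ ∞ F U)
    (himm : ∀ u ∈ U, Function.Injective (fderiv ℝ F u)) {u : E} (hu : u ∈ U) (x y z : E)
    (s t : ℝ) :
    nu F (Gam F) u (x + s • y + t • z) (x + s • y + t • z)
      = nu F (Gam F) u x x + (s ^ 2) • nu F (Gam F) u y y + (t ^ 2) • nu F (Gam F) u z z
        + (2 * s) • nu F (Gam F) u x y + (2 * t) • nu F (Gam F) u x z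
        + (2 * (s * t)) • nu F (Gam F) u y z := by
  have hadd : ∀ a b d, nu F (Gam F) u (a + b) d = nu F (Gam F) u a d + nu F (Gam F) u b d := by
    intro a b d
    rw [nu_symm hU hF himm hu, nu_add hU hF himm hu, nu_symm hU hF himm hu d a,
      nu_symm hU hF himm hu d b]
  have hsm : ∀ (r : ℝ) a d, nu F (Gam F) u (r • a) d = r • nu F (Gam F) u a d := by
    intro r a d
    rw [nu_symm hU hF himm hu, nu_smul hU hF himm hu, nu_symm hU hF himm hu d a]
  rw [hadd, hadd, hsm, hsm]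
  simp only [nu_add hU hF himm hu, nu_smul hU hF himm hu]
  rw [nu_symm hU hF himm hu y x, nu_symm hU hF himm hu z x, nu_symm hU hF himm hu z y]
  module

theorem gi_three (F : E → V) (u x y z : E) (s t L : ℝ) (hxy : gi F u x y = 0)
    (hxz : gi F u x z = 0) (hyz : gi F u y z = 0) (hx : gi F u x x = L) (hy : gi F u y y = L)
    (hz : gi F u z z = L) :
    gi F u (x + s • y + t • z) (x + s • y + t • z) = (1 + s ^ 2 + t ^ 2) * L := by
  have hyx : gi F u y x = 0 := by rw [gi_symm, hxy]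
  have hzx : gi F u z x = 0 := by rw [gi_symm, hxz]
  have hzy : gi F u z y = 0 := by rw [gi_symm, hyz]
  simp only [gi_add_left, gi_add_right, gi_smul_left, gi_smul_right, hxy, hxz, hyz, hyx, hzx,
    hzy, hx, hy, hz]
  ring

/-- The three curvatures in a coordinate 3-plane add up to a positive number. -/
theorem sum_pos (hU : IsOpen U) (hF : ContDiffOn ℝ ∞ F U)
    (himm : ∀ u ∈ U, Function.Injective (fderiv ℝ F u)) {u : E} (hu : u ∈ U) {c : ℝ}
    (hc : c ^ 2 < 9 / 5) (hc0 : 0 ≤ c)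
    (hA : ∀ v, ‖nu F (Gam F) u v v‖ ≤ c * gi F u v v)
    (hτ : tau F u ≤ 4 / 5 * (1 - ‖F u‖ ^ 2)) {x y z : E} {L : ℝ} (hL : 0 < L)
    (hxy : gi F u x y = 0)
    (hxz : gi F u x z = 0) (hyz : gi F u y z = 0) (hx : gi F u x x = L) (hy : gi F u y y = L)
    (hz : gi F u z z = L) :
    0 < gi F u (curvature (cGam F) u x y y) x + gi F u (curvature (cGam F) u x z z) x
      + gi F u (curvature (cGam F) u y z z) y := by
  rw [curv_conf hU hF himm hu hxy hx hy, curv_conf hU hF himm hu hxz hx hz,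
    curv_conf hU hF himm hu hyz hy hz]
  have bd : ∀ v (q : ℝ), gi F u v v = q → 0 ≤ q →
      ‖nu F (Gam F) u v v‖ ^ 2 ≤ c ^ 2 * q ^ 2 := by
    intro v q hv hq
    have h := hA v
    rw [hv] at h
    have := pow_le_pow_left₀ (norm_nonneg _) h 2
    rw [mul_pow] at this
    exact this
  have b0 := bd x L hx hL.le
  have b1 := bd y L hy hL.le
  have b2 := bd z L hz hL.le
  have b3 := bd _ _ (gi_three F u x y z 1 1 L hxy hxz hyz hx hy hz) (by positivity)
  have b4 := bd _ _ (gi_three F u x y z 1 (-1) L hxy hxz hyz hx hy hz) (by positivity)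
  have b5 := bd _ _ (gi_three F u x y z (-1) 1 L hxy hxz hyz hx hy hz) (by positivity)
  have b6 := bd _ _ (gi_three F u x y z (-1) (-1) L hxy hxz hyz hx hy hz) (by positivity)
  rw [nu_three hU hF himm hu] at b3 b4 b5 b6
  set a0 := nu F (Gam F) u x x
  set a1 := nu F (Gam F) u y y
  set a2 := nu F (Gam F) u z z
  set A := nu F (Gam F) u x y
  set B := nu F (Gam F) u x z
  set C := nu F (Gam F) u y z
  set w := wn F u
  have key := est (c := c) (L := L) (r := ‖F u‖ ^ 2) (τ := tau F u) (a0 := a0) (a1 := a1)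
    (a2 := a2) (A := A) (B := B) (C := C) (w := w) hc hL b0 b1 b2
    (by
      refine le_trans (le_of_eq ?_) (le_trans b3 (le_of_eq ?_))
      · congr 2
        module
      · ring)
    (by
      refine le_trans (le_of_eq ?_) (le_trans b4 (le_of_eq ?_))
      · congr 2
        module
      · ring)
    (by
      refine le_trans (le_of_eq ?_) (le_trans b5 (le_of_eq ?_))
      · congr 2
        module
      · ring)
    (by
      refine le_trans (le_of_eq ?_) (le_trans b6 (le_of_eq ?_))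
      · congr 2
        module
      · ring)
    (wn_norm himm hu) hτ
  rw [inner_add_right, inner_add_right] at key
  have q1 : 0 ≤ fderiv ℝ (psi F) u x ^ 2 * L := by positivity
  have q2 : 0 ≤ fderiv ℝ (psi F) u y ^ 2 * L := by positivity
  have q3 : 0 ≤ fderiv ℝ (psi F) u z ^ 2 * L := by positivity
  nlinarith [key, q1, q2, q3]

end Q186.SM
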