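import Mathlib
import Pool.Agent.Q186.SM.Three

/-! A horosphere of the complex hyperbolic plane: coordinates and the moving frame. -/

open Set Matrix Module
open scoped ContDiff

attribute [local instance] Matrix.linftyOpNormedRing Matrix.linftyOpNormedAlgebra

namespace Q186.SM.Horo

/-- vectors of `ℂ^{2+1}` -/
abbrev Vec := Fin 2 ⊕ Fin 1 → ℂ

/-- coordinates -/
noncomputable def co (i : Fin 3) : Dom 1 →L[ℝ] ℝ :=
  (EuclideanSpace.proj (𝕜 := ℝ) (ι := Fin 3) i : EuclideanSpace ℝ (Fin 3) →L[ℝ] ℝ)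

/-- a vector with given coordinates -/
noncomputable def mk (a b c : ℝ) : Dom 1 :=
  (WithLp.toLp 2 ![a, b, c] : EuclideanSpace ℝ (Fin 3))

theorem co_mk0 (a b c : ℝ) : co 0 (mk a b c) = a := rfl
theorem co_mk1 (a b c : ℝ) : co 1 (mk a b c) = b := rfl
theorem co_mk2 (a b c : ℝ) : co 2 (mk a b c) = c := rfl

theorem dom_ext {x y : Dom 1} (h : ∀ i, co i x = co i y) : x = y := by
  exact PiLp.ext (p := 2) (ι := Fin 3) (α := fun _ => ℝ) h

/-- the complex coordinate `z` -/
noncomputable def zf : Dom 1 →L[ℝ] ℂ :=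
  Complex.ofRealCLM.comp (co 0) + Complex.I • Complex.ofRealCLM.comp (co 1)

/-- its conjugate -/
noncomputable def zb : Dom 1 →L[ℝ] ℂ :=
  Complex.ofRealCLM.comp (co 0) - Complex.I • Complex.ofRealCLM.comp (co 1)

/-- the vertical coordinate -/
noncomputable def tf : Dom 1 →L[ℝ] ℂ := Complex.ofRealCLM.comp (co 2)

theorem zf_apply (x : Dom 1) : zf x = (co 0 x : ℂ) + Complex.I * (co 1 x : ℂ) := by
  simp [zf]

theorem zb_apply (x : Dom 1) : zb x = (co 0 x : ℂ) - Complex.I * (co 1 x : ℂ) := by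
  simp [zb]

theorem tf_apply (x : Dom 1) : tf x = (co 2 x : ℂ) := by
  simp [tf]

/-- `|z|² / 2 + i t` -/
noncomputable def sf (u : Dom 1) : ℂ := (1 / 2) * (zf u * zb u) + Complex.I * tf u

/-- its derivative -/
noncomputable def dsf (u : Dom 1) : Dom 1 →L[ℝ] ℂ :=
  (1 / 2 : ℂ) • (zf u • zb + zb u • zf) + Complex.I • tf

theorem dsf_apply (u x : Dom 1) :
    dsf u x = (1 / 2) * (zf u * zb x + zb u * zf x) + Complex.I * tf x := by
  simp [dsf]
  ring

theorem hasFDerivAt_sf (u : Dom 1) : HasFDerivAt sf (dsf u) u := by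
  have h1 := zf.hasFDerivAt (x := u)
  have h2 := zb.hasFDerivAt (x := u)
  have h3 := tf.hasFDerivAt (x := u)
  exact ((h1.mul h2).const_mul (1 / 2)).add (h3.const_mul Complex.I)

theorem contDiff_sf : ContDiff ℝ ∞ sf :=
  (contDiff_const.mul (zf.contDiff.mul zb.contDiff)).add (contDiff_const.mul tf.contDiff)

/-- the null vector at infinity -/
def pv : Vec := Sum.elim ![0, 1] ![1]

/-- the unit negative vector -/
noncomputable def vf (u : Dom 1) : Vec := Sum.elim ![zf u, sf u] ![1 + sf u]

/-- the first frame vector -/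
noncomputable def wf (u : Dom 1) : Vec := vf u - pv

/-- the second frame vector -/
noncomputable def w2 (u : Dom 1) : Vec := Sum.elim ![1, zb u] ![zb u]

/-- derivative of `vf` -/
noncomputable def dvf (u : Dom 1) : Dom 1 →L[ℝ] Vec :=
  ContinuousLinearMap.pi (Sum.elim ![zf, dsf u] ![dsf u])

theorem hasFDerivAt_vf (u : Dom 1) : HasFDerivAt vf (dvf u) u := by
  rw [hasFDerivAt_pi']
  intro i
  rcases i with i | i
  · fin_cases i
    · exact zf.hasFDerivAt
    · exact hasFDerivAt_sf u
  · fin_cases i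
    exact (hasFDerivAt_sf u).const_add 1

theorem contDiff_vf : ContDiff ℝ ∞ vf := by
  rw [contDiff_pi]
  intro i
  rcases i with i | i
  · fin_cases i
    · exact zf.contDiff
    · exact contDiff_sf
  · fin_cases i
    exact contDiff_const.add contDiff_sf

theorem contDiff_wf : ContDiff ℝ ∞ wf := contDiff_vf.sub contDiff_const

theorem hasFDerivAt_wf (u : Dom 1) : HasFDerivAt wf (dvf u) u :=
  (hasFDerivAt_vf u).sub_const pv

theorem contDiff_w2 : ContDiff ℝ ∞ w2 := by
  rw [contDiff_pi]
  intro i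
  rcases i with i | i
  · fin_cases i
    · exact contDiff_const
    · exact zb.contDiff
  · fin_cases i
    exact zb.contDiff

/-- the contact form -/
noncomputable def om (u x : Dom 1) : ℝ := co 2 x - (co 0 u * co 1 x - co 1 u * co 0 x)

theorem dvf_eq (u x : Dom 1) :
    dvf u x = zf x • w2 u + (Complex.I * (om u x : ℂ)) • (vf u - wf u) := by
  have hp : vf u - wf u = pv := by simp [wf]
  rw [hp]
  funext i
  rcases i with i | i
  · fin_cases i
    · simp [dvf, w2, pv]
    · simp only [dvf, w2, pv, dsf_apply, ContinuousLinearMap.coe_pi', Sum.elim_inl, Pi.add_apply,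
        Pi.smul_apply, smul_eq_mul, Fin.mk_one, Matrix.cons_val_one, Matrix.cons_val_fin_one,
        zf_apply, zb_apply, tf_apply, om]
      push_cast
      linear_combination ((1/2 : ℂ) * 0) * Complex.I_mul_I
  · fin_cases i
    simp only [dvf, w2, pv, dsf_apply, ContinuousLinearMap.coe_pi', Sum.elim_inr, Pi.add_apply,
        Pi.smul_apply, smul_eq_mul, Fin.zero_eta, Matrix.cons_val_fin_one,
        zf_apply, zb_apply, tf_apply, om]
    push_cast
    linear_combination ((1/2 : ℂ) * 0) * Complex.I_mul_I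

end Q186.SM.Horo
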