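import Mathlib
import Pool.Agent.Q186.SM.OneA

/-! A horosphere of the complex hyperbolic plane: the immersion and the unit normal. -/

open Set Matrix Module
open scoped ContDiff

attribute [local instance] Matrix.linftyOpNormedRing Matrix.linftyOpNormedAlgebra

namespace Q186.SM.Horo

theorem hneg : (-1 : ℝ) = 1 ∨ (-1 : ℝ) = -1 := Or.inr rfl

theorem hh_coords (a b : Vec) : hh (-1) a b
    = star (a (Sum.inl 0)) * b (Sum.inl 0) + star (a (Sum.inl 1)) * b (Sum.inl 1)
      - star (a (Sum.inr 0)) * b (Sum.inr 0) := by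
  unfold hh form
  simp only [dotProduct, Matrix.mulVec, Fintype.sum_sum_type, Matrix.fromBlocks_apply₁₁,
    Matrix.fromBlocks_apply₁₂, Matrix.fromBlocks_apply₂₁, Matrix.fromBlocks_apply₂₂,
    Matrix.zero_apply, zero_mul, Finset.sum_const_zero, add_zero, zero_add, Pi.star_apply,
    Matrix.smul_apply, Matrix.one_apply, smul_eq_mul, mul_ite, mul_one, mul_zero, ite_mul,
    one_mul, Finset.sum_ite_eq, Finset.mem_univ, if_true, Fin.sum_univ_two,
    Fin.sum_univ_one]
  simp
  ring

theorem star_zf (u : Dom 1) : star (zf u) = zb u := by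
  rw [zf_apply, zb_apply]
  simp
  ring

theorem star_zb (u : Dom 1) : star (zb u) = zf u := by
  rw [← star_zf, star_star]

theorem star_sf (u : Dom 1) : star (sf u) = zf u * zb u - sf u := by
  have h : star (tf u) = tf u := by
    rw [tf_apply]
    simp
  unfold sf
  rw [star_add, star_mul', star_mul', star_mul', star_zf, star_zb, h]
  simp
  ring

variable (u : Dom 1)

theorem h_vv : hh (-1) (vf u) (vf u) = -1 := by
  rw [hh_coords]
  simp only [vf, Sum.elim_inl, Sum.elim_inr, Matrix.cons_val_zero, Matrix.cons_val_one,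
    Matrix.cons_val_fin_one, star_add, star_one, star_zf, star_sf]
  ring

theorem h_vw : hh (-1) (vf u) (wf u) = 0 := by
  rw [hh_coords]
  simp only [wf, pv, vf, Sum.elim_inl, Sum.elim_inr, Matrix.cons_val_zero, Matrix.cons_val_one,
    Matrix.cons_val_fin_one, star_add, star_one, star_zf, star_sf, Pi.sub_apply]
  ring

theorem h_wv : hh (-1) (wf u) (vf u) = 0 := by
  rw [← hh_star hneg, h_vw, star_zero]

theorem h_ww : hh (-1) (wf u) (wf u) = 1 := by
  rw [hh_coords]
  simp only [wf, pv, vf, Sum.elim_inl, Sum.elim_inr, Matrix.cons_val_zero, Matrix.cons_val_one,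
    Matrix.cons_val_fin_one, star_add, star_sub, star_one, star_zf, star_sf, Pi.sub_apply,
    star_zero]
  ring

theorem h_2v : hh (-1) (w2 u) (vf u) = 0 := by
  rw [hh_coords]
  simp only [w2, vf, Sum.elim_inl, Sum.elim_inr, Matrix.cons_val_zero, Matrix.cons_val_one,
    Matrix.cons_val_fin_one, star_one, star_zb]
  ring

theorem h_v2 : hh (-1) (vf u) (w2 u) = 0 := by
  rw [← hh_star hneg, h_2v, star_zero]

theorem h_2w : hh (-1) (w2 u) (wf u) = 0 := by
  rw [hh_coords]
  simp only [w2, wf, pv, vf, Sum.elim_inl, Sum.elim_inr, Matrix.cons_val_zero,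
    Matrix.cons_val_one, Matrix.cons_val_fin_one, star_one, star_zb, Pi.sub_apply]
  ring

theorem h_w2 : hh (-1) (wf u) (w2 u) = 0 := by
  rw [← hh_star hneg, h_2w, star_zero]

theorem h_22 : hh (-1) (w2 u) (w2 u) = 1 := by
  rw [hh_coords]
  simp only [w2, Sum.elim_inl, Sum.elim_inr, Matrix.cons_val_zero,
    Matrix.cons_val_one, Matrix.cons_val_fin_one, star_one, star_zb]
  ring

theorem rk_apply' (a f : Vec) (i j : Fin 2 ⊕ Fin 1) :
    rk (-1) a f i j = a i * star (f j) * (if j = Sum.inr 0 then -1 else 1) := by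
  unfold rk
  rw [Matrix.vecMulVec_apply, mul_assoc]
  congr 1
  unfold form
  rcases j with j | j
  · fin_cases j <;>
    simp [Matrix.vecMul, dotProduct, Fintype.sum_sum_type, Matrix.one_apply]
  · fin_cases j
    simp [Matrix.vecMul, dotProduct, Fintype.sum_sum_type, Matrix.one_apply]

theorem complete : rk (-1) (wf u) (wf u) + rk (-1) (w2 u) (w2 u) - rk (-1) (vf u) (vf u)
    = (1 : Mat 1) := by
  ext i j
  simp only [Matrix.sub_apply, Matrix.add_apply, rk_apply']
  rcases i with i | i <;> rcases j with j | j <;> fin_cases i <;> fin_cases j <;>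
  simp only [w2, wf, pv, vf, Sum.elim_inl, Sum.elim_inr, Matrix.cons_val_zero,
    Matrix.cons_val_one, Matrix.cons_val_fin_one, star_one, star_zb, star_zf, star_sf,
    Pi.sub_apply, star_sub, star_add, star_zero, Fin.mk_one, Fin.zero_eta, Matrix.one_apply] <;>
  simp <;> ring

/-- the hypersurface -/
noncomputable def Fh (u : Dom 1) : Mat 1 := 1 + rk (-1) (vf u) (vf u)

theorem Fh_eq : Fh u = rk (-1) (wf u) (wf u) + rk (-1) (w2 u) (w2 u) := by
  unfold Fh
  rw [← complete u]
  abel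

theorem Fh_v : Fh u *ᵥ vf u = 0 := by
  rw [Fh_eq, Matrix.add_mulVec, rk_mulVec, rk_mulVec, h_wv, h_2v]
  simp

theorem Fh_w : Fh u *ᵥ wf u = wf u := by
  rw [Fh_eq, Matrix.add_mulVec, rk_mulVec, rk_mulVec, h_ww, h_2w]
  simp

theorem Fh_2 : Fh u *ᵥ w2 u = w2 u := by
  rw [Fh_eq, Matrix.add_mulVec, rk_mulVec, rk_mulVec, h_w2, h_22]
  simp

theorem adj_Fh : adj (-1) (Fh u) = Fh u := by
  rw [Fh_eq, adj_add, adj_rk hneg, adj_rk hneg]

theorem Fh_idem : Fh u * Fh u = Fh u := by
  have h : Fh u * Fh u = Fh u * (rk (-1) (wf u) (wf u) + rk (-1) (w2 u) (w2 u)) := by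
    rw [← Fh_eq]
  rw [h, Matrix.mul_add, mul_rk, mul_rk, Fh_w, Fh_2, ← Fh_eq]

theorem Fh_mem : Fh u ∈ Gr (-1) 1 := by
  refine ⟨Fh_idem u, adj_Fh u, ?_, ?_⟩
  · have hker : LinearMap.ker (Matrix.mulVecLin (Fh u)) = Submodule.span ℂ {vf u} := by
      ext x
      rw [LinearMap.mem_ker, Matrix.mulVecLin_apply, Submodule.mem_span_singleton]
      constructor
      · intro h
        refine ⟨-(hh (-1) (vf u) x), ?_⟩
        have h1 : Fh u *ᵥ x = x + hh (-1) (vf u) x • vf u := by
          unfold Fh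
          rw [Matrix.add_mulVec, Matrix.one_mulVec, rk_mulVec]
        rw [h] at h1
        rw [neg_smul]
        exact (eq_neg_of_add_eq_zero_left h1.symm).symm
      · rintro ⟨a, rfl⟩
        rw [Matrix.mulVec_smul, Fh_v, smul_zero]
    have hv0 : vf u ≠ 0 := by
      intro h
      have := h_vv u
      rw [h, hh_zero_left] at this
      norm_num at this
    have h1 := LinearMap.finrank_range_add_finrank_ker (Matrix.mulVecLin (Fh u))
    rw [hker, finrank_span_singleton hv0] at h1
    have h2 : finrank ℂ (LinearMap.range (Matrix.mulVecLin (Fh u))) = 2 := by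
      simp at h1
      omega
    exact h2
  · intro x hx
    have h1 : Fh u *ᵥ x = hh (-1) (wf u) x • wf u + hh (-1) (w2 u) x • w2 u := by
      rw [Fh_eq, Matrix.add_mulVec, rk_mulVec, rk_mulVec]
    have h2 : hh (-1) (Fh u *ᵥ x) (Fh u *ᵥ x)
        = ((‖hh (-1) (wf u) x‖ ^ 2 + ‖hh (-1) (w2 u) x‖ ^ 2 : ℝ) : ℂ) := by
      rw [h1]
      simp only [hh_add_left, hh_add_right, hh_smul_left, hh_smul_right, h_ww, h_w2, h_2w, h_22]
      have key : ∀ z : ℂ, star z * z = ((‖z‖ ^ 2 : ℝ) : ℂ) := by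
        intro z
        rw [Complex.star_def, Complex.conj_mul']
        push_cast
        rfl
      push_cast
      have k1 := key (hh (-1) (wf u) x)
      have k2 := key (hh (-1) (w2 u) x)
      push_cast at k1 k2
      linear_combination k1 + k2
    change 0 < (hh (-1) (Fh u *ᵥ x) (Fh u *ᵥ x)).re
    rw [h2, Complex.ofReal_re]
    by_contra hcon
    have h3 : ‖hh (-1) (wf u) x‖ ^ 2 + ‖hh (-1) (w2 u) x‖ ^ 2 = 0 :=
      le_antisymm (not_lt.mp hcon) (by positivity)
    have h4 : ‖hh (-1) (wf u) x‖ ^ 2 = 0 := by nlinarith [sq_nonneg ‖hh (-1) (w2 u) x‖, sq_nonneg ‖hh (-1) (wf u) x‖]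
    have h5 : ‖hh (-1) (w2 u) x‖ ^ 2 = 0 := by nlinarith [sq_nonneg ‖hh (-1) (w2 u) x‖, sq_nonneg ‖hh (-1) (wf u) x‖]
    have h6 : hh (-1) (wf u) x = 0 := by simpa using h4
    have h7 : hh (-1) (w2 u) x = 0 := by simpa using h5
    apply hx
    rw [h1, h6, h7]
    simp

end Q186.SM.Horo
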