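import Mathlib
import Pool.Agent.Q186.SM.OneB
import Pool.Agent.Q186.SM.Core

/-! A horosphere of the complex hyperbolic plane: metric, connection, shape operator. -/

open Set Matrix Module
open scoped ContDiff

attribute [local instance] Matrix.linftyOpNormedRing Matrix.linftyOpNormedAlgebra

namespace Q186.SM.Horo

theorem rsm (r : ℝ) (x : Vec) : r • x = (r : ℂ) • x := by
  ext i
  simp

theorem rsmM (r : ℝ) (x : Mat 1) : r • x = (r : ℂ) • x := by
  ext i j
  simp

/-- the real bilinear map `(a, f) ↦ rk a f` -/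
noncomputable def Bl : Vec →ₗ[ℝ] Vec →ₗ[ℝ] Mat 1 :=
  LinearMap.mk₂ ℝ (fun a f => rk (-1) a f) (fun a b f => rk_add_left a b f)
    (fun r a f => by rw [rsm, rk_smul_left, rsmM]) (fun a f g => rk_add_right a f g)
    (fun r a f => by rw [rsm, rk_smul_right, rsmM, Complex.star_def, Complex.conj_ofReal])

/-- its continuous version -/
noncomputable def B : Vec →L[ℝ] Vec →L[ℝ] Mat 1 := Bl.toContinuousBilinearMap

theorem B_apply (a f : Vec) : B a f = rk (-1) a f := rfl

theorem hasFDerivAt_rk {a f : Dom 1 → Vec} {a' f' : Dom 1 →L[ℝ] Vec} {u : Dom 1}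
    (ha : HasFDerivAt a a' u) (hf : HasFDerivAt f f' u) :
    HasFDerivAt (fun p => rk (-1) (a p) (f p))
      (B.precompR (Dom 1) (a u) f' + B.precompL (Dom 1) a' (f u)) u :=
  B.hasFDerivAt_of_bilinear ha hf

theorem contDiff_rk {a f : Dom 1 → Vec} (ha : ContDiff ℝ ∞ a) (hf : ContDiff ℝ ∞ f) :
    ContDiff ℝ ∞ (fun p => rk (-1) (a p) (f p)) := by
  exact (B.isBoundedBilinearMap.contDiff (n := ∞)).comp (ha.prodMk hf)

/-- the unscaled unit normal -/
noncomputable def Nh (s : ℝ) (u : Dom 1) : Mat 1 :=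
  s • (rk (-1) (wf u) (vf u) + rk (-1) (vf u) (wf u))

theorem contDiff_Fh : ContDiff ℝ ∞ Fh := contDiff_const.add (contDiff_rk contDiff_vf contDiff_vf)

theorem contDiff_Nh (s : ℝ) : ContDiff ℝ ∞ (Nh s) :=
  ((contDiff_rk contDiff_wf contDiff_vf).add (contDiff_rk contDiff_vf contDiff_wf)).const_smul s

theorem dF_Fh (u x : Dom 1) : dF Fh u x
    = rk (-1) (vf u) (dvf u x) + rk (-1) (dvf u x) (vf u) := by
  have h := (hasFDerivAt_rk (hasFDerivAt_vf u) (hasFDerivAt_vf u)).const_add (1 : Mat 1)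
  unfold dF
  have h2 : HasFDerivAt Fh _ u := h
  rw [h2.fderiv]
  rfl

theorem dF_Nh (s : ℝ) (u x : Dom 1) : dF (Nh s) u x
    = s • (rk (-1) (wf u) (dvf u x) + rk (-1) (dvf u x) (vf u)
      + (rk (-1) (vf u) (dvf u x) + rk (-1) (dvf u x) (wf u))) := by
  have h := ((hasFDerivAt_rk (hasFDerivAt_wf u) (hasFDerivAt_vf u)).add
    (hasFDerivAt_rk (hasFDerivAt_vf u) (hasFDerivAt_wf u))).const_smul s
  unfold dF
  have h2 : HasFDerivAt (Nh s) _ u := h
  rw [h2.fderiv]
  rfl

/-- `dF` in the moving frame -/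
theorem dF_eq (u x : Dom 1) : dF Fh u x
    = zf x • rk (-1) (w2 u) (vf u) + zb x • rk (-1) (vf u) (w2 u)
      + (Complex.I * (om u x : ℂ)) • (rk (-1) (vf u) (wf u) - rk (-1) (wf u) (vf u)) := by
  rw [dF_Fh, dvf_eq]
  have hneg : ∀ x y : Vec, rk (-1) (-x) y = - rk (-1) x y := by
    intro x y
    have := rk_smul_left (ε := -1) (-1) x y
    simpa using this
  have hneg' : ∀ x y : Vec, rk (-1) x (-y) = - rk (-1) x y := by
    intro x y
    have := rk_smul_right (ε := -1) (-1) x y
    simpa using this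
  simp only [sub_eq_add_neg, rk_add_left, rk_add_right, rk_smul_left, rk_smul_right, hneg,
    hneg', star_zf, star_mul', Complex.star_def, Complex.conj_I, Complex.conj_ofReal]
  module

/-- the component of `dvf` in the image -/
noncomputable def av (u x : Dom 1) : Vec :=
  zf x • w2 u - (Complex.I * (om u x : ℂ)) • wf u

theorem dF_av (u x : Dom 1) : dF Fh u x = rk (-1) (av u x) (vf u) + rk (-1) (vf u) (av u x) := by
  rw [dF_eq, av]
  have hneg : ∀ x y : Vec, rk (-1) (-x) y = - rk (-1) x y := by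
    intro x y
    have := rk_smul_left (ε := -1) (-1) x y
    simpa using this
  have hneg' : ∀ x y : Vec, rk (-1) x (-y) = - rk (-1) x y := by
    intro x y
    have := rk_smul_right (ε := -1) (-1) x y
    simpa using this
  simp only [sub_eq_add_neg, rk_add_left, rk_add_right, rk_smul_left, rk_smul_right, hneg,
    hneg', star_zf, star_mul', Complex.star_def, Complex.conj_I, Complex.conj_ofReal]
  module

theorem av_im (u x : Dom 1) : Fh u *ᵥ av u x = av u x := by
  rw [av, Matrix.mulVec_sub, Matrix.mulVec_smul, Matrix.mulVec_smul, Fh_w, Fh_2]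

theorem h_av_v (u x : Dom 1) : hh (-1) (av u x) (vf u) = 0 :=
  hh_im_ker hneg (adj_Fh u) (av_im u x) (Fh_v u)

theorem h_v_av (u x : Dom 1) : hh (-1) (vf u) (av u x) = 0 :=
  hh_ker_im hneg (adj_Fh u) (av_im u x) (Fh_v u)

theorem h_av_av (u x y : Dom 1) : hh (-1) (av u x) (av u y)
    = zb x * zf y + (om u x : ℂ) * (om u y : ℂ) := by
  unfold av
  simp only [sub_eq_add_neg, hh_add_left, hh_add_right, hh_neg_left, hh_neg_right, hh_smul_left,
    hh_smul_right, h_22, h_2w, h_w2, h_ww, star_zf, star_mul', Complex.star_def, Complex.conj_I,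
    Complex.conj_ofReal]
  linear_combination (-(om u x : ℂ) * (om u y : ℂ)) * Complex.I_mul_I

/-- trace of a product of two tangent vectors -/
theorem trace_tv {u : Dom 1} {a b : Vec} (ha : hh (-1) (vf u) a = 0)
    (hb : hh (-1) (vf u) b = 0) :
    Matrix.trace ((rk (-1) a (vf u) + rk (-1) (vf u) a) * (rk (-1) b (vf u) + rk (-1) (vf u) b))
      = -(hh (-1) a b + hh (-1) b a) := by
  have ha' : hh (-1) a (vf u) = 0 := by rw [← hh_star hneg, ha, star_zero]
  have hb' : hh (-1) b (vf u) = 0 := by rw [← hh_star hneg, hb, star_zero]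
  rw [Matrix.mul_add, mul_rk, mul_rk, Matrix.add_mulVec, Matrix.add_mulVec, rk_mulVec, rk_mulVec,
    rk_mulVec, rk_mulVec, hb, h_vv, ha', Matrix.trace_add, trace_rk, trace_rk]
  simp only [hh_add_right, hh_smul_right, h_vv, ha, hb, hb', ha']
  ring

theorem gm_dF (c : ℝ) (u x y : Dom 1) : gm (-1) c (dF Fh u x) (dF Fh u y)
    = 2 * c * (co 0 x * co 0 y + co 1 x * co 1 y + om u x * om u y) := by
  unfold gm
  rw [dF_av, dF_av, trace_tv (h_v_av u x) (h_v_av u y), h_av_av, h_av_av]
  simp only [zf_apply, zb_apply]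
  simp
  ring

end Q186.SM.Horo
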