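import Mathlib
import Pool.Agent.Q186.SM.OneC

/-! A horosphere of the complex hyperbolic plane: connection, shape operator, curvature. -/

open Set Matrix Module
open scoped ContDiff

attribute [local instance] Matrix.linftyOpNormedRing Matrix.linftyOpNormedAlgebra

namespace Q186.SM.Horo

theorem mk_eq (a b c : ℝ) : mk a b c = a • mk 1 0 0 + b • mk 0 1 0 + c • mk 0 0 1 := by
  apply dom_ext
  intro i
  simp only [map_add, map_smul, smul_eq_mul]
  fin_cases i
  · change a = a * 1 + b * 0 + c * 0
    ring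
  · change b = a * 0 + b * 1 + c * 0
    ring
  · change c = a * 0 + b * 0 + c * 1
    ring

/-- the Christoffel map of the horosphere -/
noncomputable def Gh (u x y : Dom 1) : Dom 1 :=
  mk (om u x * co 1 y + om u y * co 1 x) (-(om u x * co 0 y + om u y * co 0 x))
    (-(om u x * co 1 y + om u y * co 1 x) * co 1 u - (om u x * co 0 y + om u y * co 0 x) * co 0 u)

/-- the shape operator of the horosphere -/
noncomputable def Ah (s : ℝ) (u x : Dom 1) : Dom 1 := (-s) • (x + om u x • mk 0 0 1)

/-- derivative of the contact form -/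
noncomputable def dom (y : Dom 1) : Dom 1 →L[ℝ] ℝ := -(co 1 y • co 0 - co 0 y • co 1)

theorem dom_apply (y x : Dom 1) : dom y x = -(co 0 x * co 1 y - co 1 x * co 0 y) := by
  simp [dom]
  ring

theorem hasFDerivAt_om (u y : Dom 1) : HasFDerivAt (fun p => om p y) (dom y) u := by
  have h0 := (co 0).hasFDerivAt (x := u)
  have h1 := (co 1).hasFDerivAt (x := u)
  have h := ((h0.mul_const (co 1 y)).sub (h1.mul_const (co 0 y))).const_sub (co 2 y)
  exact h

theorem contDiff_om (y : Dom 1) : ContDiff ℝ ∞ (fun p => om p y) :=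
  contDiff_const.sub (((co 0).contDiff.mul contDiff_const).sub
    ((co 1).contDiff.mul contDiff_const))

theorem om_add (u x y : Dom 1) : om u (x + y) = om u x + om u y := by
  simp only [om, map_add]
  ring

theorem om_smul (u : Dom 1) (t : ℝ) (x : Dom 1) : om u (t • x) = t * om u x := by
  simp only [om, map_smul, smul_eq_mul]
  ring

theorem Gh_add (u x y z : Dom 1) : Gh u x (y + z) = Gh u x y + Gh u x z := by
  apply dom_ext
  intro i
  rw [map_add]
  fin_cases i
  · change (om u x * co 1 (y + z) + om u (y + z) * co 1 x) = _ + _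
    change _ = (om u x * co 1 y + om u y * co 1 x) + (om u x * co 1 z + om u z * co 1 x)
    rw [om_add, map_add]
    ring
  · change -(om u x * co 0 (y + z) + om u (y + z) * co 0 x)
      = -(om u x * co 0 y + om u y * co 0 x) + -(om u x * co 0 z + om u z * co 0 x)
    rw [om_add, map_add]
    ring
  · change -(om u x * co 1 (y + z) + om u (y + z) * co 1 x) * co 1 u
        - (om u x * co 0 (y + z) + om u (y + z) * co 0 x) * co 0 u
      = (-(om u x * co 1 y + om u y * co 1 x) * co 1 u
        - (om u x * co 0 y + om u y * co 0 x) * co 0 u)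
        + (-(om u x * co 1 z + om u z * co 1 x) * co 1 u
        - (om u x * co 0 z + om u z * co 0 x) * co 0 u)
    rw [om_add, map_add, map_add]
    ring

theorem Gh_smul (u : Dom 1) (t : ℝ) (x y : Dom 1) : Gh u x (t • y) = t • Gh u x y := by
  apply dom_ext
  intro i
  rw [map_smul, smul_eq_mul]
  fin_cases i
  · change (om u x * co 1 (t • y) + om u (t • y) * co 1 x)
      = t * (om u x * co 1 y + om u y * co 1 x)
    rw [om_smul, map_smul, smul_eq_mul]
    ring
  · change -(om u x * co 0 (t • y) + om u (t • y) * co 0 x)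
      = t * -(om u x * co 0 y + om u y * co 0 x)
    rw [om_smul, map_smul, smul_eq_mul]
    ring
  · change -(om u x * co 1 (t • y) + om u (t • y) * co 1 x) * co 1 u
        - (om u x * co 0 (t • y) + om u (t • y) * co 0 x) * co 0 u
      = t * (-(om u x * co 1 y + om u y * co 1 x) * co 1 u
        - (om u x * co 0 y + om u y * co 0 x) * co 0 u)
    rw [om_smul, map_smul, map_smul, smul_eq_mul, smul_eq_mul]
    ring

theorem Gh_symm (u x y : Dom 1) : Gh u x y = Gh u y x := by
  unfold Gh
  congr 1
  · ring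
  · ring
  · ring

theorem om_Gh (u x y : Dom 1) : om u (Gh u x y) = 0 := by
  have h0 : co 0 (Gh u x y) = om u x * co 1 y + om u y * co 1 x := rfl
  have h1 : co 1 (Gh u x y) = -(om u x * co 0 y + om u y * co 0 x) := rfl
  have h2 : co 2 (Gh u x y) = -(om u x * co 1 y + om u y * co 1 x) * co 1 u
    - (om u x * co 0 y + om u y * co 0 x) * co 0 u := rfl
  rw [om, h0, h1, h2]
  ring

theorem contDiff_Gh (y z : Dom 1) : ContDiff ℝ ∞ (fun u => Gh u y z) := by
  have hP : ContDiff ℝ ∞ (fun u => om u y * co 1 z + om u z * co 1 y) :=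
    ((contDiff_om y).mul contDiff_const).add ((contDiff_om z).mul contDiff_const)
  have hQ : ContDiff ℝ ∞ (fun u => om u y * co 0 z + om u z * co 0 y) :=
    ((contDiff_om y).mul contDiff_const).add ((contDiff_om z).mul contDiff_const)
  have hR : ContDiff ℝ ∞ (fun u => -(om u y * co 1 z + om u z * co 1 y) * co 1 u
      - (om u y * co 0 z + om u z * co 0 y) * co 0 u) :=
    (hP.neg.mul (co 1).contDiff).sub (hQ.mul (co 0).contDiff)
  have h : (fun u => Gh u y z) = fun u => (om u y * co 1 z + om u z * co 1 y) • mk 1 0 0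
      + (-(om u y * co 0 z + om u z * co 0 y)) • mk 0 1 0
      + (-(om u y * co 1 z + om u z * co 1 y) * co 1 u
      - (om u y * co 0 z + om u z * co 0 y) * co 0 u) • mk 0 0 1 := by
    funext u
    exact mk_eq _ _ _
  rw [h]
  exact ((hP.smul contDiff_const).add (hQ.neg.smul contDiff_const)).add (hR.smul contDiff_const)

theorem levi (c : ℝ) :
    IsLeviCivita univ (fun u x y => gm (-1) c (dF Fh u x) (dF Fh u y)) Gh := by
  constructor
  · exact fun u _ x y z => Gh_add u x y z
  · exact fun u _ t x y => Gh_smul u t x y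
  · exact fun u _ x y => Gh_symm u x y
  · exact fun y z => (contDiff_Gh y z).contDiffOn
  · intro u _ x y z
    have h1 : (fun p => gm (-1) c (dF Fh p y) (dF Fh p z))
        = fun p => 2 * c * (co 0 y * co 0 z + co 1 y * co 1 z + om p y * om p z) := by
      funext p
      exact gm_dF c p y z
    have h2 := ((((hasFDerivAt_om u y).mul (hasFDerivAt_om u z)).const_add
      (co 0 y * co 0 z + co 1 y * co 1 z)).const_mul (2 * c)).fderiv
    have h3 : fderiv ℝ (fun p => 2 * c * (co 0 y * co 0 z + co 1 y * co 1 z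
      + om p y * om p z)) u = _ := h2
    rw [h1, h3, gm_dF, gm_dF, om_Gh, om_Gh]
    have g0 : ∀ a b, co 0 (Gh u a b) = om u a * co 1 b + om u b * co 1 a := fun _ _ => rfl
    have g1 : ∀ a b, co 1 (Gh u a b) = -(om u a * co 0 b + om u b * co 0 a) := fun _ _ => rfl
    rw [g0, g0, g1, g1]
    simp only [_root_.smul_apply, _root_.add_apply, smul_eq_mul, dom_apply]
    ring

/-- the curvature of the horosphere in the direction of the fibres -/
theorem curv_vert (u x y : Dom 1) (t : ℝ) :
    curvature Gh u x y (t • mk 0 0 1) = t • (om u y • x - om u x • y) := by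
  have hT : ∀ p, om p (mk 0 0 1) = 1 := by
    intro p
    have h0 : co 0 (mk 0 0 1) = 0 := rfl
    have h1 : co 1 (mk 0 0 1) = 0 := rfl
    have h2 : co 2 (mk 0 0 1) = 1 := rfl
    rw [om, h0, h1, h2]
    ring
  have hG : ∀ p y, Gh p y (t • mk 0 0 1) = t • mk (co 1 y) (-(co 0 y))
      (-(co 1 y * co 1 p) - co 0 y * co 0 p) := by
    intro p y
    rw [Gh_smul]
    congr 1
    have h0 : co 0 (mk 0 0 1) = 0 := rfl
    have h1 : co 1 (mk 0 0 1) = 0 := rfl
    unfold Gh
    rw [hT, h0, h1]
    congr 1
    · ring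
    · ring
    · ring
  have hD : ∀ x y, fderiv ℝ (fun p => Gh p y (t • mk 0 0 1)) u x
      = (t * (-(co 1 y * co 1 x) - co 0 y * co 0 x)) • mk 0 0 1 := by
    intro x y
    have h1 : (fun p => Gh p y (t • mk 0 0 1)) = fun p => (t • (co 1 y • mk 1 0 0
        + (-(co 0 y)) • mk 0 1 0)) + (t * (-(co 1 y * co 1 p) - co 0 y * co 0 p)) • mk 0 0 1 := by
      funext p
      rw [hG, mk_eq]
      simp only [smul_add, smul_smul]
    have h2 := (co 1).hasFDerivAt (x := u)
    have h3 := (co 0).hasFDerivAt (x := u)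
    have h4 := (((((h2.const_mul (co 1 y)).neg).sub (h3.const_mul (co 0 y))).const_mul
      t).smul_const (mk 0 0 1)).const_add (t • (co 1 y • mk 1 0 0 + (-(co 0 y)) • mk 0 1 0))
    rw [h1]
    have h5 : HasFDerivAt (fun p => (t • (co 1 y • mk 1 0 0
        + (-(co 0 y)) • mk 0 1 0)) + (t * (-(co 1 y * co 1 p) - co 0 y * co 0 p)) • mk 0 0 1)
        _ u := h4
    rw [h5.fderiv]
    simp
  unfold curvature
  rw [hD, hD, hG, hG, Gh_smul, Gh_smul]
  apply dom_ext
  intro i
  have c0 : ∀ a b c, co 0 (mk a b c) = a := fun _ _ _ => rfl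
  have c1 : ∀ a b c, co 1 (mk a b c) = b := fun _ _ _ => rfl
  have c2 : ∀ a b c, co 2 (mk a b c) = c := fun _ _ _ => rfl
  simp only [map_add, map_sub, map_smul, smul_eq_mul]
  fin_cases i
  · simp only [Gh, om, Fin.zero_eta, Fin.mk_one, Fin.reduceFinMk, c0, c1, c2]
    ring
  · simp only [Gh, om, Fin.zero_eta, Fin.mk_one, Fin.reduceFinMk, c0, c1, c2]
    ring
  · simp only [Gh, om, Fin.zero_eta, Fin.mk_one, Fin.reduceFinMk, c0, c1, c2]
    ring

end Q186.SM.Horo
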