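import Mathlib
import Pool.Agent.Q186.SM.OneD

/-! A horosphere of the complex hyperbolic plane is a real hypersurface whose structure vector
lies in a nullity distribution. -/

open Set Matrix Module
open scoped ContDiff

attribute [local instance] Matrix.linftyOpNormedRing Matrix.linftyOpNormedAlgebra

namespace Q186.SM.Horo

theorem Fh_tangent_form {u : Dom 1} {X : Mat 1} (hX : X ∈ tangent (-1) (Fh u)) :
    X = -(rk (-1) (vf u) (X *ᵥ vf u) + rk (-1) (X *ᵥ vf u) (vf u)) := by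
  have h1 := hX.2
  unfold Fh at h1
  rw [Matrix.add_mul, Matrix.mul_add, Matrix.one_mul, Matrix.mul_one, mul_rk, rk_mul hneg,
    hX.1] at h1
  have h2 : X + (rk (-1) (vf u) (X *ᵥ vf u) + rk (-1) (X *ᵥ vf u) (vf u)) = 0 := by
    have h3 : X + rk (-1) (vf u) (X *ᵥ vf u) + (X + rk (-1) (X *ᵥ vf u) (vf u))
        = X + (X + (rk (-1) (vf u) (X *ᵥ vf u) + rk (-1) (X *ᵥ vf u) (vf u))) := by abel
    rw [h3] at h1
    exact add_left_cancel (a := X) (by rw [h1, add_zero])
  exact eq_neg_of_add_eq_zero_left h2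

theorem dFh_tangent (u x : Dom 1) : dF Fh u x ∈ tangent (-1) (Fh u) := by
  rw [dF_av]
  exact rk_tangent hneg (adj_Fh u) (av_im u x) (Fh_v u)

theorem Nh_tangent (s : ℝ) (u : Dom 1) : Nh s u ∈ tangent (-1) (Fh u) := by
  have h := rk_tangent hneg (adj_Fh u) (Fh_w u) (Fh_v u)
  unfold Nh
  constructor
  · rw [adj_real_smul, h.1]
  · rw [rsmM, Matrix.mul_smul, Matrix.smul_mul, ← smul_add, h.2]

theorem gm_NN (c s : ℝ) (u : Dom 1) : gm (-1) c (Nh s u) (Nh s u) = 2 * c * s ^ 2 := by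
  unfold Nh
  rw [gm_smul_left, gm_comm, gm_smul_left]
  unfold gm
  rw [trace_tv (h_vw u) (h_vw u), h_ww]
  simp
  ring

theorem gm_dF_N (c s : ℝ) (u x : Dom 1) : gm (-1) c (dF Fh u x) (Nh s u) = 0 := by
  unfold Nh
  rw [gm_comm, gm_smul_left, dF_av]
  unfold gm
  rw [trace_tv (h_vw u) (h_v_av u x)]
  have h1 : hh (-1) (wf u) (av u x) = -(Complex.I * (om u x : ℂ)) := by
    unfold av
    simp only [sub_eq_add_neg, hh_add_right, hh_neg_right, hh_smul_right, h_w2, h_ww]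
    ring
  have h2 : hh (-1) (av u x) (wf u) = Complex.I * (om u x : ℂ) := by
    rw [← hh_star hneg, h1]
    simp
  rw [h1, h2]
  simp

/-- a vector with given complex coordinate and given value of the contact form -/
noncomputable def vec (u : Dom 1) (a b r : ℝ) : Dom 1 :=
  mk a b (r + (co 0 u * b - co 1 u * a))

theorem zf_vec (u : Dom 1) (a b r : ℝ) : zf (vec u a b r) = (a : ℂ) + Complex.I * (b : ℂ) := by
  rw [zf_apply]
  rfl

theorem zb_vec (u : Dom 1) (a b r : ℝ) : zb (vec u a b r) = (a : ℂ) - Complex.I * (b : ℂ) := by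
  rw [zb_apply]
  rfl

theorem om_vec (u : Dom 1) (a b r : ℝ) : om u (vec u a b r) = r := by
  have h0 : co 0 (vec u a b r) = a := rfl
  have h1 : co 1 (vec u a b r) = b := rfl
  have h2 : co 2 (vec u a b r) = r + (co 0 u * b - co 1 u * a) := rfl
  rw [om, h0, h1, h2]
  ring

theorem codim {s : ℝ} (hs : s ≠ 0) (u : Dom 1) {X : Mat 1} (hX : X ∈ tangent (-1) (Fh u)) :
    ∃ x, ∃ t : ℝ, X = dF Fh u x + t • Nh s u := by
  obtain ⟨a, ha⟩ : ∃ a, a = X *ᵥ vf u := ⟨_, rfl⟩
  have hX1 := Fh_tangent_form hX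
  rw [← ha] at hX1
  have hPa : Fh u *ᵥ a = a := by rw [ha]; exact tan_ker hX.2 (Fh_v u)
  have hac : a = hh (-1) (wf u) a • wf u + hh (-1) (w2 u) a • w2 u := by
    conv_lhs => rw [← hPa, Fh_eq, Matrix.add_mulVec, rk_mulVec, rk_mulVec]
  obtain ⟨α, hα⟩ : ∃ α, α = hh (-1) (wf u) a := ⟨_, rfl⟩
  obtain ⟨β, hβ⟩ : ∃ β, β = hh (-1) (w2 u) a := ⟨_, rfl⟩
  rw [← hα, ← hβ] at hac
  refine ⟨vec u (-β.re) (-β.im) α.im, -α.re / s, ?_⟩
  rw [dF_eq, om_vec, zf_vec, zb_vec]
  have hN : (-α.re / s) • Nh s u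
      = (-(α.re : ℂ)) • (rk (-1) (wf u) (vf u) + rk (-1) (vf u) (wf u)) := by
    unfold Nh
    rw [smul_smul, div_mul_cancel₀ _ hs, rsmM]
    push_cast
    rfl
  rw [hN, hX1, hac]
  simp only [rk_add_left, rk_add_right, rk_smul_left, rk_smul_right, Complex.star_def]
  have hβ1 : ((-β.re : ℝ) : ℂ) + Complex.I * ((-β.im : ℝ) : ℂ) = -β := by
    apply Complex.ext <;> simp
  have hβ2 : ((-β.re : ℝ) : ℂ) - Complex.I * ((-β.im : ℝ) : ℂ) = -(starRingEnd ℂ) β := by
    apply Complex.ext <;> simp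
  have hα1 : α = (α.re : ℂ) + Complex.I * (α.im : ℂ) := by
    apply Complex.ext <;> simp
  have hα2 : (starRingEnd ℂ) α = (α.re : ℂ) - Complex.I * (α.im : ℂ) := by
    apply Complex.ext <;> simp
  obtain ⟨p, hp⟩ : ∃ p, p = α.re := ⟨_, rfl⟩
  obtain ⟨q, hq⟩ : ∃ q, q = α.im := ⟨_, rfl⟩
  rw [← hp, ← hq] at hα1 hα2
  rw [hβ1, hβ2, hα2, ← hp, ← hq, hα1]
  module

theorem tang_rk (u : Dom 1) (a b : Vec) : tang (Fh u) (rk (-1) a b)
    = rk (-1) (Fh u *ᵥ a) ((1 - Fh u) *ᵥ b) + rk (-1) ((1 - Fh u) *ᵥ a) (Fh u *ᵥ b) := by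
  have hadj : adj (-1) (1 - Fh u) = 1 - Fh u := by
    rw [adj_sub, adj_one hneg, adj_Fh]
  unfold tang
  rw [mul_rk, mul_rk, rk_mul hneg, rk_mul hneg, hadj, adj_Fh]

theorem tang_add (P X Y : Mat 1) : tang P (X + Y) = tang P X + tang P Y := by
  unfold tang
  simp only [Matrix.mul_add, Matrix.add_mul]
  abel

theorem tang_smul (P X : Mat 1) (s : ℝ) : tang P (s • X) = s • tang P X := by
  unfold tang
  rw [rsmM, rsmM]
  simp only [Matrix.mul_smul, Matrix.smul_mul, smul_add]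

theorem om_T (u : Dom 1) : om u (mk 0 0 1) = 1 := by
  have h0 : co 0 (mk 0 0 1) = 0 := rfl
  have h1 : co 1 (mk 0 0 1) = 0 := rfl
  have h2 : co 2 (mk 0 0 1) = 1 := rfl
  rw [om, h0, h1, h2]
  ring

theorem zf_T : zf (mk 0 0 1) = 0 := by
  have h0 : co 0 (mk 0 0 1) = 0 := rfl
  have h1 : co 1 (mk 0 0 1) = 0 := rfl
  rw [zf_apply, h0, h1]
  simp

theorem zb_T : zb (mk 0 0 1) = 0 := by
  rw [← star_zf, zf_T, star_zero]

theorem shape (s : ℝ) (u x : Dom 1) :
    tang (Fh u) (dF (Nh s) u x) = - dF Fh u (Ah s u x) := by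
  have h0v : (1 - Fh u) *ᵥ vf u = vf u := by
    rw [Matrix.sub_mulVec, Matrix.one_mulVec, Fh_v, sub_zero]
  have h0w : (1 - Fh u) *ᵥ wf u = 0 := by
    rw [Matrix.sub_mulVec, Matrix.one_mulVec, Fh_w, sub_self]
  have h02 : (1 - Fh u) *ᵥ w2 u = 0 := by
    rw [Matrix.sub_mulVec, Matrix.one_mulVec, Fh_2, sub_self]
  have hPd : Fh u *ᵥ dvf u x = av u x := by
    rw [dvf_eq, Matrix.mulVec_add, Matrix.mulVec_smul, Matrix.mulVec_smul, Matrix.mulVec_sub,
      Fh_2, Fh_v, Fh_w, av]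
    module
  have hQd : (1 - Fh u) *ᵥ dvf u x = (Complex.I * (om u x : ℂ)) • vf u := by
    rw [dvf_eq, Matrix.mulVec_add, Matrix.mulVec_smul, Matrix.mulVec_smul, Matrix.mulVec_sub,
      h02, h0v, h0w]
    module
  have hAh : dF Fh u (Ah s u x) = (-s) • (dF Fh u x + om u x • dF Fh u (mk 0 0 1)) := by
    unfold Ah dF
    rw [map_smul, map_add, map_smul]
  have hTT : dF Fh u (mk 0 0 1)
      = Complex.I • (rk (-1) (vf u) (wf u) - rk (-1) (wf u) (vf u)) := by
    rw [dF_eq, om_T, zf_T, zb_T]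
    simp
  rw [hAh, dF_Nh, hTT, dF_av, tang_smul, tang_add, tang_add, tang_add, tang_rk, tang_rk, tang_rk,
    tang_rk, Fh_w, Fh_v, h0v, h0w, hPd, hQd, rk_zero_left, rk_zero_left, rk_zero_right,
    rk_zero_right, rk_smul_left, rk_smul_right, rsmM, rsmM, rsmM]
  simp only [star_mul', Complex.star_def, Complex.conj_I, Complex.conj_ofReal]
  push_cast
  module

theorem pos {c : ℝ} (hc : 0 < c) (u x : Dom 1) (hx : x ≠ 0) :
    0 < gm (-1) c (dF Fh u x) (dF Fh u x) := by
  rw [gm_dF]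
  have h : 0 < co 0 x * co 0 x + co 1 x * co 1 x + om u x * om u x := by
    by_contra hcon
    have h0 : co 0 x * co 0 x = 0 := by
      nlinarith [mul_self_nonneg (co 0 x), mul_self_nonneg (co 1 x), mul_self_nonneg (om u x)]
    have h1 : co 1 x * co 1 x = 0 := by
      nlinarith [mul_self_nonneg (co 0 x), mul_self_nonneg (co 1 x), mul_self_nonneg (om u x)]
    have h2 : om u x * om u x = 0 := by
      nlinarith [mul_self_nonneg (co 0 x), mul_self_nonneg (co 1 x), mul_self_nonneg (om u x)]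
    have k0 := mul_self_eq_zero.mp h0
    have k1 := mul_self_eq_zero.mp h1
    have k2 := mul_self_eq_zero.mp h2
    rw [om, k0, k1] at k2
    apply hx
    apply dom_ext
    intro i
    rw [map_zero]
    fin_cases i
    · exact k0
    · exact k1
    · change co 2 x = 0
      linarith
  positivity

/-- The horosphere as a real hypersurface of `SU(2,1)/S(U(2)×U(1))`. -/
noncomputable def horo (c : ℝ) (hc : 0 < c) : RealHypersurface (-1) c 1 where
  U := univ
  F := Fh
  N := Nh (1 / √(2 * c))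
  Γ := Gh
  A := Ah (1 / √(2 * c))
  imm :=
    { isOpen := isOpen_univ
      isConnected := by
        have h : IsConnected (univ : Set (EuclideanSpace ℝ (Fin 3))) := isConnected_univ
        exact h
      smooth := contDiff_Fh.contDiffOn
      mem := fun u _ => Fh_mem u
      pos := fun u _ x hx => pos hc u x hx }
  nor :=
    { smooth := (contDiff_Nh _).contDiffOn
      tan := fun u _ => Nh_tangent _ u
      unit := by
        intro u _
        rw [gm_NN, div_pow, Real.sq_sqrt (by positivity)]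
        field_simp
      normal := fun u _ x => gm_dF_N c _ u x
      codim := fun u _ X hX => codim (one_div_ne_zero (Real.sqrt_ne_zero'.mpr (by positivity)))
        u hX }
  leviCivita := levi c
  shape := fun u _ x => shape _ u x

end Q186.SM.Horo
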