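import Mathlib
import Pool.Agent.Q186.SM.Three

/-! The algebraic obstruction for `m = 2`. -/

open Set Matrix Module

namespace Q186.SM

section general

variable {m : ℕ} {ε : ℝ}

theorem finrank_ker {P : Mat m} (hP : P ∈ Gr ε m) :
    finrank ℂ (LinearMap.ker (Matrix.mulVecLin P)) = m := by
  have hr : finrank ℂ (LinearMap.range (Matrix.mulVecLin P)) = 2 := hP.2.2.1
  have := LinearMap.finrank_range_add_finrank_ker (Matrix.mulVecLin P)
  rw [hr] at this
  simp at this
  omega

/-- two functionals which vanish together only at zero on a subspace on which they separate -/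
theorem orth_zero (hε : ε = 1 ∨ ε = -1) (S : Submodule ℂ (Fin 2 ⊕ Fin m → ℂ))
    (hS : finrank ℂ S = 2) {v w a : Fin 2 ⊕ Fin m → ℂ} (hv : v ∈ S) (hw : w ∈ S) (ha : a ∈ S)
    (hvv : hh ε v v ≠ 0) (hww : hh ε w w ≠ 0) (hvw : hh ε v w = 0) (h1 : hh ε v a = 0)
    (h2 : hh ε w a = 0) : a = 0 := by
  have hwv : hh ε w v = 0 := by rw [← hh_star hε, hvw, star_zero]
  let L : S →ₗ[ℂ] (Fin 2 → ℂ) :=
    { toFun := fun x => ![hh ε v x, hh ε w x]
      map_add' := by
        intro x y
        ext i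
        fin_cases i <;> simp [hh_add_right]
      map_smul' := by
        intro z x
        ext i
        fin_cases i <;> simp [hh_smul_right] }
  have hsurj : Function.Surjective L := by
    intro y
    refine ⟨⟨(y 0 / hh ε v v) • v + (y 1 / hh ε w w) • w,
      S.add_mem (S.smul_mem _ hv) (S.smul_mem _ hw)⟩, ?_⟩
    ext i
    fin_cases i
    · simp [L, hh_add_right, hh_smul_right, hvw, hvv]
    · simp [L, hh_add_right, hh_smul_right, hwv, hww]
  have hfr : finrank ℂ S = finrank ℂ (Fin 2 → ℂ) := by rw [hS]; simp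
  have hinj : Function.Injective L :=
    (LinearMap.injective_iff_surjective_of_finrank_eq_finrank hfr).mpr hsurj
  have h0 : L ⟨a, ha⟩ = L 0 := by
    ext i
    fin_cases i
    · simp [L, h1, hh_zero_right]
    · simp [L, h2, hh_zero_right]
  have := hinj h0
  exact congrArg Subtype.val this

theorem mem_range_iff {P : Mat m} (hP : P * P = P) (x : Fin 2 ⊕ Fin m → ℂ) :
    x ∈ LinearMap.range (Matrix.mulVecLin P) ↔ P *ᵥ x = x := by
  constructor
  · rintro ⟨y, rfl⟩
    rw [Matrix.mulVecLin_apply, Matrix.mulVec_mulVec, hP]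
  · intro h
    exact ⟨x, h⟩

theorem mem_ker_iff {P : Mat m} (x : Fin 2 ⊕ Fin m → ℂ) :
    x ∈ LinearMap.ker (Matrix.mulVecLin P) ↔ P *ᵥ x = 0 := by
  rw [LinearMap.mem_ker, Matrix.mulVecLin_apply]

theorem im_ne {P : Mat m} (hP : P ∈ Gr ε m) {a : Fin 2 ⊕ Fin m → ℂ}
    (ha : P *ᵥ a = a) (hne : a ≠ 0) : hh ε a a ≠ 0 := by
  intro h
  have := im_pos hP ha hne
  rw [h] at this
  simp at this

theorem ker_ne (hε : ε = 1 ∨ ε = -1) {P : Mat m} (hP : P ∈ Gr ε m) {a : Fin 2 ⊕ Fin m → ℂ}
    (ha : P *ᵥ a = 0) (hne : a ≠ 0) : hh ε a a ≠ 0 := by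
  intro h
  have := ker_pos hε hP ha hne
  rw [h] at this
  simp at this

theorem orth_im (hε : ε = 1 ∨ ε = -1) {P : Mat m} (hP : P ∈ Gr ε m)
    {v w a : Fin 2 ⊕ Fin m → ℂ} (hv : P *ᵥ v = v) (hw : P *ᵥ w = w) (ha : P *ᵥ a = a)
    (hv0 : v ≠ 0) (hw0 : w ≠ 0) (hvw : hh ε v w = 0) (h1 : hh ε v a = 0)
    (h2 : hh ε w a = 0) : a = 0 :=
  orth_zero hε (LinearMap.range (Matrix.mulVecLin P)) hP.2.2.1
    ((mem_range_iff hP.1 v).2 hv) ((mem_range_iff hP.1 w).2 hw) ((mem_range_iff hP.1 a).2 ha)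
    (im_ne hP hv hv0) (im_ne hP hw hw0) hvw h1 h2

end general

variable {ε : ℝ}

theorem orth_ker (hε : ε = 1 ∨ ε = -1) {P : Mat 2} (hP : P ∈ Gr ε 2)
    {v w a : Fin 2 ⊕ Fin 2 → ℂ} (hv : P *ᵥ v = 0) (hw : P *ᵥ w = 0) (ha : P *ᵥ a = 0)
    (hv0 : v ≠ 0) (hw0 : w ≠ 0) (hvw : hh ε v w = 0) (h1 : hh ε v a = 0)
    (h2 : hh ε w a = 0) : a = 0 :=
  orth_zero hε (LinearMap.ker (Matrix.mulVecLin P)) (finrank_ker hP)
    ((mem_ker_iff v).2 hv) ((mem_ker_iff w).2 hw) ((mem_ker_iff a).2 ha)
    (ker_ne hε hP hv hv0) (ker_ne hε hP hw hw0) hvw h1 h2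

/-- in a 2-dimensional subspace every vector has a nonzero orthogonal vector -/
theorem exists_orth (S : Submodule ℂ (Fin 2 ⊕ Fin 2 → ℂ))
    (hS : finrank ℂ S = 2) (v : Fin 2 ⊕ Fin 2 → ℂ) :
    ∃ e ∈ S, e ≠ 0 ∧ hh ε v e = 0 := by
  let L : S →ₗ[ℂ] ℂ :=
    { toFun := fun x => hh ε v x
      map_add' := fun x y => by simp [hh_add_right]
      map_smul' := fun z x => by simp [hh_smul_right] }
  have hlt : finrank ℂ ℂ < finrank ℂ S := by rw [hS]; simp
  obtain ⟨x, hx, hx0⟩ := (Submodule.ne_bot_iff _).mp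
    (LinearMap.ker_ne_bot_of_finrank_lt (f := L) hlt)
  exact ⟨x, x.2, fun h => hx0 (Subtype.ext h), LinearMap.mem_ker.mp hx⟩

/-- trace identity -/
theorem trace_two {n : Type*} [Fintype n] [DecidableEq n] {P C Y : Matrix n n ℂ} {p q : ℂ}
    (hP : P * P = P)
    (hY : P * Y + Y * P = Y) (hCP : P * C = C * P) (hCC : C * C = -(p • P) - q • (1 - P)) :
    Matrix.trace (((C * (P * Y - Y * P) + (P * Y - Y * P) * C) * Y
      - Y * (C * (P * Y - Y * P) + (P * Y - Y * P) * C)) * C)
      = (q - p) * Matrix.trace (Y * Y) := by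
  have hPYP : P * Y * P = 0 := by
    have h := congrArg (fun M => P * M) hY
    simp only [Matrix.mul_add, ← Matrix.mul_assoc, hP] at h
    have h2 : P * Y + P * Y * P = P * Y + 0 := by rw [h]; simp
    exact add_left_cancel h2
  obtain ⟨a, ha⟩ : ∃ a, a = P * Y := ⟨_, rfl⟩
  obtain ⟨b, hb⟩ : ∃ b, b = Y * P := ⟨_, rfl⟩
  have hYab : Y = a + b := by rw [ha, hb, hY]
  have hPa : P * a = a := by rw [ha, ← Matrix.mul_assoc, hP]
  have hPb : P * b = 0 := by rw [hb, ← Matrix.mul_assoc, hPYP]
  have haP : a * P = 0 := by rw [ha, hPYP]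
  have hbP : b * P = b := by rw [hb, Matrix.mul_assoc, hP]
  have haa : a * a = 0 := by
    calc a * a = a * (P * a) := by rw [hPa]
      _ = (a * P) * a := by rw [Matrix.mul_assoc]
      _ = 0 := by rw [haP, Matrix.zero_mul]
  have hbb : b * b = 0 := by
    calc b * b = (b * P) * b := by rw [hbP]
      _ = b * (P * b) := by rw [Matrix.mul_assoc]
      _ = 0 := by rw [hPb, Matrix.mul_zero]
  have haCa : a * C * a = 0 := by
    calc a * C * a = a * C * (P * a) := by rw [hPa]
      _ = a * (C * P) * a := by simp only [Matrix.mul_assoc]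
      _ = (a * P) * C * a := by rw [← hCP]; simp only [Matrix.mul_assoc]
      _ = 0 := by rw [haP]; simp
  have hbCb : b * C * b = 0 := by
    calc b * C * b = (b * P) * C * b := by rw [hbP]
      _ = b * (P * C) * b := by simp only [Matrix.mul_assoc]
      _ = b * C * (P * b) := by rw [hCP]; simp only [Matrix.mul_assoc]
      _ = 0 := by rw [hPb]; simp
  -- traces
  have c1 : Matrix.trace (C * a * b * C) = -p * Matrix.trace (a * b) := by
    rw [Matrix.trace_mul_comm, ← Matrix.mul_assoc, ← Matrix.mul_assoc, hCC]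
    have : (-(p • P) - q • (1 - P)) * a = -(p • a) := by
      rw [Matrix.sub_mul, Matrix.neg_mul, Matrix.smul_mul, Matrix.smul_mul, Matrix.sub_mul, hPa]
      simp
    rw [this]
    simp
  have c2 : Matrix.trace (C * b * a * C) = -q * Matrix.trace (b * a) := by
    rw [Matrix.trace_mul_comm, ← Matrix.mul_assoc, ← Matrix.mul_assoc, hCC]
    have : (-(p • P) - q • (1 - P)) * b = -(q • b) := by
      rw [Matrix.sub_mul, Matrix.neg_mul, Matrix.smul_mul, Matrix.smul_mul, Matrix.sub_mul, hPb]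
      simp
    rw [this]
    simp
  have c3 : Matrix.trace (a * C * C * b) = -q * Matrix.trace (a * b) := by
    rw [Matrix.mul_assoc a C C, hCC]
    have : a * (-(p • P) - q • (1 - P)) = -(q • a) := by
      rw [Matrix.mul_sub, Matrix.mul_neg, Matrix.mul_smul, Matrix.mul_smul, Matrix.mul_sub, haP]
      simp
    rw [this]
    simp
  have c4 : Matrix.trace (b * C * C * a) = -p * Matrix.trace (b * a) := by
    rw [Matrix.mul_assoc b C C, hCC]
    have : b * (-(p • P) - q • (1 - P)) = -(p • b) := by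
      rw [Matrix.mul_sub, Matrix.mul_neg, Matrix.mul_smul, Matrix.mul_smul, Matrix.mul_sub, hbP]
      simp
    rw [this]
    simp
  have hba : Matrix.trace (b * a) = Matrix.trace (a * b) := Matrix.trace_mul_comm _ _
  have e1 : (C * (a - b) + (a - b) * C) * (a + b) * C
      = C * a * b * C - C * b * a * C + (a * C * b * C - b * C * a * C) := by
    calc (C * (a - b) + (a - b) * C) * (a + b) * C
        = C * (a * a) * C + C * a * b * C - C * b * a * C - C * (b * b) * C
          + (a * C * a) * C + a * C * b * C - b * C * a * C - (b * C * b) * C := by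
          noncomm_ring
      _ = _ := by
          rw [haa, hbb, haCa, hbCb]
          simp only [Matrix.mul_zero, Matrix.zero_mul]
          abel
  have aCC : a * C * C = -q • a := by
    rw [Matrix.mul_assoc a C C, hCC, Matrix.mul_sub, Matrix.mul_neg, Matrix.mul_smul,
      Matrix.mul_smul, Matrix.mul_sub, haP]
    simp
  have bCC : b * C * C = -p • b := by
    rw [Matrix.mul_assoc b C C, hCC, Matrix.mul_sub, Matrix.mul_neg, Matrix.mul_smul,
      Matrix.mul_smul, Matrix.mul_sub, hbP]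
    simp
  have e2 : (C * (a - b) + (a - b) * C) * C * (a + b)
      = C * a * C * b - C * b * C * a + (a * C * C * b - b * C * C * a) := by
    calc (C * (a - b) + (a - b) * C) * C * (a + b)
        = C * (a * C * a) + C * a * C * b - C * b * C * a - C * (b * C * b)
          + (a * C * C) * a + a * C * C * b - b * C * C * a - (b * C * C) * b := by
          noncomm_ring
      _ = _ := by
          have g1 : a * C * C * a = 0 := by rw [aCC, Matrix.smul_mul, haa, smul_zero]
          have g2 : b * C * C * b = 0 := by rw [bCC, Matrix.smul_mul, hbb, smul_zero]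
          rw [haCa, hbCb, g1, g2]
          simp only [Matrix.mul_zero]
          abel
  have f1 : Matrix.trace (a * C * b * C) = Matrix.trace (b * C * a * C) := by
    rw [Matrix.mul_assoc (a * C) b C, Matrix.trace_mul_comm, ← Matrix.mul_assoc]
  have f2 : Matrix.trace (C * a * C * b) = Matrix.trace (C * b * C * a) := by
    rw [Matrix.mul_assoc (C * a) C b, Matrix.trace_mul_comm, ← Matrix.mul_assoc]
  have e3 : Matrix.trace (Y * Y) = 2 * Matrix.trace (a * b) := by
    rw [hYab]
    have : (a + b) * (a + b) = a * b + b * a := by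
      rw [Matrix.add_mul, Matrix.mul_add, Matrix.mul_add, haa, hbb]
      abel
    rw [this, Matrix.trace_add, hba]
    ring
  rw [← ha, ← hb, e3, hYab, Matrix.sub_mul, Matrix.trace_sub,
    Matrix.mul_assoc (a + b), Matrix.trace_mul_comm (a + b), e1, e2]
  simp only [Matrix.trace_add, Matrix.trace_sub]
  rw [c1, c2, c3, c4, f1, f2, hba]
  ring

end Q186.SM
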