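import Mathlib
import Pool.Agent.Q186.SM.TwoA

/-! The algebraic obstruction for `m = 2`, second part. -/

open Set Matrix Module

namespace Q186.SM

variable {ε : ℝ}

/-- The operator `[ξ, Z]` squares to a combination of the two projections. -/
theorem CC_eq (hε : ε = 1 ∨ ε = -1) {P : Mat 2} (hP : P ∈ Gr ε 2)
    {v w u e : Fin 2 ⊕ Fin 2 → ℂ} (hv : P *ᵥ v = v) (hw : P *ᵥ w = w) (hu : P *ᵥ u = 0)
    (he : P *ᵥ e = 0) (hu0 : u ≠ 0) (he0 : e ≠ 0) (hv0 : v ≠ 0) (hvw : hh ε v w = 0)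
    (hue : hh ε u e = 0) {C : Mat 2}
    (hC : C = Complex.I • (rk ε w v + rk ε v w - rk ε u e - rk ε e u)) :
    C * C = -((hh ε v v * hh ε w w) • P) - (hh ε u u * hh ε e e) • (1 - P) := by
  have hPa := hP.2.1
  have hwv : hh ε w v = 0 := by rw [← hh_star hε, hvw, star_zero]
  have heu : hh ε e u = 0 := by rw [← hh_star hε, hue, star_zero]
  have hI : ∀ (c : ℂ) (x : Fin 2 ⊕ Fin 2 → ℂ), Complex.I • (Complex.I * c) • x = -(c • x) := by
    intro c x
    rw [smul_smul, ← mul_assoc, Complex.I_mul_I, neg_mul, one_mul, neg_smul]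
  have Cim : ∀ x, P *ᵥ x = x → C *ᵥ x = Complex.I • (hh ε v x • w + hh ε w x • v) := by
    intro x hx
    rw [hC]
    simp only [Matrix.smul_mulVec, Matrix.sub_mulVec, Matrix.add_mulVec, rk_mulVec,
      hh_ker_im hε hPa hx hu, hh_ker_im hε hPa hx he, zero_smul, sub_zero]
  have Cker : ∀ x, P *ᵥ x = 0 → C *ᵥ x = -(Complex.I • (hh ε e x • u + hh ε u x • e)) := by
    intro x hx
    rw [hC]
    simp only [Matrix.smul_mulVec, Matrix.sub_mulVec, Matrix.add_mulVec, rk_mulVec,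
      hh_im_ker hε hPa hv hx, hh_im_ker hε hPa hw hx, zero_smul, add_zero, zero_sub]
    rw [← smul_neg]
    congr 1
    module
  have CCim : ∀ x, P *ᵥ x = x → C *ᵥ (C *ᵥ x) = -((hh ε v v * hh ε w w) • x) := by
    intro x hx
    have h1 : P *ᵥ (Complex.I • (hh ε v x • w + hh ε w x • v))
        = Complex.I • (hh ε v x • w + hh ε w x • v) := by
      simp only [Matrix.mulVec_smul, Matrix.mulVec_add, hv, hw]
    rw [Cim x hx, Cim _ h1]
    simp only [hh_smul_right, hh_add_right, hvw, hwv, mul_zero, zero_add, add_zero]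
    have h2 : Complex.I • ((Complex.I * (hh ε w x * hh ε v v)) • w
        + (Complex.I * (hh ε v x * hh ε w w)) • v)
        = -((hh ε w x * hh ε v v) • w + (hh ε v x * hh ε w w) • v) := by
      rw [smul_add, hI, hI]
      abel
    rw [h2, neg_inj]
    by_cases hw0 : w = 0
    · rw [hw0]
      simp [hh_zero_right]
    · have h3 := orth_im (a := (hh ε w x * hh ε v v) • w + (hh ε v x * hh ε w w) • v
          - (hh ε v v * hh ε w w) • x) hε hP hv hw
        (by simp only [Matrix.mulVec_smul, Matrix.mulVec_sub, Matrix.mulVec_add, hv, hw, hx])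
        hv0 hw0 hvw
        (by
          rw [sub_eq_add_neg]
          simp only [hh_add_right, hh_neg_right, hh_smul_right, hvw]
          ring)
        (by
          rw [sub_eq_add_neg]
          simp only [hh_add_right, hh_neg_right, hh_smul_right, hwv]
          ring)
      exact sub_eq_zero.mp h3
  have CCker : ∀ x, P *ᵥ x = 0 → C *ᵥ (C *ᵥ x) = -((hh ε u u * hh ε e e) • x) := by
    intro x hx
    have h1 : P *ᵥ (-(Complex.I • (hh ε e x • u + hh ε u x • e))) = 0 := by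
      simp only [Matrix.mulVec_neg, Matrix.mulVec_smul, Matrix.mulVec_add, hu, he, smul_zero,
        add_zero, neg_zero]
    rw [Cker x hx, Cker _ h1]
    simp only [hh_neg_right, hh_smul_right, hh_add_right, hue, heu, mul_zero, zero_add, add_zero]
    have h2 : -(Complex.I • ((-(Complex.I * (hh ε u x * hh ε e e))) • u
        + (-(Complex.I * (hh ε e x * hh ε u u))) • e))
        = -((hh ε u x * hh ε e e) • u + (hh ε e x * hh ε u u) • e) := by
      rw [smul_add, neg_smul, neg_smul, smul_neg, smul_neg, hI, hI]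
      abel
    rw [h2, neg_inj]
    have h3 := orth_ker (a := (hh ε u x * hh ε e e) • u + (hh ε e x * hh ε u u) • e
        - (hh ε u u * hh ε e e) • x) hε hP hu he
      (by simp only [Matrix.mulVec_smul, Matrix.mulVec_sub, Matrix.mulVec_add, hu, he, hx,
        smul_zero, add_zero, sub_zero])
      hu0 he0 hue
      (by
        rw [sub_eq_add_neg]
        simp only [hh_add_right, hh_neg_right, hh_smul_right, hue]
        ring)
      (by
        rw [sub_eq_add_neg]
        simp only [hh_add_right, hh_neg_right, hh_smul_right, heu]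
        ring)
    exact sub_eq_zero.mp h3
  apply Matrix.ext_of_mulVec_single
  intro j
  obtain ⟨x, hx⟩ : ∃ x, x = (Pi.single j (1:ℂ) : Fin 2 ⊕ Fin 2 → ℂ) := ⟨_, rfl⟩
  rw [← hx]
  have hxd : x = P *ᵥ x + (x - P *ᵥ x) := by abel
  have hp1 : P *ᵥ (P *ᵥ x) = P *ᵥ x := by rw [Matrix.mulVec_mulVec, hP.1]
  have hp2 : P *ᵥ (x - P *ᵥ x) = 0 := by rw [Matrix.mulVec_sub, hp1, sub_self]
  rw [← Matrix.mulVec_mulVec]
  conv_lhs => rw [hxd, Matrix.mulVec_add, Matrix.mulVec_add, CCim _ hp1, CCker _ hp2]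
  simp only [Matrix.sub_mulVec, Matrix.neg_mulVec, Matrix.smul_mulVec, Matrix.one_mulVec]
  abel

theorem hh_ofReal (x : Fin 2 ⊕ Fin 2 → ℂ) : hh ε x x = (((hh ε x x).re : ℝ) : ℂ) := by
  apply Complex.ext
  · simp
  · simp [hh_self_im]

/-- the linear map `Y ↦ C [P, Y] + [P, Y] C` -/
noncomputable def Dmap (P C : Mat 2) : Mat 2 →ₗ[ℝ] Mat 2 :=
  (LinearMap.mulLeft ℝ C + LinearMap.mulRight ℝ C) ∘ₗ (LinearMap.mulLeft ℝ P
    - LinearMap.mulRight ℝ P)

theorem Dmap_apply (P C Y : Mat 2) :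
    Dmap P C Y = C * (P * Y - Y * P) + (P * Y - Y * P) * C := by
  simp [Dmap]

theorem Dmap_tangent (hε : ε = 1 ∨ ε = -1) {P C Y : Mat 2} (hP : P ∈ Gr ε 2)
    (hY : Y ∈ tangent ε P) (hC : adj ε C = - C) (hCP : P * C = C * P) :
    C * (P * Y - Y * P) + (P * Y - Y * P) * C ∈ tangent ε P := by
  have hPa := hP.2.1
  have hPYP : P * Y * P = 0 := by
    have h := congrArg (fun M => P * M) hY.2
    simp only [Matrix.mul_add, ← Matrix.mul_assoc, hP.1] at h
    have h2 : P * Y + P * Y * P = P * Y + 0 := by rw [h]; simp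
    exact add_left_cancel h2
  constructor
  · rw [adj_add, adj_mul hε, adj_mul hε, adj_sub, adj_mul hε, adj_mul hε, hC, hPa, hY.1]
    noncomm_ring
  · obtain ⟨Y', hY'⟩ : ∃ Y', Y' = P * Y - Y * P := ⟨_, rfl⟩
    have h1 : P * Y' + Y' * P = Y' := by
      rw [hY', Matrix.mul_sub, Matrix.sub_mul, ← Matrix.mul_assoc, ← Matrix.mul_assoc, hP.1,
        hPYP, Matrix.mul_assoc Y P P, hP.1]
      abel
    rw [← hY']
    have h2 : P * (C * Y') + C * Y' * P = C * Y' := by
      rw [← Matrix.mul_assoc, hCP, Matrix.mul_assoc, Matrix.mul_assoc C Y' P, ← Matrix.mul_add,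
        h1]
    have h3 : P * (Y' * C) + Y' * C * P = Y' * C := by
      rw [← Matrix.mul_assoc, Matrix.mul_assoc Y' C P, ← hCP, ← Matrix.mul_assoc Y' P C,
        ← Matrix.add_mul, h1]
    rw [Matrix.mul_add, Matrix.add_mul]
    calc _ = (P * (C * Y') + C * Y' * P) + (P * (Y' * C) + Y' * C * P) := by abel
      _ = _ := by rw [h2, h3]

/-- If the two invariants differ the curvature operator `[ξ, Z]` is not annihilated on
the orthogonal complement of any three vectors. -/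
theorem two_core (hε : ε = 1 ∨ ε = -1) {P N b : Mat 2} (hP : P ∈ Gr ε 2)
    (hN : N ∈ tangent ε P) (hb : b = -(Complex.I • P)) (W : Fin 3 → Mat 2)
    {v e : Fin 2 ⊕ Fin 2 → ℂ} (hv : P *ᵥ v = v) (he : P *ᵥ e = 0) (hu0 : N *ᵥ v ≠ 0)
    (he0 : e ≠ 0) (hort : hh ε (N *ᵥ v) e = 0)
    (hne : hh ε v v * hh ε (N *ᵥ e) (N *ᵥ e) ≠ hh ε (N *ᵥ v) (N *ᵥ v) * hh ε e e) :
    ∃ X ∈ tangent ε P, ∃ Y ∈ tangent ε P, ∃ Z ∈ tangent ε P,
      (∀ i, (Matrix.trace (X * W i)).re = 0) ∧ (∀ i, (Matrix.trace (Y * W i)).re = 0) ∧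
      (Matrix.trace (Z * N)).re = 0 ∧
      (Matrix.trace ((X * Y - Y * X) * (-(b * N - N * b) * Z - Z * -(b * N - N * b)))).re ≠ 0 := by
  have hPa := hP.2.1
  have hNa := hN.1
  have hNt := hN.2
  obtain ⟨u, hu⟩ : ∃ u, u = N *ᵥ v := ⟨_, rfl⟩
  obtain ⟨w, hw⟩ : ∃ w, w = N *ᵥ e := ⟨_, rfl⟩
  rw [← hu] at hu0 hort hne
  rw [← hw] at hne
  have hPu : P *ᵥ u = 0 := by rw [hu]; exact tan_im hNt hv
  have hPw : P *ᵥ w = w := by rw [hw]; exact tan_ker hNt he
  have hv0 : v ≠ 0 := by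
    rintro rfl
    rw [Matrix.mulVec_zero] at hu
    exact hu0 hu
  have hvw : hh ε v w = 0 := by
    rw [hw, ← hNa, ← hh_mulVec_left hε, ← hu]
    exact hort
  have hbadj : adj ε b = -b := by
    rw [hb, adj_neg, adj_smul, hPa]
    simp
  obtain ⟨ξ, hξ⟩ : ∃ ξ, ξ = -(b * N - N * b) := ⟨_, rfl⟩
  have hξa : adj ε ξ = ξ := by
    rw [hξ, adj_neg, adj_sub, adj_mul hε, adj_mul hε, hNa, hbadj]
    simp only [Matrix.mul_neg, Matrix.neg_mul]
    abel
  have hξv : ξ *ᵥ v = -(Complex.I • u) := by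
    rw [hξ, hb]
    simp only [Matrix.neg_mulVec, Matrix.sub_mulVec, ← Matrix.mulVec_mulVec, Matrix.smul_mulVec,
      ← hu, hPu, hv, Matrix.mulVec_neg, Matrix.mulVec_smul, smul_zero, neg_zero]
    abel
  have hξe : ξ *ᵥ e = Complex.I • w := by
    rw [hξ, hb]
    simp only [Matrix.neg_mulVec, Matrix.sub_mulVec, ← Matrix.mulVec_mulVec, Matrix.smul_mulVec,
      ← hw, hPw, he, Matrix.mulVec_zero, smul_zero, neg_zero, sub_zero, neg_neg]
  obtain ⟨Z, hZ⟩ : ∃ Z, Z = rk ε v e + rk ε e v := ⟨_, rfl⟩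
  have hZt : Z ∈ tangent ε P := by rw [hZ]; exact rk_tangent hε hPa hv he
  obtain ⟨C, hCdef⟩ : ∃ C, C = Complex.I • (rk ε w v + rk ε v w - rk ε u e - rk ε e u) :=
    ⟨_, rfl⟩
  have hneg : ∀ x y : Fin 2 ⊕ Fin 2 → ℂ, rk ε (-x) y = - rk ε x y := by
    intro x y
    have := rk_smul_left (ε := ε) (-1) x y
    simpa using this
  have hneg' : ∀ x y : Fin 2 ⊕ Fin 2 → ℂ, rk ε x (-y) = - rk ε x y := by
    intro x y
    have := rk_smul_right (ε := ε) (-1) x y
    simpa using this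
  have hC : ξ * Z - Z * ξ = C := by
    rw [hZ, Matrix.mul_add, Matrix.add_mul, mul_rk, mul_rk, rk_mul hε, rk_mul hε, hξa, hξv, hξe,
      hneg, hneg', rk_smul_left, rk_smul_left, rk_smul_right, rk_smul_right, hCdef]
    simp only [Complex.star_def, Complex.conj_I]
    module
  have hCadj : adj ε C = - C := by
    rw [hCdef, adj_smul, adj_sub, adj_sub, adj_add, adj_rk hε, adj_rk hε, adj_rk hε, adj_rk hε]
    simp only [Complex.star_def, Complex.conj_I]
    module
  have hCP : P * C = C * P := by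
    rw [hCdef, Matrix.mul_smul, Matrix.smul_mul]
    simp only [Matrix.mul_sub, Matrix.mul_add, Matrix.sub_mul, Matrix.add_mul, mul_rk,
      rk_mul hε, hPa, hv, he, hPu, hPw, rk_zero_left, rk_zero_right]
  have hCC := CC_eq hε hP hv hPw hPu he hu0 he0 hv0 hvw hort hCdef
  obtain ⟨a, a', ha, ha', hne2, hW1, hW2⟩ := exists_pair (ε := ε) hP W u e (Dmap P C)
  obtain ⟨Y, hY⟩ : ∃ Y, Y = Phi ε u e (a, a') := ⟨_, rfl⟩
  rw [← hY] at hW1 hW2
  have hYt : Y ∈ tangent ε P := by rw [hY]; exact Phi_tangent hε hPa ha ha' hPu he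
  rw [Dmap_apply] at hW2
  refine ⟨_, Dmap_tangent hε hP hYt hCadj hCP, Y, hYt, Z, hZt, hW2, hW1, ?_, ?_⟩
  · rw [hZ, Matrix.add_mul, rk_mul hε, rk_mul hε, hNa, ← hu, ← hw, Matrix.trace_add, trace_rk,
      trace_rk, ← hh_star hε v w, hvw, hort]
    simp
  · rw [← hξ, hC, trace_two hP.1 hYt.2 hCP hCC]
    have htr := trace_Phi_sq hε hPa ha ha' hPu he hort
    rw [← hY] at htr
    rw [htr]
    have qu := hh_ofReal (ε := ε) u
    have qe := hh_ofReal (ε := ε) e
    have qv := hh_ofReal (ε := ε) v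
    have qw := hh_ofReal (ε := ε) w
    have qa := hh_ofReal (ε := ε) a
    have qa' := hh_ofReal (ε := ε) a'
    have pu : 0 < ε * (hh ε u u).re := ker_pos hε hP hPu hu0
    have pe : 0 < ε * (hh ε e e).re := ker_pos hε hP he he0
    obtain ⟨su, hsu⟩ : ∃ s : ℝ, s = (hh ε u u).re := ⟨_, rfl⟩
    obtain ⟨se, hse⟩ : ∃ s : ℝ, s = (hh ε e e).re := ⟨_, rfl⟩
    obtain ⟨sv, hsv⟩ : ∃ s : ℝ, s = (hh ε v v).re := ⟨_, rfl⟩
    obtain ⟨sw, hsw⟩ : ∃ s : ℝ, s = (hh ε w w).re := ⟨_, rfl⟩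
    obtain ⟨sa, hsa⟩ : ∃ s : ℝ, s = (hh ε a a).re := ⟨_, rfl⟩
    obtain ⟨sa', hsa'⟩ : ∃ s : ℝ, s = (hh ε a' a').re := ⟨_, rfl⟩
    have pa : 0 ≤ sa := by
      by_cases h : a = 0
      · rw [hsa, h, hh_zero_left]; simp
      · rw [hsa]; exact (im_pos hP ha h).le
    have pa' : 0 ≤ sa' := by
      by_cases h : a' = 0
      · rw [hsa', h, hh_zero_left]; simp
      · rw [hsa']; exact (im_pos hP ha' h).le
    have psum : 0 < sa ∨ 0 < sa' := by
      rcases hne2 with h | h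
      · left; rw [hsa]; exact im_pos hP ha h
      · right; rw [hsa']; exact im_pos hP ha' h
    rw [← hsu] at qu pu
    rw [← hse] at qe pe
    rw [← hsv] at qv
    rw [← hsw] at qw
    rw [← hsa] at qa
    rw [← hsa'] at qa'
    rw [qu, qe, qv, qw] at hne
    rw [qu, qe, qv, qw, qa, qa']
    have hne3 : sv * sw ≠ su * se := by
      intro h
      apply hne
      exact_mod_cast congrArg (fun r : ℝ => (r : ℂ)) h
    have hfin : (((su : ℂ) * se - sv * sw) * (2 * (sa * su + sa' * se)) : ℂ)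
        = (((su * se - sv * sw) * (2 * (sa * su + sa' * se)) : ℝ) : ℂ) := by
      push_cast
      ring
    rw [hfin, Complex.ofReal_re]
    have h5 : ε * (sa * su + sa' * se) = sa * (ε * su) + sa' * (ε * se) := by ring
    have t1 : 0 ≤ sa * (ε * su) := by positivity
    have t2 : 0 ≤ sa' * (ε * se) := by positivity
    have h6 : sa * su + sa' * se ≠ 0 := by
      intro h
      rw [h, mul_zero] at h5
      rcases psum with h7 | h7
      · have : 0 < sa * (ε * su) := by positivity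
        linarith
      · have : 0 < sa' * (ε * se) := by positivity
        linarith
    have h8 : su * se - sv * sw ≠ 0 := fun h => hne3 (by linarith)
    exact mul_ne_zero h8 (mul_ne_zero two_ne_zero h6)

end Q186.SM
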