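import Mathlib
import Pool.Agent.Q186.SM.TwoB

/-! The algebraic obstruction for `m = 2`, third part: `N²` is a scalar. -/

open Set Matrix Module

namespace Q186.SM

variable {ε : ℝ}

/-- `N²` has an eigenvector in the image of `P`. -/
theorem exists_eigen {P N : Mat 2} (hP : P ∈ Gr ε 2) (hNt : P * N + N * P = N) :
    ∃ (l : ℂ) (v : Fin 2 ⊕ Fin 2 → ℂ), v ≠ 0 ∧ P *ᵥ v = v ∧ N *ᵥ (N *ᵥ v) = l • v := by
  let S := LinearMap.range (Matrix.mulVecLin P)
  have hfr : finrank ℂ S = 2 := hP.2.2.1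
  have : Nontrivial S := Module.nontrivial_of_finrank_pos (R := ℂ) (by rw [hfr]; norm_num)
  have hfix : ∀ a : S, P *ᵥ (a : Fin 2 ⊕ Fin 2 → ℂ) = a := fun a =>
    (mem_range_iff hP.1 _).1 a.2
  let M : S →ₗ[ℂ] S :=
    (((Matrix.mulVecLin N).comp (Matrix.mulVecLin N)).comp S.subtype).codRestrict S
      (fun x => by
        rw [mem_range_iff hP.1]
        exact tan_ker hNt (tan_im hNt (hfix x)))
  obtain ⟨l, hl⟩ := Module.End.exists_eigenvalue M
  obtain ⟨x, hx⟩ := hl.exists_hasEigenvector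
  refine ⟨l, x, fun h => hx.2 (Subtype.ext h), hfix x, ?_⟩
  have h := congrArg Subtype.val hx.apply_eq_smul
  exact h

theorem eigen_real (hε : ε = 1 ∨ ε = -1) {P N : Mat 2} (hP : P ∈ Gr ε 2)
    (hN : N ∈ tangent ε P) {l : ℂ} {v : Fin 2 ⊕ Fin 2 → ℂ} (hv0 : v ≠ 0) (hv : P *ᵥ v = v)
    (hl : N *ᵥ (N *ᵥ v) = l • v) :
    hh ε (N *ᵥ v) (N *ᵥ v) = l * hh ε v v ∧ star l = l := by
  have h1 : hh ε (N *ᵥ v) (N *ᵥ v) = l * hh ε v v := by
    rw [hh_mulVec_left hε, hN.1, hl, hh_smul_right]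
  refine ⟨h1, ?_⟩
  have h2 : star (hh ε (N *ᵥ v) (N *ᵥ v)) = hh ε (N *ᵥ v) (N *ᵥ v) := hh_star hε _ _
  have h3 : star (hh ε v v) = hh ε v v := hh_star hε _ _
  rw [h1, star_mul', h3] at h2
  exact mul_right_cancel₀ (im_ne hP hv hv0) h2

/-- A pair of orthogonal eigenvectors. -/
theorem two_step (hε : ε = 1 ∨ ε = -1) {P N : Mat 2} (hP : P ∈ Gr ε 2)
    (hN : N ∈ tangent ε P)
    (H : ∀ v e, P *ᵥ v = v → P *ᵥ e = 0 → N *ᵥ v ≠ 0 → e ≠ 0 → hh ε (N *ᵥ v) e = 0 →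
      hh ε v v * hh ε (N *ᵥ e) (N *ᵥ e) = hh ε (N *ᵥ v) (N *ᵥ v) * hh ε e e)
    {l k : ℂ} {v w : Fin 2 ⊕ Fin 2 → ℂ} (hv0 : v ≠ 0) (hw0 : w ≠ 0) (hv : P *ᵥ v = v)
    (hw : P *ᵥ w = w) (hvw : hh ε v w = 0) (hl : N *ᵥ (N *ᵥ v) = l • v)
    (hk : N *ᵥ (N *ᵥ w) = k • w) (hNv : N *ᵥ v ≠ 0) :
    ∃ r : ℝ, N * N = (r : ℂ) • (1 : Mat 2) := by
  have hNa := hN.1
  have hNt := hN.2
  have hwv : hh ε w v = 0 := by rw [← hh_star hε, hvw, star_zero]
  obtain ⟨hl1, hl2⟩ := eigen_real hε hP hN hv0 hv hl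
  obtain ⟨hk1, hk2⟩ := eigen_real hε hP hN hw0 hw hk
  have hPNv : P *ᵥ (N *ᵥ v) = 0 := tan_im hNt hv
  have hPNw : P *ᵥ (N *ᵥ w) = 0 := tan_im hNt hw
  have hNvNw : hh ε (N *ᵥ v) (N *ᵥ w) = 0 := by
    rw [hh_mulVec_left hε, hNa, hk, hh_smul_right, hvw, mul_zero]
  have hNw : N *ᵥ w ≠ 0 := by
    intro hNw
    obtain ⟨e, heS, he0, he1⟩ := exists_orth (ε := ε) (LinearMap.ker (Matrix.mulVecLin P))
      (finrank_ker hP) (N *ᵥ v)
    have he : P *ᵥ e = 0 := (mem_ker_iff e).1 heS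
    have hNe : N *ᵥ e = 0 := by
      refine orth_im hε hP hv hw (tan_ker hNt he) hv0 hw0 hvw ?_ ?_
      · have := hh_mulVec_left (ε := ε) hε N v e
        rw [hNa, he1] at this
        exact this.symm
      · have := hh_mulVec_left (ε := ε) hε N w e
        rw [hNa, hNw, hh_zero_left] at this
        exact this.symm
    have h := H v e hv he hNv he0 he1
    rw [hNe, hh_zero_right, mul_zero] at h
    exact mul_ne_zero (ker_ne hε hP hPNv hNv) (ker_ne hε hP he he0) h.symm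
  have hlk : l = k := by
    have h := H v (N *ᵥ w) hv hPNw hNv hNw hNvNw
    rw [hk, hh_smul_left, hh_smul_right, hl1, hk1, hk2] at h
    have hk0 : k ≠ 0 := by
      rintro rfl
      rw [zero_mul] at hk1
      exact ker_ne hε hP hPNw hNw hk1
    have h4 : hh ε v v * hh ε w w * k * k = hh ε v v * hh ε w w * k * l := by
      linear_combination h
    have h5 : hh ε v v * hh ε w w * k ≠ 0 :=
      mul_ne_zero (mul_ne_zero (im_ne hP hv hv0) (im_ne hP hw hw0)) hk0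
    exact (mul_left_cancel₀ h5 h4).symm
  rw [← hlk] at hk
  have hlr : l = ((l.re : ℝ) : ℂ) := by
    apply Complex.ext
    · simp
    · have := congrArg Complex.im hl2
      simp only [Complex.star_def, Complex.conj_im] at this
      simp only [Complex.ofReal_im]
      linarith
  have him : ∀ x, P *ᵥ x = x → N *ᵥ (N *ᵥ x) = l • x := by
    intro x hx
    have h := orth_im (a := N *ᵥ (N *ᵥ x) - l • x) hε hP hv hw
      (by
        rw [Matrix.mulVec_sub, Matrix.mulVec_smul, hx, tan_ker hNt (tan_im hNt hx)])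
      hv0 hw0 hvw
      (by
        rw [sub_eq_add_neg, hh_add_right, hh_neg_right, hh_smul_right]
        have h1 : hh ε v (N *ᵥ (N *ᵥ x)) = hh ε (N *ᵥ (N *ᵥ v)) x := by
          rw [hh_mulVec_left hε, hNa, hh_mulVec_left hε, hNa]
        rw [h1, hl, hh_smul_left, hl2]
        ring)
      (by
        rw [sub_eq_add_neg, hh_add_right, hh_neg_right, hh_smul_right]
        have h1 : hh ε w (N *ᵥ (N *ᵥ x)) = hh ε (N *ᵥ (N *ᵥ w)) x := by
          rw [hh_mulVec_left hε, hNa, hh_mulVec_left hε, hNa]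
        rw [h1, hk, hh_smul_left, hl2]
        ring)
    exact sub_eq_zero.mp h
  have hker : ∀ x, P *ᵥ x = 0 → N *ᵥ (N *ᵥ x) = l • x := by
    intro x hx
    have h := orth_ker (a := N *ᵥ (N *ᵥ x) - l • x) hε hP hPNv hPNw
      (by
        rw [Matrix.mulVec_sub, Matrix.mulVec_smul, hx, tan_im hNt (tan_ker hNt hx), smul_zero,
          sub_zero])
      hNv hNw hNvNw
      (by
        rw [sub_eq_add_neg, hh_add_right, hh_neg_right, hh_smul_right]
        have h1 : hh ε (N *ᵥ v) (N *ᵥ (N *ᵥ x)) = hh ε (N *ᵥ (N *ᵥ (N *ᵥ v))) x := by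
          rw [hh_mulVec_left hε N (N *ᵥ (N *ᵥ v)), hNa, hh_mulVec_left hε N (N *ᵥ v), hNa]
        rw [h1, hl, Matrix.mulVec_smul, hh_smul_left, hl2]
        ring)
      (by
        rw [sub_eq_add_neg, hh_add_right, hh_neg_right, hh_smul_right]
        have h1 : hh ε (N *ᵥ w) (N *ᵥ (N *ᵥ x)) = hh ε (N *ᵥ (N *ᵥ (N *ᵥ w))) x := by
          rw [hh_mulVec_left hε N (N *ᵥ (N *ᵥ w)), hNa, hh_mulVec_left hε N (N *ᵥ w), hNa]
        rw [h1, hk, Matrix.mulVec_smul, hh_smul_left, hl2]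
        ring)
    exact sub_eq_zero.mp h
  refine ⟨l.re, ?_⟩
  rw [← hlr]
  apply Matrix.ext_of_mulVec_single
  intro j
  obtain ⟨x, hx⟩ : ∃ x, x = (Pi.single j (1:ℂ) : Fin 2 ⊕ Fin 2 → ℂ) := ⟨_, rfl⟩
  rw [← hx]
  have hxd : x = P *ᵥ x + (x - P *ᵥ x) := by abel
  have hp1 : P *ᵥ (P *ᵥ x) = P *ᵥ x := by rw [Matrix.mulVec_mulVec, hP.1]
  have hp2 : P *ᵥ (x - P *ᵥ x) = 0 := by rw [Matrix.mulVec_sub, hp1, sub_self]
  rw [← Matrix.mulVec_mulVec]
  conv_lhs => rw [hxd, Matrix.mulVec_add, Matrix.mulVec_add, him _ hp1, hker _ hp2]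
  simp only [Matrix.smul_mulVec, Matrix.one_mulVec]
  rw [← smul_add]
  congr 1
  abel

/-- `N²` is a real multiple of the identity. -/
theorem two_scalar (hε : ε = 1 ∨ ε = -1) {P N : Mat 2} (hP : P ∈ Gr ε 2)
    (hN : N ∈ tangent ε P) (hN0 : N ≠ 0)
    (H : ∀ v e, P *ᵥ v = v → P *ᵥ e = 0 → N *ᵥ v ≠ 0 → e ≠ 0 → hh ε (N *ᵥ v) e = 0 →
      hh ε v v * hh ε (N *ᵥ e) (N *ᵥ e) = hh ε (N *ᵥ v) (N *ᵥ v) * hh ε e e) :
    ∃ r : ℝ, N * N = (r : ℂ) • (1 : Mat 2) := by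
  have hNa := hN.1
  have hNt := hN.2
  obtain ⟨l, v, hv0, hv, hl⟩ := exists_eigen hP hNt
  obtain ⟨w, hwS, hw0, hvw⟩ := exists_orth (ε := ε) (LinearMap.range (Matrix.mulVecLin P))
    hP.2.2.1 v
  have hw : P *ᵥ w = w := (mem_range_iff hP.1 w).1 hwS
  have hwv : hh ε w v = 0 := by rw [← hh_star hε, hvw, star_zero]
  obtain ⟨hl1, hl2⟩ := eigen_real hε hP hN hv0 hv hl
  -- `w` is an eigenvector
  obtain ⟨k, hk⟩ : ∃ k : ℂ, N *ᵥ (N *ᵥ w) = k • w := by
    refine ⟨hh ε w (N *ᵥ (N *ᵥ w)) / hh ε w w, ?_⟩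
    have hww := im_ne hP hw hw0
    have h := orth_im (a := N *ᵥ (N *ᵥ w) - (hh ε w (N *ᵥ (N *ᵥ w)) / hh ε w w) • w) hε hP hv hw
      (by
        rw [Matrix.mulVec_sub, Matrix.mulVec_smul, hw, tan_ker hNt (tan_im hNt hw)])
      hv0 hw0 hvw
      (by
        rw [sub_eq_add_neg, hh_add_right, hh_neg_right, hh_smul_right, hvw]
        have h1 : hh ε v (N *ᵥ (N *ᵥ w)) = hh ε (N *ᵥ (N *ᵥ v)) w := by
          rw [hh_mulVec_left hε, hNa, hh_mulVec_left hε, hNa]
        rw [h1, hl, hh_smul_left, hvw]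
        ring)
      (by
        rw [sub_eq_add_neg, hh_add_right, hh_neg_right, hh_smul_right]
        field_simp
        ring)
    exact sub_eq_zero.mp h
  by_cases hNv : N *ᵥ v = 0
  · by_cases hNw : N *ᵥ w = 0
    · exfalso
      apply hN0
      have him : ∀ x, P *ᵥ x = x → N *ᵥ x = 0 := by
        intro x hx
        have hvv := im_ne hP hv hv0
        have hww := im_ne hP hw hw0
        have h := orth_im (a := x - (hh ε v x / hh ε v v) • v - (hh ε w x / hh ε w w) • w) hε hP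
          hv hw
          (by simp only [Matrix.mulVec_sub, Matrix.mulVec_smul, hv, hw, hx])
          hv0 hw0 hvw
          (by
            simp only [sub_eq_add_neg, hh_add_right, hh_neg_right, hh_smul_right, hvw]
            field_simp
            ring)
          (by
            simp only [sub_eq_add_neg, hh_add_right, hh_neg_right, hh_smul_right, hwv]
            field_simp
            ring)
        have h2 := congrArg (fun y => N *ᵥ y) h
        simp only [Matrix.mulVec_sub, Matrix.mulVec_smul, hNv, hNw, smul_zero, sub_zero,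
          Matrix.mulVec_zero] at h2
        exact h2
      have hNP : N * P = 0 := by
        apply Matrix.ext_of_mulVec_single
        intro j
        rw [Matrix.zero_mulVec, ← Matrix.mulVec_mulVec]
        exact him _ (by rw [Matrix.mulVec_mulVec, hP.1])
      have h2 : P * N = N := by
        have := hNt
        rwa [hNP, add_zero] at this
      have h3 : N * P = N := by
        have := congrArg (adj ε) h2
        rwa [adj_mul hε, hNa, hP.2.1] at this
      rw [← h3, hNP]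
    · exact two_step hε hP hN H hw0 hv0 hw hv hwv hk hl hNw
  · exact two_step hε hP hN H hv0 hw0 hv hw hvw hl hk hNv

end Q186.SM
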