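import Mathlib
import Pool.Agent.Q186.SM.TwoC
import Pool.Agent.Q186.SM.Core

/-! Hypersurfaces with `N² = r`: the geometric contradiction for `m = 2`. -/

open Set Matrix Module
open scoped ContDiff

attribute [local instance] Matrix.linftyOpNormedRing Matrix.linftyOpNormedAlgebra

namespace Q186.SM

namespace ProjHyp

variable {E V : Type*} [NormedAddCommGroup E] [NormedSpace ℝ E] [NormedRing V] [NormedAlgebra ℝ V]
  {τ : V →L[ℝ] ℝ} {σ : V →L[ℝ] V} {U : Set E} {F N : E → V}
  {Γ : E → E → E → E} {A : E → E → E}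

/-- If `N²` is constant then the shape operator anticommutes with `N`. -/
theorem anti (H : ProjHyp τ σ U F N Γ A) {c : V} (hN2 : ∀ u ∈ U, N u * N u = c) {u : E}
    (hu : u ∈ U) (x : E) :
    fderiv ℝ F u (A u x) * N u + N u * fderiv ℝ F u (A u x) = 0 := by
  have h1 := hasFDerivAt_of_contDiffOn H.isOpen H.hN hu
  have h3 := ((ContinuousLinearMap.mul ℝ V).hasFDerivAt_of_bilinear h1 h1).fderiv
  have h4 : (fun p => ContinuousLinearMap.mul ℝ V (N p) (N p)) =ᶠ[nhds u] fun _ => c := by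
    filter_upwards [H.isOpen.mem_nhds hu] with p hp
    simp only [ContinuousLinearMap.mul_apply']
    exact hN2 p hp
  have h5 := h4.fderiv_eq (𝕜 := ℝ)
  rw [h3] at h5
  have h6 := congrArg (fun L : _ →L[ℝ] V => L x) h5
  simp at h6
  obtain ⟨D, hD⟩ : ∃ D, D = fderiv ℝ N u x := ⟨_, rfl⟩
  rw [← hD] at h6
  have hs := H.shape u hu x
  rw [← hD] at hs
  have hNt := (H.N_tan u hu).2
  obtain ⟨P, hP⟩ : ∃ P, P = F u := ⟨_, rfl⟩
  obtain ⟨n, hn⟩ : ∃ n, n = N u := ⟨_, rfl⟩
  obtain ⟨T, hT⟩ : ∃ T, T = fderiv ℝ F u (A u x) := ⟨_, rfl⟩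
  rw [← hP, ← hn] at hNt
  rw [← hP, ← hT] at hs
  rw [← hn] at h6
  rw [← hn, ← hT]
  have hT2 : T = - tng P D := by rw [hs, neg_neg]
  have hPn : P * n = n * (1 - P) := by
    rw [mul_sub, mul_one, eq_sub_iff_add_eq]
    exact hNt
  have hnP : (1 - P) * n = n * P := by
    rw [sub_mul, one_mul, sub_eq_iff_eq_add, add_comm]
    exact hNt.symm
  have e1 : P * D * (1 - P) * n = P * D * n * P := by
    rw [mul_assoc (P * D), hnP, ← mul_assoc]
  have e2 : (1 - P) * D * P * n = (1 - P) * D * n * (1 - P) := by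
    rw [mul_assoc ((1 - P) * D), hPn, ← mul_assoc]
  have e3 : n * (P * D * (1 - P)) = (1 - P) * n * D * (1 - P) := by
    rw [hnP]
    simp only [mul_assoc]
  have e4 : n * ((1 - P) * D * P) = P * n * D * P := by
    rw [hPn]
    simp only [mul_assoc]
  have e5 : T * n + n * T = -(P * (n * D + D * n) * P)
      - (1 - P) * (n * D + D * n) * (1 - P) := by
    rw [hT2]
    unfold tng
    rw [neg_mul, mul_neg, add_mul, mul_add, e1, e2, e3, e4]
    simp only [mul_add, add_mul, ← mul_assoc]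
    abel
  rw [e5, h6]
  simp

end ProjHyp

variable {ε c : ℝ}

theorem hyp_anti {m : ℕ} (hε : ε = 1 ∨ ε = -1) (M : RealHypersurface ε c m) {K : Mat m}
    (hN2 : ∀ u ∈ M.U, M.N u * M.N u = K) {u : Dom m} (hu : u ∈ M.U) (x : Dom m) :
    dF M.F u (M.A u x) * M.N u + M.N u * dF M.F u (M.A u x) = 0 := by
  obtain ⟨τ, σ, hτ, hσ, H⟩ := projHyp_exists hε M
  exact H.anti hN2 hu x

/-- The trace of a product vanishes if one factor commutes and the other anticommutes
with `N`. -/
theorem trace_anti {n : Type*} [Fintype n] [DecidableEq n] {T X N : Matrix n n ℂ} {r : ℂ}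
    (hr : r ≠ 0) (hN : N * N = r • (1 : Matrix n n ℂ)) (hT : T * N + N * T = 0)
    (hX : X * N = N * X) : Matrix.trace (T * X) = 0 := by
  have hT' : T * N = -(N * T) := eq_neg_of_add_eq_zero_left hT
  have h1 : Matrix.trace (T * X * (N * N)) = r * Matrix.trace (T * X) := by
    rw [hN, Matrix.mul_smul, Matrix.mul_one, Matrix.trace_smul, smul_eq_mul]
  have h2 : T * X * (N * N) = -(N * (T * X * N)) := by
    calc T * X * (N * N) = T * (X * N) * N := by simp only [Matrix.mul_assoc]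
      _ = (T * N) * X * N := by rw [hX]; simp only [Matrix.mul_assoc]
      _ = -(N * (T * X * N)) := by
        rw [hT', Matrix.neg_mul, Matrix.neg_mul]
        simp only [Matrix.mul_assoc]
  have h3 : Matrix.trace (N * (T * X * N)) = Matrix.trace (T * X * (N * N)) := by
    rw [Matrix.trace_mul_comm, Matrix.mul_assoc (T * X)]
  have h4 : Matrix.trace (T * X * (N * N)) = - Matrix.trace (T * X * (N * N)) := by
    conv_lhs => rw [h2, Matrix.trace_neg, h3]
  rw [h1] at h4
  have h5 : 2 * (r * Matrix.trace (T * X)) = 0 := by linear_combination h4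
  rcases mul_eq_zero.mp h5 with h | h
  · norm_num at h
  · rcases mul_eq_zero.mp h with h | h
    · exact absurd h hr
    · exact h

/-- `[X, ξ]² = -4 r X²`. -/
theorem comm_sq {n : Type*} [Fintype n] [DecidableEq n] {P X N : Matrix n n ℂ} {r : ℂ}
    (hP : P * P = P) (hN : N * N = r • (1 : Matrix n n ℂ)) (hNt : P * N + N * P = N)
    (hXt : P * X + X * P = X) (hX : X * N = N * X) :
    (X * (Complex.I • (P * N - N * P)) - (Complex.I • (P * N - N * P)) * X)
      * (X * (Complex.I • (P * N - N * P)) - (Complex.I • (P * N - N * P)) * X)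
      = (-4 * r) • (X * X) := by
  obtain ⟨S, hS⟩ : ∃ S, S = 1 - P - P := ⟨_, rfl⟩
  have hSS : S * S = 1 := by rw [hS]; exact S_sq hP
  have hSN : S * N = -(N * S) := by rw [hS]; exact tan_anti hNt
  have hSX : S * X = -(X * S) := by rw [hS]; exact tan_anti hXt
  have h1 : P * N - N * P = N * S := by
    rw [hS, Matrix.mul_sub, Matrix.mul_sub, Matrix.mul_one]
    nth_rewrite 3 [← hNt]
    abel
  rw [h1]
  have h2 : X * (Complex.I • (N * S)) - (Complex.I • (N * S)) * X
      = (2 * Complex.I) • (N * X * S) := by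
    rw [Matrix.mul_smul, Matrix.smul_mul, ← Matrix.mul_assoc, hX, Matrix.mul_assoc N S X, hSX,
      Matrix.mul_neg, ← Matrix.mul_assoc]
    module
  rw [h2, Matrix.smul_mul, Matrix.mul_smul, smul_smul]
  have h3 : N * X * S * (N * X * S) = r • (X * X) := by
    calc N * X * S * (N * X * S) = N * X * (S * N) * (X * S) := by simp only [Matrix.mul_assoc]
      _ = -(N * X * N * (S * X) * S) := by
        rw [hSN]
        simp only [Matrix.mul_neg, Matrix.neg_mul, Matrix.mul_assoc]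
      _ = N * (X * N) * X * (S * S) := by
        rw [hSX]
        simp only [Matrix.mul_neg, Matrix.neg_mul, Matrix.mul_assoc, neg_neg]
      _ = (N * N) * X * X := by
        rw [hX, hSS, Matrix.mul_one]
        simp only [Matrix.mul_assoc]
      _ = r • (X * X) := by
        rw [hN]
        simp only [Matrix.smul_mul, Matrix.one_mul]
  rw [h3, smul_smul]
  congr 1
  linear_combination (4 * r) * Complex.I_mul_I

/-- **The contradiction**: no hypersurface with `N²` a nonzero constant satisfies the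
nullity condition (`m = 2`). -/
theorem two_contra (hε : ε = 1 ∨ ε = -1) (hc : 0 < c) (M : RealHypersurface ε c 2)
    {u : Dom 2} (hu : u ∈ M.U) {b : Mat 2} (hb : QUnit ε (M.F u) b) {r : ℝ} (hr : r ≠ 0)
    (hN2 : ∀ p ∈ M.U, M.N p * M.N p = (r : ℂ) • (1 : Mat 2)) (ξ : Dom 2)
    (hξ : dF M.F u ξ = -(cpx (M.F u) (M.N u)))
    (h : ∀ x y, gm ε c (dF M.F u x) (-(qc b (M.N u))) = 0 →
      gm ε c (dF M.F u y) (-(qc b (M.N u))) = 0 →
      dF M.F u (curvature M.Γ u x y ξ) = 0) : False := by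
  obtain ⟨P, hPdef⟩ : ∃ P, P = M.F u := ⟨_, rfl⟩
  obtain ⟨N, hNdef⟩ : ∃ N, N = M.N u := ⟨_, rfl⟩
  have hP : P ∈ Gr ε 2 := by rw [hPdef]; exact M.imm.mem u hu
  have hN : N ∈ tangent ε P := by rw [hPdef, hNdef]; exact M.nor.tan u hu
  have hNN : N * N = (r : ℂ) • (1 : Mat 2) := by rw [hNdef]; exact hN2 u hu
  have hrC : (r : ℂ) ≠ 0 := by exact_mod_cast hr
  have hNu : gm ε c N N = 1 := by rw [hNdef]; exact M.nor.unit u hu
  rw [← hPdef] at hb hξ
  rw [← hNdef] at hξ h
  obtain ⟨hPb, hbP, hbadj, hbtr, hbb⟩ := hb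
  have hPa := hP.2.1
  have hNa := hN.1
  have hNt := hN.2
  have hΞ : dF M.F u ξ = Complex.I • (P * N - N * P) := by
    rw [hξ, cpx, ← smul_neg, neg_sub]
  -- injectivity of N
  have hNinj : ∀ x, N *ᵥ x = 0 → x = 0 := by
    intro x hx
    have h1 : (N * N) *ᵥ x = 0 := by rw [← Matrix.mulVec_mulVec, hx, Matrix.mulVec_zero]
    rw [hNN, Matrix.smul_mulVec, Matrix.one_mulVec] at h1
    rcases smul_eq_zero.mp h1 with h2 | h2
    · exact absurd h2 hrC
    · exact h2
  -- `η_b(ξ) = 0`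
  have hηξ : gm ε c (dF M.F u ξ) (-(qc b N)) = 0 := by
    rw [hΞ]
    have hPNb : P * N * b = 0 := by
      have h := congrArg (fun M => M * b) hNt
      simp only [Matrix.add_mul] at h
      rw [Matrix.mul_assoc N P b, hPb] at h
      have h3 : P * N * b + N * b = 0 + N * b := by rw [h, zero_add]
      exact add_right_cancel h3
    have h1 : (P * N - N * P) * (b * N - N * b) = -((r : ℂ) • b) - N * b * N := by
      have e1 : (P * N - N * P) * (b * N - N * b)
          = P * N * b * N - P * (N * N) * b - N * (P * b) * N + N * (P * N * b) := by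
        simp only [Matrix.sub_mul, Matrix.mul_sub, Matrix.mul_assoc]
        abel
      rw [e1, hPNb, hNN, hPb]
      simp only [Matrix.zero_mul, Matrix.mul_zero, Matrix.mul_smul, Matrix.mul_one,
        Matrix.smul_mul, hPb]
      abel
    have h2 : Matrix.trace (N * b * N) = 0 := by
      rw [Matrix.mul_assoc, Matrix.trace_mul_comm, Matrix.mul_assoc, hNN, Matrix.mul_smul,
        Matrix.mul_one, Matrix.trace_smul, hbtr, smul_zero]
    unfold gm qc
    rw [Matrix.mul_neg, Matrix.smul_mul, h1, Matrix.trace_neg, Matrix.trace_smul,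
      Matrix.trace_sub, Matrix.trace_neg, Matrix.trace_smul, hbtr, h2]
    simp
  -- vectors
  obtain ⟨l, v, hv0, hv, -⟩ := exists_eigen hP hNt
  obtain ⟨w, hwS, hw0, hvw⟩ := exists_orth (ε := ε) (LinearMap.range (Matrix.mulVecLin P))
    hP.2.2.1 v
  have hw : P *ᵥ w = w := (mem_range_iff hP.1 w).1 hwS
  have hNv0 : N *ᵥ v ≠ 0 := fun h => hv0 (hNinj v h)
  have hNw0 : N *ᵥ w ≠ 0 := fun h => hw0 (hNinj w h)
  have hPNv : P *ᵥ (N *ᵥ v) = 0 := tan_im hNt hv
  have hNNv : N *ᵥ (N *ᵥ v) = (r : ℂ) • v := by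
    rw [Matrix.mulVec_mulVec, hNN, Matrix.smul_mulVec, Matrix.one_mulVec]
  obtain ⟨X0, hX0⟩ : ∃ X0, X0 = rk ε v (N *ᵥ v) + rk ε (N *ᵥ v) v := ⟨_, rfl⟩
  have hX0t : X0 ∈ tangent ε P := by rw [hX0]; exact rk_tangent hε hPa hv hPNv
  have hX0N : X0 * N = N * X0 := by
    rw [hX0, Matrix.add_mul, Matrix.mul_add, rk_mul hε, rk_mul hε, mul_rk, mul_rk, hNa, hNNv,
      rk_smul_right, rk_smul_left, Complex.star_def, Complex.conj_ofReal]
    abel
  obtain ⟨t, ht⟩ : ∃ t, t = gm ε c X0 N := ⟨_, rfl⟩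
  obtain ⟨X, hX⟩ : ∃ X, X = X0 - t • N := ⟨_, rfl⟩
  have hsm : t • N = (t : ℂ) • N := by
    ext i j
    simp
  have hXN : X * N = N * X := by
    rw [hX, hsm, Matrix.sub_mul, Matrix.mul_sub, hX0N, Matrix.smul_mul, Matrix.mul_smul]
  have hXt : X ∈ tangent ε P := by
    constructor
    · rw [hX, adj_sub, hX0t.1, adj_real_smul, hNa]
    · rw [hX, hsm, Matrix.mul_sub, Matrix.sub_mul, Matrix.mul_smul, Matrix.smul_mul]
      calc _ = (P * X0 + X0 * P) - ((t : ℂ) • (P * N) + (t : ℂ) • (N * P)) := by abel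
        _ = _ := by rw [hX0t.2, ← smul_add, hNt]
  have hXn : gm ε c X N = 0 := by
    have h1 : X0 = X + t • N := by rw [hX]; abel
    have h2 := gm_add_left (ε := ε) (c := c) X (t • N) N
    rw [← h1, gm_smul_left, hNu, ← ht] at h2
    linarith
  obtain ⟨x, hx⟩ := exists_rep M hu (X := X) (by rw [← hPdef]; exact hXt)
    (by rw [← hNdef]; exact hXn)
  have hX0' : X ≠ 0 := by
    intro hX00
    have h1 : X0 = (t : ℂ) • N := by
      rw [← hsm, ← sub_eq_zero, ← hX]
      exact hX00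
    have h2 : X0 *ᵥ w = 0 := by
      rw [hX0, Matrix.add_mulVec, rk_mulVec, rk_mulVec, hvw, hh_ker_im hε hPa hw hPNv]
      simp
    rw [h1, Matrix.smul_mulVec] at h2
    rcases smul_eq_zero.mp h2 with h3 | h3
    · have h4 : X0 *ᵥ v = 0 := by rw [h1, h3]; simp
      rw [hX0, Matrix.add_mulVec, rk_mulVec, rk_mulVec, hh_ker_im hε hPa hv hPNv, zero_smul,
        zero_add] at h4
      rcases smul_eq_zero.mp h4 with h5 | h5
      · exact im_ne hP hv hv0 h5
      · exact hNv0 h5
    · exact hNw0 h3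
  have hx0 : x ≠ 0 := by
    rintro rfl
    apply hX0'
    rw [← hx, dF, map_zero]
  -- `η_b(x) = 0`
  have hηx : gm ε c (dF M.F u x) (-(qc b N)) = 0 := by
    rw [hx]
    have h1 : Matrix.trace (X * (b * N - N * b)) = 0 := by
      rw [Matrix.mul_sub, Matrix.trace_sub, ← Matrix.mul_assoc, ← Matrix.mul_assoc, hXN,
        Matrix.trace_mul_comm, ← Matrix.mul_assoc, sub_self]
    unfold gm qc
    rw [Matrix.mul_neg, Matrix.trace_neg, h1]
    simp
  -- the shape operator
  have hA : ∀ y, gm ε c (dF M.F u (M.A u y)) X = 0 := by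
    intro y
    have h1 := hyp_anti hε M hN2 hu y
    rw [← hNdef] at h1
    have h2 := trace_anti hrC hNN h1 hXN
    rw [gm, h2]
    simp
  have h0 := h x ξ hηx hηξ
  have hG := hyp_gauss hε M hu x ξ ξ x
  rw [h0, gm_zero_left, hx, hA, hA, mul_zero, mul_zero, add_zero, sub_zero, hΞ] at hG
  have hsq := comm_sq hP.1 hNN hNt hXt.2 hXN
  have h5 : gm ε c (X * (Complex.I • (P * N - N * P)) - (Complex.I • (P * N - N * P)) * X)
      ((Complex.I • (P * N - N * P)) * X - X * (Complex.I • (P * N - N * P)))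
      = 4 * r * gm ε c X X := by
    rw [← neg_sub (X * (Complex.I • (P * N - N * P))) ((Complex.I • (P * N - N * P)) * X)]
    unfold gm
    rw [Matrix.mul_neg, Matrix.trace_neg, hsq, Matrix.trace_smul]
    have : (-4 * (r : ℂ)) • Matrix.trace (X * X) = (((-4 * r : ℝ)) : ℂ) * Matrix.trace (X * X) := by
      push_cast
      rfl
    rw [this, Complex.neg_re, Complex.re_ofReal_mul]
    ring
  rw [h5] at hG
  have hpos := M.imm.pos u hu x hx0
  rw [hx] at hpos
  have : 4 * r * gm ε c X X ≠ 0 := mul_ne_zero (mul_ne_zero four_ne_zero hr) hpos.ne'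
  exact this hG.symm

end Q186.SM
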