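import Mathlib
import Pool.Agent.Q186.SM.TwoD

/-! Nonexistence of hypersurfaces with `ξ` in a `(κ, μ, ν)_i`-nullity distribution, `m = 2`. -/

open Set Matrix Module
open scoped ContDiff

namespace Q186.SM

variable {ε c : ℝ}

theorem two_point (hε : ε = 1 ∨ ε = -1) (hc : 0 < c) (M : RealHypersurface ε c 2)
    {u : Dom 2} (hu : u ∈ M.U) {V : Mat 2} (ξ : Dom 2)
    (hξ : dF M.F u ξ = -(cpx (M.F u) (M.N u)))
    (h : ∀ x y, gm ε c (dF M.F u x) V = 0 → gm ε c (dF M.F u y) V = 0 →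
      dF M.F u (curvature M.Γ u x y ξ) = 0) :
    ∃ r : ℝ, M.N u * M.N u = (r : ℂ) • (1 : Mat 2) := by
  have hk : ε * c ≠ 0 := by
    rcases hε with rfl | rfl
    · simp only [one_mul]; exact hc.ne'
    · simp only [neg_mul, one_mul, ne_eq, neg_eq_zero]; exact hc.ne'
  have hgm : ∀ X Y : Mat 2, (Matrix.trace (X * Y)).re = 0 → gm ε c X Y = 0 := by
    intro X Y h
    rw [gm, h, mul_zero]
  have hN0 : M.N u ≠ 0 := by
    intro h0
    have := M.nor.unit u hu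
    rw [h0, gm_zero_left] at this
    exact zero_ne_one this
  refine two_scalar hε (M.imm.mem u hu) (M.nor.tan u hu) hN0 ?_
  intro v e hv he hNv he0 hort
  by_contra hne
  obtain ⟨X, hX, Y, hY, Z, hZ, hXW, hYW, hZN, hne2⟩ := two_core (b := -(Complex.I • M.F u)) hε
    (M.imm.mem u hu) (M.nor.tan u hu) rfl ![M.N u, V, dF M.F u (M.A u ξ)] hv he hNv he0 hort hne
  rw [cpx_eq] at hξ
  obtain ⟨x, hx⟩ := exists_rep M hu hX (hgm _ _ (hXW 0))
  obtain ⟨y, hy⟩ := exists_rep M hu hY (hgm _ _ (hYW 0))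
  obtain ⟨z, hz⟩ := exists_rep M hu hZ (hgm _ _ hZN)
  have h1 := h x y (by rw [hx]; exact hgm _ _ (hXW 1)) (by rw [hy]; exact hgm _ _ (hYW 1))
  have h2 := hyp_gauss hε M hu x y ξ z
  rw [h1, gm_zero_left] at h2
  have hAx : gm ε c (dF M.F u (M.A u x)) (dF M.F u ξ) = 0 := by
    rw [hyp_A_symm hε M hu, gm_comm, hx]
    exact hgm _ _ (hXW 2)
  have hAy : gm ε c (dF M.F u (M.A u y)) (dF M.F u ξ) = 0 := by
    rw [hyp_A_symm hε M hu, gm_comm, hy]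
    exact hgm _ _ (hYW 2)
  rw [hAx, hAy, hx, hy, hz, hξ] at h2
  simp only [zero_mul, add_zero, sub_zero] at h2
  unfold gm at h2
  rcases mul_eq_zero.mp h2.symm with h3 | h3
  · exact hk h3
  · exact hne2 h3

theorem no_two (hε : ε = 1 ∨ ε = -1) (hc : 0 < c) (M : RealHypersurface ε c 2)
    (b : Dom 2 → Mat 2) (hb : ∀ u ∈ M.U, QUnit ε (M.F u) (b u))
    (h : ∀ u ∈ M.U, ∀ ξ, dF M.F u ξ = -(cpx (M.F u) (M.N u)) → ∀ x y,
      gm ε c (dF M.F u x) (-(qc (b u) (M.N u))) = 0 →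
      gm ε c (dF M.F u y) (-(qc (b u) (M.N u))) = 0 →
      dF M.F u (curvature M.Γ u x y ξ) = 0) : False := by
  have hk : ε * c ≠ 0 := by
    rcases hε with rfl | rfl
    · simp only [one_mul]; exact hc.ne'
    · simp only [neg_mul, one_mul, ne_eq, neg_eq_zero]; exact hc.ne'
  have hxi : ∀ u ∈ M.U, ∃ ξ, dF M.F u ξ = -(cpx (M.F u) (M.N u)) := by
    intro u hu
    obtain ⟨h1, h2, h3, -⟩ := iP_facts (M.imm.mem u hu)
    obtain ⟨ξ, hξ⟩ := exists_xi hε M hu h1 h2 h3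
    exact ⟨ξ, by rw [cpx_eq]; exact hξ⟩
  have hN2 : ∀ p ∈ M.U, M.N p * M.N p = ((1 / (ε * c * 4) : ℝ) : ℂ) • (1 : Mat 2) := by
    intro p hp
    obtain ⟨ξ, hξ⟩ := hxi p hp
    obtain ⟨r, hr⟩ := two_point hε hc M hp ξ hξ (h p hp ξ hξ)
    have h1 := M.nor.unit p hp
    rw [gm, hr, Matrix.trace_smul, Matrix.trace_one] at h1
    have h2 : ((r : ℂ) • ((Fintype.card (Fin 2 ⊕ Fin 2) : ℕ) : ℂ)).re = r * 4 := by
      simp
    rw [h2] at h1
    have h3 : r = 1 / (ε * c * 4) := by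
      rw [eq_div_iff (mul_ne_zero hk four_ne_zero)]
      linarith
    rw [hr, h3]
  obtain ⟨u, hu⟩ := M.imm.isConnected.nonempty
  obtain ⟨ξ, hξ⟩ := hxi u hu
  exact two_contra hε hc M hu (hb u hu) (r := 1 / (ε * c * 4))
    (one_div_ne_zero (mul_ne_zero hk four_ne_zero)) hN2 ξ hξ (h u hu ξ hξ)

end Q186.SM
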