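import Mathlib
import Pool.Agent.Q186.SM.GrDef

/-!
Structure vector `ξ = -JN` of a real hypersurface in a `(κ, μ, ν)_i`-nullity distribution.
The ambient spaces, the Levi-Civita connection, the curvature tensor and real hypersurfaces are
defined in `Pool.Agent.Q186.SM.Conn` and `Pool.Agent.Q186.SM.GrDef`.
-/

open scoped ContDiff

attribute [local instance] Matrix.linftyOpNormedRing Matrix.linftyOpNormedAlgebra

namespace Q186.SM

variable {ε c : ℝ} {m : ℕ}

/-- `η_b(x) = g(x, ξ_b)` where `ξ_b = -J_b N`, for the almost complex structure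
`J_b X = b X - X b`. -/
noncomputable def etaB (M : RealHypersurface ε c m) (b : Mat m) (u x : Dom m) : ℝ :=
  gm ε c (dF M.F u x) (-(qc b (M.N u)))

/-- `φ_b x = J_b x - η_b(x) N` (as a vector of the ambient space). -/
noncomputable def phiB (M : RealHypersurface ε c m) (b : Mat m) (u x : Dom m) : Mat m :=
  qc b (dF M.F u x) - etaB M b u x • M.N u

/-- `κ x + μ A x + ν φ_b A x` (as a vector of the ambient space). -/
noncomputable def combB (M : RealHypersurface ε c m) (b : Mat m) (κ μ ν : ℝ) (u x : Dom m) :
    Mat m :=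
  κ • dF M.F u x + μ • dF M.F u (M.A u x) + ν • phiB M b u (M.A u x)

/-- The structure vector `ξ = -JN` lies in the `(κ, μ, ν)_i`-nullity distribution, with respect
to the frame `J_j X = b_j X - X b_j` (`j = 0, 1, 2`) of the quaternionic structure:
`R(x, y) ξ = η_i(y) (κ x + μ A x + ν φ_i A x) - η_i(x) (κ y + μ A y + ν φ_i A y)`
for all tangent vectors `x, y` at all points `u` (the equation is written in the ambient tangent
space, that is, after applying the injective differential of the immersion `F`). -/
def XiInNullity (M : RealHypersurface ε c m) (b : Dom m → Fin 3 → Mat m) (i : Fin 3)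
    (κ μ ν : Dom m → ℝ) : Prop :=
  ∀ u ∈ M.U, ∃ ξ, dF M.F u ξ = -(cpx (M.F u) (M.N u)) ∧ ∀ x y,
    dF M.F u (curvature M.Γ u x y ξ)
      = etaB M (b u i) u y • combB M (b u i) (κ u) (μ u) (ν u) u x
        - etaB M (b u i) u x • combB M (b u i) (κ u) (μ u) (ν u) u y

/-- `b` gives at every point of `U` an orthonormal frame of the quaternionic structure. -/
def IsFrame (M : RealHypersurface ε c m) (b : Dom m → Fin 3 → Mat m) : Prop :=
  ∀ u ∈ M.U, QFrame ε (M.F u) (b u)

/-- The frame is smooth. -/
def SmoothFrame (M : RealHypersurface ε c m) (b : Dom m → Fin 3 → Mat m) : Prop :=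
  ∀ j, ContDiffOn ℝ ∞ (fun u => b u j) M.U

end Q186.SM
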