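import Mathlib
import Pool.Agent.Q186.SM.OneE
import Pool.Agent.Q186.SM.TwoE
import Pool.Agent.Q186.SM.XiDef

/-! Existence for `m = 1` and nonexistence for `m ≥ 2`. -/

open Set Matrix Module
open scoped ContDiff

attribute [local instance] Matrix.linftyOpNormedRing Matrix.linftyOpNormedAlgebra

namespace Q186.SM

namespace Horo

/-- the frame of the quaternionic structure -/
noncomputable def bf (u : Dom 1) : Fin 3 → Mat 1 :=
  ![Complex.I • (rk (-1) (w2 u) (w2 u) - rk (-1) (wf u) (wf u)),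
    rk (-1) (w2 u) (wf u) - rk (-1) (wf u) (w2 u),
    Complex.I • (rk (-1) (w2 u) (wf u) + rk (-1) (wf u) (w2 u))]

theorem contDiff_bf (j : Fin 3) : ContDiff ℝ ∞ (fun u => bf u j) := by
  have a := contDiff_rk contDiff_w2 contDiff_w2
  have b := contDiff_rk contDiff_wf contDiff_wf
  have c := contDiff_rk contDiff_w2 contDiff_wf
  have d := contDiff_rk contDiff_wf contDiff_w2
  fin_cases j
  · exact (a.sub b).const_smul Complex.I
  · exact c.sub d
  · exact (c.add d).const_smul Complex.I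

theorem bf_frame (u : Dom 1) : QFrame (-1) (Fh u) (bf u) := by
  have e0 : bf u 0 = Complex.I • (rk (-1) (w2 u) (w2 u) - rk (-1) (wf u) (wf u)) := rfl
  have e1 : bf u 1 = rk (-1) (w2 u) (wf u) - rk (-1) (wf u) (w2 u) := rfl
  have e2 : bf u 2 = Complex.I • (rk (-1) (w2 u) (wf u) + rk (-1) (wf u) (w2 u)) := rfl
  have m : ∀ a b c d : Vec, rk (-1) a b * rk (-1) c d = hh (-1) b c • rk (-1) a d := by
    intro a b c d
    rw [mul_rk, rk_mulVec, rk_smul_left]
  have s1 : bf u 0 * bf u 1 = bf u 2 := by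
    rw [e0, e1, e2]
    simp only [Matrix.smul_mul, Matrix.sub_mul, Matrix.mul_sub, m, h_22, h_ww, h_2w, h_w2,
      one_smul, zero_smul]
    module
  have s2 : bf u 1 * bf u 0 = - bf u 2 := by
    rw [e0, e1, e2]
    simp only [Matrix.mul_smul, Matrix.sub_mul, Matrix.mul_sub, m, h_22, h_ww, h_2w, h_w2,
      one_smul, zero_smul]
    module
  refine ⟨?_, s1, s2⟩
  have hI : ∀ X : Mat 1, Complex.I • Complex.I • X = -X := by
    intro X
    rw [smul_smul, Complex.I_mul_I, neg_one_smul]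
  have q0 : QUnit (-1) (Fh u) (bf u 0) := by
    rw [e0]
    refine ⟨?_, ?_, ?_, ?_, ?_⟩
    · rw [Matrix.mul_smul, Matrix.mul_sub, mul_rk, mul_rk, Fh_2, Fh_w]
    · rw [Matrix.smul_mul, Matrix.sub_mul, rk_mul hneg, rk_mul hneg, adj_Fh, Fh_2, Fh_w]
    · rw [adj_smul, adj_sub, adj_rk hneg, adj_rk hneg]
      simp only [Complex.star_def, Complex.conj_I]
      module
    · rw [Matrix.trace_smul, Matrix.trace_sub, trace_rk, trace_rk, h_22, h_ww]
      simp
    · rw [Fh_eq, Matrix.smul_mul, Matrix.mul_smul, hI]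
      simp only [Matrix.sub_mul, Matrix.mul_sub, m, h_22, h_ww, h_2w, h_w2, one_smul, zero_smul]
      abel
  have q1 : QUnit (-1) (Fh u) (bf u 1) := by
    rw [e1]
    refine ⟨?_, ?_, ?_, ?_, ?_⟩
    · rw [Matrix.mul_sub, mul_rk, mul_rk, Fh_2, Fh_w]
    · rw [Matrix.sub_mul, rk_mul hneg, rk_mul hneg, adj_Fh, Fh_2, Fh_w]
    · rw [adj_sub, adj_rk hneg, adj_rk hneg]
      abel
    · rw [Matrix.trace_sub, trace_rk, trace_rk, h_w2, h_2w]
      simp
    · rw [Fh_eq]
      simp only [Matrix.sub_mul, Matrix.mul_sub, m, h_22, h_ww, h_2w, h_w2, one_smul, zero_smul]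
      abel
  have q2 : QUnit (-1) (Fh u) (bf u 2) := by
    rw [e2]
    refine ⟨?_, ?_, ?_, ?_, ?_⟩
    · rw [Matrix.mul_smul, Matrix.mul_add, mul_rk, mul_rk, Fh_2, Fh_w]
    · rw [Matrix.smul_mul, Matrix.add_mul, rk_mul hneg, rk_mul hneg, adj_Fh, Fh_2, Fh_w]
    · rw [adj_smul, adj_add, adj_rk hneg, adj_rk hneg]
      simp only [Complex.star_def, Complex.conj_I]
      module
    · rw [Matrix.trace_smul, Matrix.trace_add, trace_rk, trace_rk, h_w2, h_2w]
      simp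
    · rw [Fh_eq, Matrix.smul_mul, Matrix.mul_smul, hI]
      simp only [Matrix.add_mul, Matrix.mul_add, m, h_22, h_ww, h_2w, h_w2, one_smul, zero_smul]
      abel
  intro i
  fin_cases i
  · exact q0
  · exact q1
  · exact q2

theorem dF_T (u : Dom 1) : dF Fh u (mk 0 0 1)
    = Complex.I • (rk (-1) (vf u) (wf u) - rk (-1) (wf u) (vf u)) := by
  rw [dF_eq, om_T, zf_T, zb_T]
  simp

theorem cpx_N (s : ℝ) (u : Dom 1) : cpx (Fh u) (Nh s u) = s • dF Fh u (mk 0 0 1) := by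
  rw [dF_T]
  unfold cpx Nh
  rw [rsmM, rsmM, Matrix.smul_mul, Matrix.mul_smul, Matrix.add_mul, Matrix.mul_add, mul_rk,
    mul_rk, rk_mul hneg, rk_mul hneg, adj_Fh, Fh_v, Fh_w, rk_zero_left, rk_zero_right]
  module

theorem qc_N (s : ℝ) (u : Dom 1) : qc (bf u 0) (Nh s u) = s • dF Fh u (mk 0 0 1) := by
  rw [dF_T]
  have e0 : bf u 0 = Complex.I • (rk (-1) (w2 u) (w2 u) - rk (-1) (wf u) (wf u)) := rfl
  have m : ∀ a b c d : Vec, rk (-1) a b * rk (-1) c d = hh (-1) b c • rk (-1) a d := by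
    intro a b c d
    rw [mul_rk, rk_mulVec, rk_smul_left]
  unfold qc Nh
  rw [e0, rsmM, rsmM]
  simp only [Matrix.smul_mul, Matrix.mul_smul, Matrix.add_mul, Matrix.mul_add, Matrix.sub_mul,
    Matrix.mul_sub, m, h_22, h_ww, h_2w, h_w2, h_2v, h_v2, h_wv, h_vw, one_smul, zero_smul]
  module

theorem exists_one (c : ℝ) (hc : 0 < c) :
    IsFrame (horo c hc) bf ∧ SmoothFrame (horo c hc) bf ∧
      XiInNullity (horo c hc) bf 0 (fun _ => 1 / (2 * c)) (fun _ => 0) (fun _ => 0) := by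
  refine ⟨fun u _ => bf_frame u, fun j => (contDiff_bf j).contDiffOn, ?_⟩
  intro u _
  obtain ⟨s, hs⟩ : ∃ s, s = 1 / √(2 * c) := ⟨_, rfl⟩
  refine ⟨(-s) • mk 0 0 1, ?_, ?_⟩
  · change dF Fh u ((-s) • mk 0 0 1) = -(cpx (Fh u) (Nh (1 / √(2 * c)) u))
    rw [← hs, cpx_N]
    unfold dF
    rw [map_smul, neg_smul]
  · intro x y
    have he : ∀ x, etaB (horo c hc) (bf u 0) u x = -(2 * c * s * om u x) := by
      intro x
      change gm (-1) c (dF Fh u x) (-(qc (bf u 0) (Nh (1 / √(2 * c)) u))) = _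
      rw [← hs, qc_N, ← neg_smul, gm_comm, gm_smul_left, gm_comm, gm_dF, om_T]
      have h0 : co 0 (mk 0 0 1) = 0 := rfl
      have h1 : co 1 (mk 0 0 1) = 0 := rfl
      rw [h0, h1]
      ring
    have hcb : ∀ x, combB (horo c hc) (bf u 0) (1 / (2 * c)) 0 0 u x
        = (1 / (2 * c)) • dF Fh u x := by
      intro x
      unfold combB
      rw [zero_smul, zero_smul, add_zero, add_zero]
      rfl
    rw [he, he, hcb, hcb]
    change dF Fh u (curvature Gh u x y ((-s) • mk 0 0 1)) = _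
    rw [curv_vert]
    have hlin : dF Fh u ((-s) • (om u y • x - om u x • y))
        = (-s) • (om u y • dF Fh u x - om u x • dF Fh u y) := by
      unfold dF
      rw [map_smul, map_sub, map_smul, map_smul]
    rw [hlin, smul_smul, smul_smul, smul_sub, smul_smul, smul_smul]
    congr 2
    · field_simp
    · field_simp

end Horo

theorem dF_inj {ε c : ℝ} {m : ℕ} (M : RealHypersurface ε c m) {u : Dom m} (hu : u ∈ M.U)
    {x y : Dom m} (h : dF M.F u x = dF M.F u y) : x = y := by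
  by_contra hne
  have h1 := M.imm.pos u hu (x - y) (sub_ne_zero.mpr hne)
  have h2 : dF M.F u (x - y) = 0 := by
    unfold dF at h ⊢
    rw [map_sub, h, sub_self]
  rw [h2, gm_zero_left] at h1
  exact lt_irrefl _ h1

theorem none_big {ε c : ℝ} {m : ℕ} (hm : 2 ≤ m) (hε : ε = 1 ∨ ε = -1) (hc : 0 < c)
    (M : RealHypersurface ε c m) (b : Dom m → Fin 3 → Mat m) (hb : IsFrame M b) (i : Fin 3)
    (κ μ ν : Dom m → ℝ) : ¬ XiInNullity M b i κ μ ν := by
  intro h
  have h' : ∀ u ∈ M.U, ∀ ξ, dF M.F u ξ = -(cpx (M.F u) (M.N u)) → ∀ x y,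
      gm ε c (dF M.F u x) (-(qc (b u i) (M.N u))) = 0 →
      gm ε c (dF M.F u y) (-(qc (b u i) (M.N u))) = 0 →
      dF M.F u (curvature M.Γ u x y ξ) = 0 := by
    intro u hu ξ hξ x y hx hy
    obtain ⟨ξ', hξ', hR⟩ := h u hu
    have : ξ = ξ' := dF_inj M hu (hξ.trans hξ'.symm)
    rw [this, hR x y]
    have ex : etaB M (b u i) u x = 0 := hx
    have ey : etaB M (b u i) u y = 0 := hy
    rw [ex, ey]
    simp
  rcases hm.eq_or_lt with rfl | hm3
  · exact no_two hε hc M (fun u => b u i) (fun u hu => (hb u hu).1 i) h'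
  · obtain ⟨u, hu⟩ := M.imm.isConnected.nonempty
    obtain ⟨h1, h2, h3, h4⟩ := iP_facts (M.imm.mem u hu)
    obtain ⟨ξ, hξ⟩ := exists_xi hε M hu h1 h2 h3
    refine core hm3 hε hc M hu (V := -(qc (b u i) (M.N u))) h1 h2 h3 h4 ξ hξ ?_
    rw [← cpx_eq] at hξ
    exact h' u hu ξ hξ

end Q186.SM
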