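import Mathlib
import Pool.Agent.Q186.SM.Conn

/-!
Closed manifolds immersed in the unit ball of a Euclidean space: induced metric, second
fundamental form, maximal normal curvature, the Ricci condition (R).
`X` is a manifold modelled on the Euclidean space `E` (of dimension four in the theorem), `V` is
the ambient Euclidean space `ℝ^N`. All objects at a point `p` are written in the preferred chart
`chartAt E p` of the manifold.
-/

open scoped Manifold ContDiff ENNReal

namespace Q186.SM

section immersion

variable {E V X : Type*} [NormedAddCommGroup E] [InnerProductSpace ℝ E]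
  [NormedAddCommGroup V] [InnerProductSpace ℝ V] [TopologicalSpace X] [ChartedSpace E X]

/-- The map `f` read in the preferred chart `φ` at `p`, that is `f ∘ φ⁻¹`. -/
noncomputable def loc (f : X → V) (p : X) (u : E) : V := f ((chartAt E p).symm u)

/-- The derivative of `f ∘ φ⁻¹` at the point `u` of the chart, applied to `x`. -/
noncomputable def dloc (f : X → V) (p : X) (u x : E) : V := fderiv ℝ (loc f p) u x

/-- The induced metric `g = f^* g_V` in the preferred chart at `p`: its value at the point
`u` of the chart, on the tangent vectors `x, y`. -/
noncomputable def met (f : X → V) (p : X) (u x y : E) : ℝ :=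
  inner ℝ (dloc f p u x) (dloc f p u y)

/-- The tangent space `df(T_p X) ⊆ V` of the immersion at `p`. -/
noncomputable def tanSpace (E : Type*) {V X : Type*} [NormedAddCommGroup E]
    [InnerProductSpace ℝ E] [NormedAddCommGroup V] [InnerProductSpace ℝ V] [TopologicalSpace X]
    [ChartedSpace E X] (f : X → V) (p : X) : Submodule ℝ V :=
  Submodule.span ℝ (Set.range (dloc f p (chartAt E p p)))

/-- The second derivative `D_x D_y f` at `p`, in the preferred chart at `p`. -/
noncomputable def hessian (f : X → V) (p : X) (x y : E) : V :=
  fderiv ℝ (fun u => dloc f p u y) (chartAt E p p) x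

/-- The second fundamental form `A(x, y)` of `f` at `p`: the normal component of `D_x D_y f`. -/
noncomputable def secondFF [FiniteDimensional ℝ V] (f : X → V) (p : X) (x y : E) : V :=
  (tanSpace E f p)ᗮ.starProjection (hessian f p x y)

/-- The maximal normal curvature of `f`: the supremum of `|A(x, x)|` over all `p` and all
tangent vectors `x` at `p` with `g(x, x) = 1`. -/
noncomputable def maxNormalCurvature (E : Type*) {V X : Type*} [NormedAddCommGroup E]
    [InnerProductSpace ℝ E] [NormedAddCommGroup V] [InnerProductSpace ℝ V]
    [FiniteDimensional ℝ V] [TopologicalSpace X] [ChartedSpace E X] (f : X → V) : ℝ≥0∞ :=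
  ⨆ (p : X) (x : E) (_ : met f p (chartAt E p p) x x = 1), ‖secondFF f p x x‖ₑ

end immersion

section ricci

variable {E : Type*} [NormedAddCommGroup E] [NormedSpace ℝ E]

/-- The Ricci curvature `Ric(v, v) = ∑ g(R(e_i, v) v, e_i)` at `u` of the metric `g` with
Christoffel map `Γ`, computed with the `g`-orthonormal basis `e`. -/
noncomputable def ricci (g : E → E → E → ℝ) (Γ : E → E → E → E) (u : E)
    (e : Fin 4 → E) (v : E) : ℝ :=
  ∑ i, g u (curvature Γ u (e i) v v) (e i)

/-- The scalar curvature `∑ Ric(e_j, e_j)`, computed with the `g`-orthonormal basis `e`. -/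
noncomputable def scal (g : E → E → E → ℝ) (Γ : E → E → E → E) (u : E) (e : Fin 4 → E) : ℝ :=
  ∑ j, ricci g Γ u e (e j)

/-- The metric `g` on the open subset `U` of the four-dimensional space `E` satisfies condition
(R) at the point `u`: for its Levi-Civita connection, `2 Ric(v, v) < scal` for every unit vector
`v`; here `v = e_3` is the last vector of an arbitrary orthonormal basis `e`, in which the
traces are computed. -/
def ConditionR (U : Set E) (g : E → E → E → ℝ) (u : E) : Prop :=
  ∃ Γ, IsLeviCivita U g Γ ∧ ∀ e : Fin 4 → E,
    (∀ i j, g u (e i) (e j) = if i = j then 1 else 0) →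
      2 * ricci g Γ u e (e 3) < scal g Γ u e

end ricci

end Q186.SM
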