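import Mathlib
import Pool.Agent.Q186.SM.Ric4Def
import Pool.Agent.Q186.SM.LocalS

/-! Closed manifolds in the unit ball: from the charts to the manifold. -/

open Set
open scoped Manifold ContDiff ENNReal

namespace Q186.SM

section linear

variable {E V : Type*} [NormedAddCommGroup E] [InnerProductSpace ℝ E] [FiniteDimensional ℝ E]
  [NormedAddCommGroup V] [InnerProductSpace ℝ V]

theorem proj_pinv {L : E →L[ℝ] V} (hL : Function.Injective L) (K : Submodule ℝ V)
    [K.HasOrthogonalProjection] (hK : ∀ v, v ∈ K ↔ ∃ x, L x = v) (w : V) :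
    K.starProjection w = L (pinv L w) := by
  apply Submodule.eq_starProjection_of_mem_of_inner_eq_zero
  · rw [hK]
    exact ⟨_, rfl⟩
  · intro v hv
    obtain ⟨x, rfl⟩ := (hK v).1 hv
    rw [inner_sub_left, pinv_spec hL]
    ring

end linear

variable {E V X : Type*} [NormedAddCommGroup E] [InnerProductSpace ℝ E] [FiniteDimensional ℝ E]
  [NormedAddCommGroup V] [InnerProductSpace ℝ V] [FiniteDimensional ℝ V] [TopologicalSpace X]
  [ChartedSpace E X] [IsManifold 𝓘(ℝ, E) ∞ X] {f : X → V}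

omit [FiniteDimensional ℝ E] [FiniteDimensional ℝ V] in
theorem contDiffOn_loc (hf : ContMDiff 𝓘(ℝ, E) 𝓘(ℝ, V) ∞ f) (p : X) :
    ContDiffOn ℝ ∞ (loc (E := E) f p) (chartAt E p).target := by
  rw [← contMDiffOn_iff_contDiffOn]
  exact hf.comp_contMDiffOn (contMDiffOn_chart_symm (I := 𝓘(ℝ, E)) (n := ∞) (x := p))

omit [FiniteDimensional ℝ E] [FiniteDimensional ℝ V] in
theorem fderiv_loc (hf : ContMDiff 𝓘(ℝ, E) 𝓘(ℝ, V) ∞ f) (p : X) {u : E}
    (hu : u ∈ (chartAt E p).target) (x : E) :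
    fderiv ℝ (loc f p) u x
      = mfderiv 𝓘(ℝ, E) 𝓘(ℝ, V) f ((chartAt E p).symm u)
        (mfderiv 𝓘(ℝ, E) 𝓘(ℝ, E) (chartAt E p).symm u x) := by
  have : IsManifold 𝓘(ℝ, E) 1 X := IsManifold.of_le (n := ∞) (by simp)
  have h1 : MDifferentiableAt 𝓘(ℝ, E) 𝓘(ℝ, V) f ((chartAt E p).symm u) :=
    (hf.mdifferentiable (by simp)) _
  have hch := mdifferentiable_chart (I := 𝓘(ℝ, E)) p
  have h2 := hch.mdifferentiableAt_symm hu
  have h3 := mfderiv_comp u h1 h2
  rw [← mfderiv_eq_fderiv]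
  have h4 : mfderiv 𝓘(ℝ, E) 𝓘(ℝ, V) (loc f p) u = _ := h3
  rw [h4]
  rfl

omit [FiniteDimensional ℝ E] [FiniteDimensional ℝ V] in
theorem loc_imm (hf : ContMDiff 𝓘(ℝ, E) 𝓘(ℝ, V) ∞ f)
    (himm : ∀ p, Function.Injective (mfderiv 𝓘(ℝ, E) 𝓘(ℝ, V) f p))
    (p : X) (u : E) (hu : u ∈ (chartAt E p).target) :
    Function.Injective (fderiv ℝ (loc f p) u) := by
  have : IsManifold 𝓘(ℝ, E) 1 X := IsManifold.of_le (n := ∞) (by simp)
  intro x y hxy
  rw [fderiv_loc hf p hu, fderiv_loc hf p hu] at hxy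
  have h1 := himm _ hxy
  have hch := (mdifferentiable_chart (I := 𝓘(ℝ, E)) p).symm
  exact hch.mfderiv_injective hu h1

omit [FiniteDimensional ℝ E] [FiniteDimensional ℝ V] in
theorem loc_range (hf : ContMDiff 𝓘(ℝ, E) 𝓘(ℝ, V) ∞ f)
    (p : X) {u : E} (hu : u ∈ (chartAt E p).target) (v : V) :
    (∃ x, fderiv ℝ (loc f p) u x = v) ↔
      ∃ x, mfderiv 𝓘(ℝ, E) 𝓘(ℝ, V) f ((chartAt E p).symm u) x = v := by
  have : IsManifold 𝓘(ℝ, E) 1 X := IsManifold.of_le (n := ∞) (by simp)
  constructor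
  · rintro ⟨x, rfl⟩
    exact ⟨_, (fderiv_loc hf p hu x).symm⟩
  · rintro ⟨x, rfl⟩
    have hch := (mdifferentiable_chart (I := 𝓘(ℝ, E)) p).symm
    obtain ⟨y, hy⟩ := hch.mfderiv_surjective hu x
    exact ⟨y, (fderiv_loc hf p hu y).trans (congrArg _ hy)⟩

omit [FiniteDimensional ℝ E] [FiniteDimensional ℝ V] [IsManifold 𝓘(ℝ, E) ∞ X] in
theorem mem_tan_self (q : X) (v : V) :
    v ∈ tanSpace E f q ↔ ∃ x, fderiv ℝ (loc f q) (chartAt E q q) x = v := by
  have h : Set.range (dloc f q (chartAt E q q))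
      = ((LinearMap.range (fderiv ℝ (loc f q) (chartAt E q q)).toLinearMap : Submodule ℝ V) :
        Set V) := by
    ext v
    simp [dloc]
  unfold tanSpace
  rw [h, Submodule.span_eq]
  simp

omit [FiniteDimensional ℝ E] [FiniteDimensional ℝ V] in
theorem mem_tanSpace (hf : ContMDiff 𝓘(ℝ, E) 𝓘(ℝ, V) ∞ f)
    (p q : X) (hq : q ∈ (chartAt E p).source) (v : V) :
    v ∈ tanSpace E f q ↔ ∃ x, fderiv ℝ (loc f p) (chartAt E p q) x = v := by
  rw [loc_range hf p ((chartAt E p).map_source hq), (chartAt E p).left_inv hq]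
  have h := loc_range hf q (mem_chart_target E q) v
  rw [(chartAt E q).left_inv (mem_chart_source E q)] at h
  rw [← h]
  exact mem_tan_self q v

omit [FiniteDimensional ℝ E] [FiniteDimensional ℝ V] [IsManifold 𝓘(ℝ, E) ∞ X]
  [InnerProductSpace ℝ E] [InnerProductSpace ℝ V] in
theorem loc_chart (p q : X) (hq : q ∈ (chartAt E p).source) :
    f ((chartAt E p).symm (chartAt E p q)) = f q := by
  rw [(chartAt E p).left_inv hq]

omit [FiniteDimensional ℝ E] [FiniteDimensional ℝ V] [IsManifold 𝓘(ℝ, E) ∞ X] in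
theorem loc_chart' (p q : X) (hq : q ∈ (chartAt E p).source) :
    loc f p (chartAt E p q) = f q := loc_chart p q hq

/-- the squared length of the tangential part of the position vector, a function on `X` -/
noncomputable def tauX (E : Type*) {V X : Type*} [NormedAddCommGroup E]
    [InnerProductSpace ℝ E] [NormedAddCommGroup V] [InnerProductSpace ℝ V]
    [FiniteDimensional ℝ V] [TopologicalSpace X] [ChartedSpace E X] (f : X → V) (q : X) : ℝ :=
  inner ℝ (f q) ((tanSpace E f q).starProjection (f q))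

theorem tauX_eq (hf : ContMDiff 𝓘(ℝ, E) 𝓘(ℝ, V) ∞ f)
    (himm : ∀ p, Function.Injective (mfderiv 𝓘(ℝ, E) 𝓘(ℝ, V) f p))
    (p q : X) (hq : q ∈ (chartAt E p).source) :
    tauX E f q = tau (loc f p) (chartAt E p q) := by
  unfold tauX tau tg
  rw [loc_chart' p q hq]
  congr 1
  exact proj_pinv (loc_imm hf himm p _ ((chartAt E p).map_source hq)) (tanSpace E f q)
    (mem_tanSpace hf p q hq) (f q)

theorem secondFF_eq (hf : ContMDiff 𝓘(ℝ, E) 𝓘(ℝ, V) ∞ f)
    (himm : ∀ p, Function.Injective (mfderiv 𝓘(ℝ, E) 𝓘(ℝ, V) f p))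
    (p : X) (x y : E) :
    secondFF f p x y = nu (loc f p) (Gam (loc f p)) (chartAt E p p) x y := by
  have h1 : hessian f p x y = sec (loc f p) (chartAt E p p) x y := rfl
  unfold secondFF
  rw [Submodule.starProjection_orthogonal_val, h1]
  unfold nu Gam
  congr 1
  exact proj_pinv (loc_imm hf himm p _ (mem_chart_target E p)) (tanSpace E f p)
    (mem_tanSpace hf p p (mem_chart_source E p)) _

/-- the pointwise bound on the second fundamental form -/
theorem bound (hf : ContMDiff 𝓘(ℝ, E) 𝓘(ℝ, V) ∞ f)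
    (himm : ∀ p, Function.Injective (mfderiv 𝓘(ℝ, E) 𝓘(ℝ, V) f p))
    (hfin : maxNormalCurvature E f ≠ ⊤) (p : X) (v : E) :
    ‖nu (loc f p) (Gam (loc f p)) (chartAt E p p) v v‖
      ≤ (maxNormalCurvature E f).toReal * gi (loc f p) (chartAt E p p) v v := by
  set F : E → V := loc f p with hFdef
  set u := chartAt E p p with hudef
  have hu : u ∈ (chartAt E p).target := mem_chart_target E p
  have hU := (chartAt E p).open_target
  have hF := contDiffOn_loc hf p
  have hi := loc_imm hf himm p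
  by_cases hv : v = 0
  · subst hv
    have h1 : nu F (Gam F) u 0 ((0:ℝ) • (0:E)) = (0:ℝ) • nu F (Gam F) u 0 0 :=
      nu_smul hU hF hi hu 0 0 0
    rw [smul_zero, zero_smul] at h1
    rw [h1]
    simp [gi]
  · have hpos : 0 < gi F u v v := by
      have h2 : fderiv ℝ F u v ≠ 0 := by
        intro h
        exact hv (hi u hu (by rw [h, map_zero]))
      exact real_inner_self_pos.mpr h2
    set s := √(gi F u v v) with hs
    have hs0 : 0 < s := Real.sqrt_pos.mpr hpos
    have hs2 : s ^ 2 = gi F u v v := Real.sq_sqrt hpos.le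
    set x : E := s⁻¹ • v with hx
    have hxx : gi F u x x = 1 := by
      rw [hx, gi_smul_left, gi_smul_right, ← hs2]
      field_simp
    have hvx : v = s • x := by
      rw [hx, smul_smul, mul_inv_cancel₀ hs0.ne', one_smul]
    have h3 : ‖secondFF f p x x‖ₑ ≤ maxNormalCurvature E f :=
      le_iSup_of_le p (le_iSup_of_le x (le_iSup_of_le hxx le_rfl))
    have h4 : ‖secondFF f p x x‖ ≤ (maxNormalCurvature E f).toReal := by
      have := ENNReal.toReal_mono hfin h3
      simpa using this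
    rw [secondFF_eq hf himm] at h4
    have h5 : nu F (Gam F) u v v = (s ^ 2) • nu F (Gam F) u x x := by
      rw [hvx, nu_smul hU hF hi hu, nu_symm hU hF hi hu, nu_smul hU hF hi hu, smul_smul]
      congr 1
      ring
    rw [h5, norm_smul, ← hs2, Real.norm_eq_abs, abs_of_pos (by positivity), mul_comm]
    exact mul_le_mul_of_nonneg_right h4 (by positivity)

end Q186.SM
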