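import Mathlib
import Pool.Agent.Q186.SM.Ric4

/-! Closed four-manifolds in the unit ball: maximum principle and the theorem. -/

open Set
open scoped Manifold ContDiff

namespace Q186.SM

variable {E V X : Type*} [NormedAddCommGroup E] [InnerProductSpace ℝ E] [FiniteDimensional ℝ E]
  [NormedAddCommGroup V] [InnerProductSpace ℝ V] [FiniteDimensional ℝ V] [TopologicalSpace X]
  [ChartedSpace E X] [IsManifold 𝓘(ℝ, E) ∞ X] {f : X → V}

/-- The function of the maximum principle in a chart. -/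
noncomputable def Gloc (F : E → V) (u : E) : ℝ :=
  tau F u - 4 / 5 * (1 - (inner ℝ (F u) (F u) : ℝ))

/-- The function of the maximum principle. -/
noncomputable def Gglob (E : Type*) {V X : Type*} [NormedAddCommGroup E]
    [InnerProductSpace ℝ E] [NormedAddCommGroup V] [InnerProductSpace ℝ V]
    [FiniteDimensional ℝ V] [TopologicalSpace X] [ChartedSpace E X] (f : X → V) (q : X) : ℝ :=
  tauX E f q - 4 / 5 * (1 - (inner ℝ (f q) (f q) : ℝ))

theorem Gglob_eq (hf : ContMDiff 𝓘(ℝ, E) 𝓘(ℝ, V) ∞ f)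
    (himm : ∀ p, Function.Injective (mfderiv 𝓘(ℝ, E) 𝓘(ℝ, V) f p))
    (p q : X) (hq : q ∈ (chartAt E p).source) :
    Gglob E f q = Gloc (loc f p) (chartAt E p q) := by
  unfold Gglob Gloc
  rw [tauX_eq hf himm p q hq, loc_chart' p q hq]

theorem contDiffOn_Gloc (hf : ContMDiff 𝓘(ℝ, E) 𝓘(ℝ, V) ∞ f)
    (himm : ∀ p, Function.Injective (mfderiv 𝓘(ℝ, E) 𝓘(ℝ, V) f p))
    (p : X) : ContDiffOn ℝ ∞ (Gloc (loc f p)) (chartAt E p).target := by
  have h1 := contDiffOn_loc hf p
  exact (contDiffOn_tau (chartAt E p).open_target h1 (loc_imm hf himm p)).sub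
    (contDiffOn_const.mul (contDiffOn_const.sub (h1.inner ℝ h1)))

theorem continuous_Gglob (hf : ContMDiff 𝓘(ℝ, E) 𝓘(ℝ, V) ∞ f)
    (himm : ∀ p, Function.Injective (mfderiv 𝓘(ℝ, E) 𝓘(ℝ, V) f p)) :
    Continuous (Gglob E f) := by
  rw [continuous_iff_continuousAt]
  intro p
  have h1 : Gglob E f =ᶠ[nhds p] fun q => Gloc (loc f p) (chartAt E p q) := by
    filter_upwards [(chartAt E p).open_source.mem_nhds (mem_chart_source E p)] with q hq
    exact Gglob_eq hf himm p q hq
  refine ContinuousAt.congr ?_ h1.symm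
  have h2 : ContinuousAt (chartAt E p) p := (chartAt E p).continuousAt (mem_chart_source E p)
  have h3 : ContinuousAt (Gloc (loc f p)) (chartAt E p p) :=
    (contDiffOn_Gloc hf himm p).continuousOn.continuousAt
      ((chartAt E p).open_target.mem_nhds (mem_chart_target E p))
  exact ContinuousAt.comp (g := Gloc (loc f p)) h3 h2

/-- **The maximum principle**: `|f^T|² ≤ (4/5)(1 - |f|²)` everywhere. -/
theorem Gglob_nonpos [CompactSpace X]
    (hf : ContMDiff 𝓘(ℝ, E) 𝓘(ℝ, V) ∞ f)
    (himm : ∀ p, Function.Injective (mfderiv 𝓘(ℝ, E) 𝓘(ℝ, V) f p))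
    (hball : ∀ p, ‖f p‖ ≤ 1) (hfin : maxNormalCurvature E f ≠ ⊤)
    (hc : (maxNormalCurvature E f).toReal < 9 / 5) (q : X) : Gglob E f q ≤ 0 := by
  obtain ⟨p, -, hp⟩ := isCompact_univ.exists_isMaxOn ⟨q, mem_univ q⟩
    (continuous_Gglob hf himm).continuousOn
  have hmax : ∀ r, Gglob E f r ≤ Gglob E f p := fun r => hp (mem_univ r)
  refine le_trans (hmax q) ?_
  have hu := mem_chart_target E p
  have hU := (chartAt E p).open_target
  have hF := contDiffOn_loc hf p
  have hi := loc_imm hf himm p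
  have h1 : Gglob E f p = Gloc (loc f p) (chartAt E p p) :=
    Gglob_eq hf himm p p (mem_chart_source E p)
  have h2 : IsLocalMax (Gloc (loc f p)) (chartAt E p p) := by
    filter_upwards [hU.mem_nhds hu] with u hu'
    have h3 := Gglob_eq hf himm p ((chartAt E p).symm u) ((chartAt E p).map_target hu')
    rw [(chartAt E p).right_inv hu'] at h3
    rw [← h3, ← h1]
    exact hmax _
  have h4 := h2.fderiv_eq_zero
  have hr : ‖loc f p (chartAt E p p)‖ ≤ 1 := by
    rw [loc_chart' p p (mem_chart_source E p)]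
    exact hball p
  have h5 := tau_crit hU hF hi hu hc ENNReal.toReal_nonneg hr (bound hf himm hfin p) h4
  rw [h1]
  unfold Gloc
  rw [h5, real_inner_self_eq_norm_sq]
  nlinarith [norm_nonneg (loc f p (chartAt E p p))]

/-- the conformal exponent on the manifold -/
noncomputable def psiX (f : X → V) (q : X) : ℝ := -(9 / 8) * ‖f q‖ ^ 2

theorem contMDiff_psiX (hf : ContMDiff 𝓘(ℝ, E) 𝓘(ℝ, V) ∞ f) :
    ContMDiff 𝓘(ℝ, E) 𝓘(ℝ, ℝ) ∞ (psiX f) := by
  have h : ContDiff ℝ ∞ (fun v : V => -(9 / 8) * ‖v‖ ^ 2) :=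
    contDiff_const.mul (contDiff_norm_sq ℝ)
  exact h.contMDiff.comp hf

theorem ricciR_core [CompactSpace X]
    (hf : ContMDiff 𝓘(ℝ, E) 𝓘(ℝ, V) ∞ f)
    (himm : ∀ p, Function.Injective (mfderiv 𝓘(ℝ, E) 𝓘(ℝ, V) f p))
    (hball : ∀ p, ‖f p‖ ≤ 1) (hc : maxNormalCurvature E f < ENNReal.ofReal (√(9 / 5))) (p : X) :
    ConditionR (chartAt E p).target
      (fun u x y => Real.exp (2 * psiX f ((chartAt E p).symm u)) * met f p u x y)
      (chartAt E p p) := by
  have hfin : maxNormalCurvature E f ≠ ⊤ := ne_top_of_lt hc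
  have hc1 : (maxNormalCurvature E f).toReal < √(9 / 5) := by
    have := (ENNReal.toReal_lt_toReal hfin ENNReal.ofReal_ne_top).mpr hc
    rwa [ENNReal.toReal_ofReal (Real.sqrt_nonneg _)] at this
  have hc0 : 0 ≤ (maxNormalCurvature E f).toReal := ENNReal.toReal_nonneg
  have hc2 : (maxNormalCurvature E f).toReal ^ 2 < 9 / 5 := by
    have := pow_lt_pow_left₀ hc1 hc0 two_ne_zero
    rwa [Real.sq_sqrt (by norm_num)] at this
  have hc3 : (maxNormalCurvature E f).toReal < 9 / 5 := by nlinarith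
  have hG := Gglob_nonpos hf himm hball hfin hc3 p
  rw [Gglob_eq hf himm p p (mem_chart_source E p)] at hG
  have hu := mem_chart_target E p
  have hU := (chartAt E p).open_target
  have hF := contDiffOn_loc hf p
  have hi := loc_imm hf himm p
  have hb := bound hf himm hfin p
  have hmet : (fun u x y => Real.exp (2 * psiX f ((chartAt E p).symm u)) * met f p u x y)
      = fun u x y => Real.exp (2 * psi (loc f p) u) * gi (loc f p) u x y := by
    funext u x y
    have : psiX f ((chartAt E p).symm u) = psi (loc f p) u := by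
      unfold psiX psi loc
      rw [real_inner_self_eq_norm_sq]
    rw [this]
    rfl
  rw [hmet]
  set F : E → V := loc f p with hFdef
  set u := chartAt E p p with hudef
  refine ⟨cGam F, cGam_lc hU hF hi, ?_⟩
  intro e he
  have hτ : tau F u ≤ 4 / 5 * (1 - ‖F u‖ ^ 2) := by
    unfold Gloc at hG
    rw [real_inner_self_eq_norm_sq] at hG
    linarith
  set L := Real.exp (-(2 * psi F u)) with hL
  have hLpos : 0 < L := Real.exp_pos _
  have hLE : Real.exp (2 * psi F u) * L = 1 := by
    rw [hL, ← Real.exp_add]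
    simp
  have hoff : ∀ i j, i ≠ j → gi F u (e i) (e j) = 0 := by
    intro i j hij
    have h1 := he i j
    simp only [hij, if_false] at h1
    have h2 : Real.exp (2 * psi F u) ≠ 0 := (Real.exp_pos _).ne'
    rcases mul_eq_zero.mp h1 with h3 | h3
    · exact absurd h3 h2
    · exact h3
  have hdiag : ∀ i, gi F u (e i) (e i) = L := by
    intro i
    have h1 := he i i
    simp only [if_true] at h1
    have h2 : Real.exp (2 * psi F u) ≠ 0 := (Real.exp_pos _).ne'
    apply mul_left_cancel₀ h2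
    rw [h1, hLE]
  have hpos := sum_pos hU hF hi hu hc2 hc0 hb hτ hLpos (hoff 0 1 (by decide))
    (hoff 0 2 (by decide)) (hoff 1 2 (by decide)) (hdiag 0) (hdiag 1) (hdiag 2)
  have hself : ∀ i, curvature (cGam F) u (e i) (e i) (e i) = 0 := by
    intro i
    unfold curvature
    abel
  have hsym : ∀ i j, i ≠ j → gi F u (curvature (cGam F) u (e i) (e j) (e j)) (e i)
      = gi F u (curvature (cGam F) u (e j) (e i) (e i)) (e j) := by
    intro i j hij
    rw [curv_conf hU hF hi hu (hoff i j hij) (hdiag i) (hdiag j),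
      curv_conf hU hF hi hu (hoff j i hij.symm) (hdiag j) (hdiag i),
      nu_symm hU hF hi hu (e j) (e i),
      real_inner_comm (nu F (Gam F) u (e i) (e i)) (nu F (Gam F) u (e j) (e j))]
    ring
  have hE : 0 < Real.exp (2 * psi F u) := Real.exp_pos _
  unfold scal ricci
  simp only [Fin.sum_univ_four, hself]
  have hz : ∀ v : E, gi F u 0 v = 0 := by
    intro v
    simp [gi]
  rw [hz, hz, hz, hz, hsym 1 0 (by decide), hsym 2 0 (by decide), hsym 3 0 (by decide),
    hsym 2 1 (by decide), hsym 3 1 (by decide), hsym 3 2 (by decide)]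
  have := mul_pos hE hpos
  nlinarith [this]

end Q186.SM
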